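import Mathlib
import Pool.Agent.Lib.MP_bf61d2_nt.Trim.Artin.Defs63
import Pool.Agent.Lib.MP_bf61d2_nt.Trim.Artin.H.DefsH
import Pool.Agent.Lib.MP_bf61d2_nt.Trim.Artin.L.StmtsL63
import Pool.Agent.Lib.MP_bf61d2_nt.Trim.Artin.L.T1M73
import Pool.Agent.Lib.MP_bf61d2_nt.Trim.Artin.R.DefsR
import Pool.Agent.Lib.MP_bf61d2_nt.Trim.Artin.UK.StmtsU84
import Pool.Agent.Lib.MP_bf61d2_nt.Trim.Joint.Main
import Pool.Agent.Lib.MP_bf61d2_nt.Trim.Perm.Frob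
import Pool.Agent.Lib.MP_bf61d2_nt.Trim.Places
import Pool.Agent.Lib.MP_bf61d2_nt.Trim.Quad
import Pool.Agent.Lib.MP_bf61d2_nt.Trim.Structure

set_option autoImplicit false

/-!
MONO (MP_bf61d2_nt): the repulsion for the twists by the Hecke characters of all the extensions of
bounded degree. Definitions and the statements of the modules, as propositions.
-/

namespace NumberField
end NumberField

namespace Pool.Agent.Lib.MP_bf61d2_nt.Zeta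
end Pool.Agent.Lib.MP_bf61d2_nt.Zeta

namespace Pool.Agent.Lib.MP_bf61d2_nt.Perm
end Pool.Agent.Lib.MP_bf61d2_nt.Perm

namespace Pool.Agent.Lib.MP_bf61d2_nt.Artin.Ray

open NumberField IsDedekindDomain Module

open Pool.Agent.Lib.MP_bf61d2_nt.Zeta Pool.Agent.Lib.MP_bf61d2_nt.Perm

open scoped Classical

universe u

section Defs

/-- The norm of the ideals along an embedding of number fields. -/
noncomputable def rn {F L : Type u} [Field F] [NumberField F] [Field L] [NumberField L]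
    (α : F →+* L) : Ideal (𝓞 L) →*₀ Ideal (𝓞 F) :=
  letI := α.toAlgebra
  Ideal.relNorm (𝓞 F)

/-- The extension of an ideal along an embedding. -/
noncomputable def me {F L : Type u} [Field F] [Field L] (α : F →+* L) (𝔪 : Ideal (𝓞 F)) :
    Ideal (𝓞 L) :=
  𝔪.map (RingOfIntegers.mapRingHom α)

/-- A compositum over `K` of two extensions of `K`. -/
structure Cmp (K F₁ F₂ : Type u) [Field K] [Field F₁] [Field F₂] [Algebra K F₁] [Algebra K F₂]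
    where
  /-- the field -/
  L : Type u
  [fld : Field L]
  [nf : NumberField L]
  [alg : Algebra K L]
  /-- the first embedding -/
  α : F₁ →ₐ[K] L
  /-- the second embedding -/
  β : F₂ →ₐ[K] L
  gen : α.fieldRange ⊔ β.fieldRange = ⊤

attribute [instance] Cmp.fld Cmp.nf Cmp.alg

/-- The product of the first character and of the conjugate of the second one on a compositum. -/
noncomputable def cpx {K F₁ F₂ : Type u} [Field K] [Field F₁] [NumberField F₁] [Field F₂]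
    [NumberField F₂] [Algebra K F₁] [Algebra K F₂] (C : Cmp K F₁ F₂)
    (ψ₁ : Ideal (𝓞 F₁) →*₀ ℂ) (ψ₂ : Ideal (𝓞 F₂) →*₀ ℂ) : Ideal (𝓞 C.L) →*₀ ℂ :=
  ψ₁.comp (rn (C.α : F₁ →+* C.L)) * cj (ψ₂.comp (rn (C.β : F₂ →+* C.L)))

/-- The modulus of the product on a compositum. -/
noncomputable def cmd {K F₁ F₂ : Type u} [Field K] [Field F₁] [NumberField F₁] [Field F₂]
    [NumberField F₂] [Algebra K F₁] [Algebra K F₂] (C : Cmp K F₁ F₂)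
    (𝔪₁ : Ideal (𝓞 F₁)) (𝔪₂ : Ideal (𝓞 F₂)) : Ideal (𝓞 C.L) :=
  me (C.α : F₁ →+* C.L) 𝔪₁ * me (C.β : F₂ →+* C.L) 𝔪₂

/-- The sum over the places of degree one above a place. -/
noncomputable def A1 (K : Type u) {F : Type u} [Field K] [NumberField K] [Field F] [NumberField F]
    [Algebra K F] (f : HeightOneSpectrum (𝓞 F) → ℂ) (v : HeightOneSpectrum (𝓞 K)) : ℂ :=
  ∑ᶠ w : {w : HeightOneSpectrum (𝓞 F) // dn (K := K) w = v ∧ nm w = nm v}, f w.1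

/-- The embeddings of `F` in `M` are separated modulo `P`. -/
def Sep (K F M : Type u) [Field K] [Field F] [Field M] [Algebra K F] [Algebra K M]
    (P : HeightOneSpectrum (𝓞 M)) : Prop :=
  ∀ φ χ : F →ₐ[K] M, φ ≠ χ → ∃ θ : 𝓞 F, (RingOfIntegers.mapAlgHom φ : 𝓞 F →ₐ[𝓞 K] 𝓞 M) θ -
    (RingOfIntegers.mapAlgHom χ : 𝓞 F →ₐ[𝓞 K] 𝓞 M) θ ∉ P.asIdeal

end Defs

/-- THE: a short primitive element. -/
def StTHE (n : ℕ) : Prop := ∃ (A : ℝ) (k : ℕ), 1 ≤ A ∧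
  ∀ (F : Type u) [Field F] [NumberField F], finrank ℚ F = n →
    ∃ θ : 𝓞 F, IntermediateField.adjoin ℚ {(θ : F)} = ⊤ ∧
      ∀ w : InfinitePlace F, w (θ : F) ≤ A * dK F ^ k

/-- BAD: the places at which the embeddings are not separated. -/
def StBAD (n : ℕ) : Prop := ∃ A : ℝ, 0 ≤ A ∧
  ∀ (K F M : Type u) [Field K] [NumberField K] [Field F] [NumberField F] [Field M] [NumberField M]
    [Algebra K F] [Algebra K M] [IsGalois K M], finrank ℚ F = n →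
    ∃ S : Finset (HeightOneSpectrum (𝓞 K)),
      ∑ v ∈ S, Real.log (nm v) ≤ A * Real.log (20 * dK F) ∧
      ∀ P : HeightOneSpectrum (𝓞 M), dn (K := K) P ∉ S → Sep K F M P

/-- CLO: a common Galois extension. -/
def StCLO : Prop := ∀ (K F₁ F₂ : Type u) [Field K] [NumberField K] [Field F₁] [NumberField F₁]
  [Field F₂] [NumberField F₂] [Algebra K F₁] [Algebra K F₂],
  ∃ (M : Type u) (_ : Field M) (_ : NumberField M) (_ : Algebra K M), IsGalois K M ∧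
    Nonempty (F₁ →ₐ[K] M) ∧ Nonempty (F₂ →ₐ[K] M)

/-- BIJ: the places of degree one and the embeddings fixed by a Frobenius element. -/
def StBIJ : Prop := ∀ (K F M : Type u) [Field K] [NumberField K] [Field F] [NumberField F]
  [Field M] [NumberField M] [Algebra K F] [Algebra K M] [IsGalois K M], Nonempty (F →ₐ[K] M) →
  ∀ (P : HeightOneSpectrum (𝓞 M)) (σ : Gal(M/K)),
    (∀ x : 𝓞 M, σ • x - x ^ nm (dn (K := K) P) ∈ P.asIdeal) → Sep K F M P →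
    ∀ f : HeightOneSpectrum (𝓞 F) → ℂ, A1 K f (dn (K := K) P) =
      ∑ φ : {φ : F →ₐ[K] M // (σ : M →ₐ[K] M).comp φ = φ}, f (pl φ.1 P)

/-- CPL: the products of sums over places of degree one, and the composita. -/
def StCPL (n : ℕ) : Prop := ∃ A : ℝ, 0 ≤ A ∧
  ∀ (K F₁ F₂ : Type u) [Field K] [NumberField K] [Field F₁] [NumberField F₁]
  [Field F₂] [NumberField F₂] [Algebra K F₁] [Algebra K F₂], finrank ℚ F₁ ≤ n → finrank ℚ F₂ ≤ n →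
  ∃ (J : ℕ) (C : Fin J → Cmp K F₁ F₂) (S : Finset (HeightOneSpectrum (𝓞 K))),
    J ≤ n ^ 2 ∧ (∀ j, finrank ℚ (C j).L ≤ n ^ 2) ∧
    (∀ e : F₁ ≃ₐ[K] F₂, ∀ i j, (C i).α = (C i).β.comp (e : F₁ →ₐ[K] F₂) →
      (C j).α = (C j).β.comp (e : F₁ →ₐ[K] F₂) → i = j) ∧
    ∑ v ∈ S, Real.log (nm v) ≤ A * Real.log (20 * (dK F₁ * dK F₂)) ∧
    ∀ v, v ∉ S → ∀ (f₁ : HeightOneSpectrum (𝓞 F₁) → ℂ) (f₂ : HeightOneSpectrum (𝓞 F₂) → ℂ),
      A1 K f₁ v * A1 K f₂ v = ∑ j, A1 K (fun w => f₁ (pl (C j).α w) * f₂ (pl (C j).β w)) v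

/-- DSC: the discriminant of a compositum. -/
def StDSC (n : ℕ) : Prop := ∃ (A : ℝ) (k : ℕ), 1 ≤ A ∧
  ∀ (K F₁ F₂ : Type u) [Field K] [NumberField K] [Field F₁] [NumberField F₁]
  [Field F₂] [NumberField F₂] [Algebra K F₁] [Algebra K F₂] (C : Cmp K F₁ F₂),
  finrank ℚ F₁ ≤ n → finrank ℚ F₂ ≤ n → dK C.L ≤ A * (dK F₁ * dK F₂) ^ k

/-- NRM: the pull back of a Hecke character by the norm. -/
def StNRM : Prop := ∀ (F L : Type u) [Field F] [NumberField F] [Field L] [NumberField L]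
  (α : F →+* L) (𝔪 : Ideal (𝓞 F)) (Z : ℕ) (ψ : Ideal (𝓞 F) →*₀ ℂ), IsHk 𝔪 Z ψ →
  ∀ D : ℕ, finrank ℚ L ≤ D → IsHk (me α 𝔪) ((D * Z) ^ D) (ψ.comp (rn α))

/-- NRP: the norm of a place of degree one. -/
def StNRP : Prop := ∀ (K F L : Type u) [Field K] [NumberField K] [Field F] [NumberField F]
  [Field L] [NumberField L] [Algebra K F] [Algebra K L] (α : F →ₐ[K] L)
  (w : HeightOneSpectrum (𝓞 L)), nm w = nm (dn (K := K) w) →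
  rn (α : F →+* L) w.asIdeal = (pl α w).asIdeal

/-- BCU: the traces of a base change, uniformly in the curve and the extension. -/
def StBCU (n : ℕ) : Prop := ∃ A : ℝ, 0 ≤ A ∧
  ∀ (K F : Type u) [Field K] [NumberField K] [Field F] [NumberField F] [Algebra K F],
  finrank ℚ F = n → ∀ (E : WeierstrassCurve K) (f : HeightOneSpectrum (𝓞 F) → ℂ),
  (∀ w, ‖f w‖ ≤ 1) → ∀ δ t : ℝ, 0 < δ →
    ‖CRL (fun w => cc (E.baseChange F) w) f δ t -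
      WL δ (fun v : HeightOneSpectrum (𝓞 K) => (cc E v : ℂ) * (A1 K f v * ph t (nm v)))‖ ≤
    A * Real.log (20 * dK F)

/-- DEG: sums over the places of an extension and over the places of the base field. -/
def StDEG (n : ℕ) : Prop := ∃ A : ℝ, 0 ≤ A ∧
  ∀ (K L : Type u) [Field K] [NumberField K] [Field L] [NumberField L] [Algebra K L],
  finrank ℚ L = n → ∀ (f : HeightOneSpectrum (𝓞 L) → ℂ), (∀ w, ‖f w‖ ≤ 1) → ∀ x t : ℝ, 0 < x →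
    ‖WL x (fun w => f w * ph t (nm w)) -
      WL x (fun v : HeightOneSpectrum (𝓞 K) => A1 K f v * ph t (nm v))‖ ≤ A

/-- GRAM: the one sided bound of the entries of the matrix of Gram. -/
def StGRM (n : ℕ) : Prop := ∃ A : ℝ, 0 ≤ A ∧
  ∀ (K F₁ F₂ : Type u) [Field K] [NumberField K] [Field F₁] [NumberField F₁]
  [Field F₂] [NumberField F₂] [Algebra K F₁] [Algebra K F₂], finrank ℚ F₁ ≤ n → finrank ℚ F₂ ≤ n →
  ∀ Q : ℝ, 20 ≤ Q → dK F₁ ≤ Q → dK F₂ ≤ Q →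
  ∀ (𝔪₁ : Ideal (𝓞 F₁)) (Z₁ : ℕ) (ψ₁ : Ideal (𝓞 F₁) →*₀ ℂ) (𝔪₂ : Ideal (𝓞 F₂)) (Z₂ : ℕ)
  (ψ₂ : Ideal (𝓞 F₂) →*₀ ℂ), IsHk 𝔪₁ Z₁ ψ₁ → IsHk 𝔪₂ Z₂ ψ₂ → (Z₁ : ℝ) ≤ Q → (Z₂ : ℝ) ≤ Q →
  ∀ x u : ℝ, 0 < x → x ≤ 1 → |u| ≤ 2 * Q →
    ((¬ ∃ C : Cmp K F₁ F₂, TR (cmd C 𝔪₁ 𝔪₂) (cpx C ψ₁ ψ₂)) →
      (WL x (fun v : HeightOneSpectrum (𝓞 K) => A1 K (fun w => ψ₁ w.asIdeal) v *
        (starRingEnd ℂ) (A1 K (fun w => ψ₂ w.asIdeal) v) * ph u (nm v))).re ≤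
        A * Real.log Q) ∧
    (∀ e : F₁ ≃ₐ[K] F₂, (∀ C : Cmp K F₁ F₂, TR (cmd C 𝔪₁ 𝔪₂) (cpx C ψ₁ ψ₂) →
        C.α = C.β.comp (e : F₁ →ₐ[K] F₂)) →
      (WL x (fun v : HeightOneSpectrum (𝓞 K) => A1 K (fun w => ψ₁ w.asIdeal) v *
        (starRingEnd ℂ) (A1 K (fun w => ψ₂ w.asIdeal) v) * ph u (nm v))).re ≤
        x / (x ^ 2 + u ^ 2) + A * Real.log Q) ∧
    (WL x (fun v : HeightOneSpectrum (𝓞 K) => A1 K (fun w => ψ₁ w.asIdeal) v *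
      (starRingEnd ℂ) (A1 K (fun w => ψ₂ w.asIdeal) v) * ph u (nm v))).re ≤
      n ^ 2 * (x / (x ^ 2 + u ^ 2)) + A * Real.log Q

/-- The members of a family: an extension, a modulus, a size, a character and a height. -/
structure Mem (K : Type u) [Field K] where
  /-- the field -/
  F : Type u
  [fld : Field F]
  [nf : NumberField F]
  [alg : Algebra K F]
  /-- the modulus -/
  m : Ideal (𝓞 F)
  /-- the size -/
  Z : ℕ
  /-- the character -/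
  ψ : Ideal (𝓞 F) →*₀ ℂ
  /-- the height -/
  t : ℝ

attribute [instance] Mem.fld Mem.nf Mem.alg

/-- A member is admissible. -/
def Mem.Ok {K : Type u} [Field K] (X : Mem K) (m : ℕ) (Q : ℝ) : Prop :=
  finrank K X.F ≤ m ∧ dK X.F ≤ Q ∧ IsHk X.m X.Z X.ψ ∧ (X.Z : ℝ) ≤ Q ∧ |X.t| ≤ Q ∧
    ∀ C : Cmp K X.F X.F, TR (cmd C X.m X.m) (cpx C X.ψ X.ψ) → C.α = C.β

/-- The characters of two members have a common constituent. -/
def Mem.Rel {K : Type u} [Field K] (X Y : Mem K) : Prop :=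
  ∃ C : Cmp K X.F Y.F, TR (cmd C X.m Y.m) (cpx C X.ψ Y.ψ)

/-- BESM: the one sided inequality of Bessel. -/
def StBESM (n m : ℕ) : Prop := ∃ C : ℝ, 0 ≤ C ∧
  ∀ (K : Type u) [Field K] [NumberField K], finrank ℚ K = n → ∀ Q : ℝ, 20 ≤ Q → dK K ≤ Q →
  ∀ (c : HeightOneSpectrum (𝓞 K) → ℝ), (∀ v, |c v| ≤ 2) → ∀ δ : ℝ, 0 < δ → δ ≤ 1 / 2 →
  ∀ (N : ℕ) (X : Fin N → Mem K), (∀ i, (X i).Ok m Q) →
    (∀ i j, i ≠ j → (X i).Rel (X j) → 1 / Real.log Q ≤ |(X i).t - (X j).t|) →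
    ∀ g : Fin N → ℝ, (∀ i, 0 ≤ g i) →
    ‖∑ i, (g i : ℂ) * WL δ (fun v : HeightOneSpectrum (𝓞 K) => (c v : ℂ) *
        (A1 K (fun w => (X i).ψ w.asIdeal) v * ph (X i).t (nm v)))‖ ^ 2 ≤
      (∑' v : HeightOneSpectrum (𝓞 K), wl δ v * c v ^ 2) *
        (1 / δ * ∑ i, g i ^ 2 + C * Real.log Q * (∑ i, g i) ^ 2)

/-- The family of twists of the main theorem. -/
def OkM (K : Type u) [Field K] [NumberField K] (m : ℕ) (Q : ℝ) (F : Type u) [Field F]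
    [NumberField F] [Algebra K F] (d : ℕ) (𝔪 : Ideal (𝓞 F)) (a : TA F) (b : TB F)
    (ψ : Ideal (𝓞 F) →*₀ ℂ) (t : ℝ) : Prop :=
  finrank K F ≤ m ∧ dK F ≤ Q ∧ 0 < d ∧ (d : ℝ) ≤ Q ∧ 𝔪 ≠ ⊥ ∧ IsHe 𝔪 a b ψ ∧
    (Ideal.absNorm 𝔪 : ℝ) ≤ Q ∧ (∀ w, |(a w : ℝ)| ≤ Q) ∧ (∀ w, |b w| ≤ Q) ∧ |t| ≤ Q

/-- The twists agree on a compositum. -/
def Agr {K F₁ F₂ : Type u} [Field K] [Field F₁] [NumberField F₁] [Field F₂]
    [NumberField F₂] [Algebra K F₁] [Algebra K F₂] (C : Cmp K F₁ F₂) (d₁ d₂ : ℕ)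
    (𝔪₁ : Ideal (𝓞 F₁)) (𝔪₂ : Ideal (𝓞 F₂)) (ψ₁ : Ideal (𝓞 F₁) →*₀ ℂ)
    (ψ₂ : Ideal (𝓞 F₂) →*₀ ℂ) : Prop :=
  ∀ w : HeightOneSpectrum (𝓞 C.L),
    ¬ Ideal.span {((2 * d₁ * d₂ : ℕ) : 𝓞 C.L)} * cmd C 𝔪₁ 𝔪₂ ≤ w.asIdeal →
    ψ₁ (rn (C.α : F₁ →+* C.L) w.asIdeal) * (jacobiSym d₁ (Ideal.absNorm w.asIdeal) : ℂ) =
      ψ₂ (rn (C.β : F₂ →+* C.L) w.asIdeal) * (jacobiSym d₂ (Ideal.absNorm w.asIdeal) : ℂ)

/-- MAINM: the main theorem. -/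
def StMAINM (n m : ℕ) : Prop := ∃ C : ℝ, 0 ≤ C ∧
  ∀ (K : Type u) [Field K] [NumberField K], finrank ℚ K = n →
  ∀ Q : ℝ, 20 ≤ Q → dK K ≤ Q →
  ∀ (E : WeierstrassCurve K) [E.IsElliptic] (δ : ℝ), 0 < δ → δ ≤ 1 / 2 →
  ∀ (N : ℕ) (F : Fin N → Type u) [∀ i, Field (F i)] [∀ i, NumberField (F i)]
    [∀ i, Algebra K (F i)] (d : Fin N → ℕ) (𝔪 : ∀ i, Ideal (𝓞 (F i))) (a : ∀ i, TA (F i))
    (b : ∀ i, TB (F i)) (ψ : ∀ i, Ideal (𝓞 (F i)) →*₀ ℂ) (t : Fin N → ℝ),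
    (∀ i, OkM K m Q (F i) (d i) (𝔪 i) (a i) (b i) (ψ i) (t i)) →
    (∀ i, ∀ C : Cmp K (F i) (F i), Agr C (d i) (d i) (𝔪 i) (𝔪 i) (ψ i) (ψ i) → C.α = C.β) →
    (∀ i j, i ≠ j → (∃ C : Cmp K (F i) (F j), Agr C (d i) (d j) (𝔪 i) (𝔪 j) (ψ i) (ψ j)) →
      1 / Real.log Q ≤ |t i - t j|) →
    ∀ g : Fin N → ℝ, (∀ i, 0 ≤ g i) →
    ‖∑ i, (g i : ℂ) * logDeriv (LE (qt (E.baseChange (F i)) (d i : F i))
        (fun w => ψ i w.asIdeal)) ((3 / 2 + δ : ℝ) + t i * Complex.I)‖ ^ 2 ≤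
      T1 E δ / δ * ∑ i, g i ^ 2 + C * Real.log Q / δ * (∑ i, g i) ^ 2

end Pool.Agent.Lib.MP_bf61d2_nt.Artin.Ray
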