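import Mathlib
import Pool.Agent.Lib.MP_bf61d2_nt.Trim.Artin.L.StmtsL63
import Pool.Agent.Lib.MP_bf61d2_nt.Trim.Artin.MO.StmtsM63
import Pool.Agent.Lib.MP_bf61d2_nt.Trim.Perm.Regroup
import Pool.Agent.Lib.MP_bf61d2_nt.Trim.Places
import Pool.Agent.Lib.MP_bf61d2_nt.Trim.PrimeSum
import Pool.Agent.Lib.MP_bf61d2_nt.Trim.Quad

set_option autoImplicit false

/-!
MONO (MP_bf61d2_nt): sums over the places of degree one above a place.
-/

namespace NumberField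
end NumberField

namespace Pool.Agent.Lib.MP_bf61d2_nt.Zeta
end Pool.Agent.Lib.MP_bf61d2_nt.Zeta

namespace Pool.Agent.Lib.MP_bf61d2_nt.Perm
end Pool.Agent.Lib.MP_bf61d2_nt.Perm

namespace Pool.Agent.Lib.MP_bf61d2_nt.Artin.Ray

open NumberField IsDedekindDomain Module

open Pool.Agent.Lib.MP_bf61d2_nt.Zeta Pool.Agent.Lib.MP_bf61d2_nt.Perm

open scoped Classical

universe u

section A1

variable {K F : Type u} [Field K] [NumberField K] [Field F] [NumberField F] [Algebra K F]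

lemma A1_eq_sum63 (f : HeightOneSpectrum (𝓞 F) → ℂ) (v : HeightOneSpectrum (𝓞 K))
    (T : Finset (HeightOneSpectrum (𝓞 F))) (hT : ∀ w, w ∈ T ↔ dn (K := K) w = v) :
    A1 K f v = ∑ w ∈ T.filter (fun w => nm w = nm v), f w := by
  rw [A1, finsum_subtype_eq_finsum_cond (f := f)
    (p := fun w : HeightOneSpectrum (𝓞 F) => dn (K := K) w = v ∧ nm w = nm v)]
  refine finsum_cond_eq_sum_of_cond_iff _ fun {w} _ => ?_
  rw [Finset.mem_filter, hT]

lemma A1_congr63 {f g : HeightOneSpectrum (𝓞 F) → ℂ} (v : HeightOneSpectrum (𝓞 K))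
    (h : ∀ w : HeightOneSpectrum (𝓞 F), dn (K := K) w = v → nm w = nm (dn (K := K) w) →
      f w = g w) : A1 K f v = A1 K g v := by
  rw [A1, A1]
  refine finsum_congr fun w => h w.1 w.2.1 ?_
  rw [w.2.1]
  exact w.2.2

lemma finrank_le63 (K F : Type u) [Field K] [NumberField K] [Field F] [NumberField F]
    [Algebra K F] : finrank (𝓞 K) (𝓞 F) ≤ finrank ℚ F := by
  rw [← IsFractionRing.finrank_eq (𝓞 K) K (𝓞 F) F, ← finrank_mul_finrank ℚ K F]
  exact Nat.le_mul_of_pos_left _ finrank_pos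

lemma norm_A1_le63 {f : HeightOneSpectrum (𝓞 F) → ℂ} {n : ℕ} (hn : finrank ℚ F ≤ n)
    (hf : ∀ w, ‖f w‖ ≤ 1) (v : HeightOneSpectrum (𝓞 K)) : ‖A1 K f v‖ ≤ n := by
  obtain ⟨T, hT, hcard⟩ := exists_fiber' F v
  rw [A1_eq_sum63 f v T hT]
  calc ‖∑ w ∈ T.filter (fun w => nm w = nm v), f w‖
      ≤ ∑ _w ∈ T.filter (fun w => nm w = nm v), (1 : ℝ) :=
        (norm_sum_le _ _).trans (Finset.sum_le_sum fun w _ => hf w)
    _ = (T.filter (fun w => nm w = nm v)).card := by simp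
    _ ≤ n := by
        have h1 := (Finset.card_filter_le T (fun w => nm w = nm v)).trans
          (hcard.trans ((finrank_le63 K F).trans hn))
        exact_mod_cast h1

lemma conj_A163 (f : HeightOneSpectrum (𝓞 F) → ℂ) (v : HeightOneSpectrum (𝓞 K)) :
    (starRingEnd ℂ) (A1 K f v) = A1 K (fun w => (starRingEnd ℂ) (f w)) v := by
  obtain ⟨T, hT, -⟩ := exists_fiber' F v
  rw [A1_eq_sum63 f v T hT, A1_eq_sum63 _ v T hT, map_sum]

end A1

section WL

variable {K : Type u} [Field K] [NumberField K]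

lemma summable_WL63 {x : ℝ} (hx : 0 < x) {f : HeightOneSpectrum (𝓞 K) → ℂ} {B : ℝ}
    (hf : ∀ v, ‖f v‖ ≤ B) : Summable fun v => (wl x v : ℂ) * f v := by
  refine Summable.of_norm_bounded ((summable_wl (K := K) hx).mul_right B) fun v => ?_
  rw [norm_mul, Complex.norm_real, Real.norm_eq_abs, abs_of_nonneg (wl_nonneg x v)]
  exact mul_le_mul_of_nonneg_left (hf v) (wl_nonneg x v)

lemma WL_add63 {x : ℝ} (hx : 0 < x) {f g : HeightOneSpectrum (𝓞 K) → ℂ} {B B' : ℝ}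
    (hf : ∀ v, ‖f v‖ ≤ B) (hg : ∀ v, ‖g v‖ ≤ B') :
    WL x (fun v => f v + g v) = WL x f + WL x g := by
  rw [WL, WL, WL, ← (summable_WL63 hx hf).tsum_add (summable_WL63 hx hg)]
  refine tsum_congr fun v => ?_
  ring

lemma WL_sum63 {x : ℝ} (hx : 0 < x) {ι : Type*} (s : Finset ι)
    (f : ι → HeightOneSpectrum (𝓞 K) → ℂ) {B : ℝ} (hf : ∀ i ∈ s, ∀ v, ‖f i v‖ ≤ B) :
    WL x (fun v => ∑ i ∈ s, f i v) = ∑ i ∈ s, WL x (f i) := by
  simp only [WL]
  rw [← Summable.tsum_finsetSum fun i hi => summable_WL63 hx (hf i hi)]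
  refine tsum_congr fun v => ?_
  rw [Finset.mul_sum]

lemma wl_le_log63 {x : ℝ} (hx : 0 < x) (v : HeightOneSpectrum (𝓞 K)) :
    wl x v ≤ Real.log (nm v) := by
  rw [wl]
  refine mul_le_of_le_one_left (log_nm_pos v).le ?_
  rw [wp]
  exact Real.rpow_le_one_of_one_le_of_nonpos (by exact_mod_cast (one_lt_nm v).le) (by linarith)

/-- A sum over finitely many places. -/
lemma norm_WL_fin63 {x : ℝ} (hx : 0 < x) {f : HeightOneSpectrum (𝓞 K) → ℂ} {B : ℝ}
    (hf : ∀ v, ‖f v‖ ≤ B) (hB : 0 ≤ B) (S : Finset (HeightOneSpectrum (𝓞 K)))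
    (h0 : ∀ v, v ∉ S → f v = 0) : ‖WL x f‖ ≤ B * ∑ v ∈ S, Real.log (nm v) := by
  rw [WL, tsum_eq_sum (s := S) fun v hv => by rw [h0 v hv, mul_zero]]
  refine (norm_sum_le _ _).trans ?_
  rw [Finset.mul_sum]
  refine Finset.sum_le_sum fun v _ => ?_
  rw [norm_mul, Complex.norm_real, Real.norm_eq_abs, abs_of_nonneg (wl_nonneg x v), mul_comm]
  exact mul_le_mul (hf v) (wl_le_log63 hx v) (wl_nonneg x v) hB

end WL

end Pool.Agent.Lib.MP_bf61d2_nt.Artin.Ray
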