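import Mathlib
import Pool.Agent.Lib.MP_bf61d2_nt.Trim.Artin.MO.StmtsM63
import Pool.Agent.Lib.MP_bf61d2_nt.Trim.Artin.R.DefsR
import Pool.Agent.Lib.MP_bf61d2_nt.Trim.Artin.R.MAINRD84
import Pool.Agent.Lib.MP_bf61d2_nt.Trim.Artin.T.DefsT84
import Pool.Agent.Lib.MP_bf61d2_nt.Trim.Artin.T.J12x84
import Pool.Agent.Lib.MP_bf61d2_nt.Trim.Places

set_option autoImplicit false

/-!
MONO (MP_bf61d2_nt), for module MAINM: characters that agree on a compositum; the size of a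
member of the family.
-/

namespace NumberField
end NumberField

namespace Pool.Agent.Lib.MP_bf61d2_nt.Zeta
end Pool.Agent.Lib.MP_bf61d2_nt.Zeta

namespace Pool.Agent.Lib.MP_bf61d2_nt.Perm
end Pool.Agent.Lib.MP_bf61d2_nt.Perm

namespace Pool.Agent.Lib.MP_bf61d2_nt.Artin.Ray

open NumberField IsDedekindDomain Module

open Pool.Agent.Lib.MP_bf61d2_nt.Zeta Pool.Agent.Lib.MP_bf61d2_nt.Perm

open scoped Classical

universe u

/-- The symbol `(d / N I)` as a ray class character modulo `4 d`, at all ideals. -/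
lemma exists_js88 (K : Type u) [Field K] [NumberField K] (d : ℕ) (hd : 0 < d) :
    ∃ η : Ideal (𝓞 K) →*₀ ℂ, IsRay (Ideal.span {((4 * d : ℕ) : 𝓞 K)}) η ∧
      ∀ I : Ideal (𝓞 K), η I = (js d (Ideal.absNorm I) : ℂ) := by
  obtain ⟨χ, he, -, hχ⟩ := exists_char d hd
  have : NeZero (4 * d) := ⟨by omega⟩
  exact ⟨nch (by omega) χ, isRay_nch (by omega) χ he, fun I => hχ _⟩

/-- The norm of an ideal does not depend on the field. -/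
lemma absNorm_rn88 {F L : Type u} [Field F] [NumberField F] [Field L] [NumberField L]
    (α : F →+* L) (I : Ideal (𝓞 L)) : Ideal.absNorm (rn α I) = Ideal.absNorm I := by
  let _ := α.toAlgebra
  exact Ideal.absNorm_relNorm (𝓞 F) (𝓞 L) I

lemma me_mul_span88 {F L : Type u} [Field F] [Field L] (α : F →+* L) (𝔪 : Ideal (𝓞 F)) (k : ℕ) :
    me α (𝔪 * Ideal.span {(k : 𝓞 F)}) = me α 𝔪 * Ideal.span {(k : 𝓞 L)} := by
  unfold me
  rw [Ideal.map_mul, Ideal.map_span, Set.image_singleton, map_natCast]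

lemma eq_of_mul_conj88 {z w : ℂ} (hz : ‖z‖ ≤ 1) (hw : ‖w‖ ≤ 1)
    (h : z * (starRingEnd ℂ) w = 1) : z = w := by
  have h1 : ‖z‖ * ‖w‖ = 1 := by
    have := congrArg norm h
    rwa [norm_mul, RCLike.norm_conj, norm_one] at this
  have h2 : ‖w‖ = 1 := by
    have h3 := mul_le_mul_of_nonneg_right hz (norm_nonneg w)
    linarith
  have h4 : (starRingEnd ℂ) w * w = 1 := by
    rw [mul_comm, Complex.mul_conj, Complex.normSq_eq_norm_sq, h2]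
    norm_num
  calc z = z * ((starRingEnd ℂ) w * w) := by rw [h4, mul_one]
    _ = z * (starRingEnd ℂ) w * w := by ring
    _ = w := by rw [h, one_mul]

/-- If the product of the characters on a compositum is trivial, then the twists agree. -/
theorem agr_of_TR88 {K F₁ F₂ : Type u} [Field K] [Field F₁] [NumberField F₁] [Field F₂]
    [NumberField F₂] [Algebra K F₁] [Algebra K F₂] (C : Cmp K F₁ F₂) {d₁ d₂ : ℕ}
    {𝔪₁ : Ideal (𝓞 F₁)} {𝔪₂ : Ideal (𝓞 F₂)} {ψ₁ η₁ : Ideal (𝓞 F₁) →*₀ ℂ}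
    {ψ₂ η₂ : Ideal (𝓞 F₂) →*₀ ℂ} (hη₁ : ∀ I, η₁ I = (js d₁ (Ideal.absNorm I) : ℂ))
    (hη₂ : ∀ I, η₂ I = (js d₂ (Ideal.absNorm I) : ℂ)) (h₁ : ∀ I, ‖(ψ₁ * η₁) I‖ ≤ 1)
    (h₂ : ∀ I, ‖(ψ₂ * η₂) I‖ ≤ 1)
    (h : TR (cmd C (𝔪₁ * Ideal.span {((4 * d₁ : ℕ) : 𝓞 F₁)})
      (𝔪₂ * Ideal.span {((4 * d₂ : ℕ) : 𝓞 F₂)})) (cpx C (ψ₁ * η₁) (ψ₂ * η₂))) :
    Agr C d₁ d₂ 𝔪₁ 𝔪₂ ψ₁ ψ₂ := by
  intro w hw
  have hw' := hw
  unfold cmd at hw
  simp only [mul_le_iff, not_or] at hw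
  obtain ⟨hw1, hw2, hw3⟩ := hw
  have h3 : ¬ cmd C (𝔪₁ * Ideal.span {((4 * d₁ : ℕ) : 𝓞 F₁)})
      (𝔪₂ * Ideal.span {((4 * d₂ : ℕ) : 𝓞 F₂)}) ≤ w.asIdeal := by
    unfold cmd
    rw [me_mul_span88, me_mul_span88]
    simp only [mul_le_iff, not_or]
    rw [← span_le_iff, not_or] at hw1
    exact ⟨⟨hw2, hw1.1⟩, ⟨hw3, hw1.2⟩⟩
  have h4 := h w h3
  have h5 : (ψ₁ * η₁) (rn (C.α : F₁ →+* C.L) w.asIdeal) *
      (starRingEnd ℂ) ((ψ₂ * η₂) (rn (C.β : F₂ →+* C.L) w.asIdeal)) = 1 := h4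
  have h6 := eq_of_mul_conj88 (h₁ _) (h₂ _) h5
  have h7 : ψ₁ (rn (C.α : F₁ →+* C.L) w.asIdeal) * η₁ (rn (C.α : F₁ →+* C.L) w.asIdeal) =
      ψ₂ (rn (C.β : F₂ →+* C.L) w.asIdeal) * η₂ (rn (C.β : F₂ →+* C.L) w.asIdeal) := h6
  rw [hη₁, hη₂, absNorm_rn88, absNorm_rn88] at h7
  have h8 := jac_eq hw1 d₁
  have h9 := jac_eq hw1 d₂
  unfold nm at h8 h9
  rw [h8, h9] at h7
  exact h7

end Pool.Agent.Lib.MP_bf61d2_nt.Artin.Ray
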