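import Mathlib
import Pool.Agent.Lib.MP_bf61d2_nt.Trim.Artin.L.BADL73
import Pool.Agent.Lib.MP_bf61d2_nt.Trim.Artin.MO.StmtsM63
import Pool.Agent.Lib.MP_bf61d2_nt.Trim.Artin.UK.StmtsU84
import Pool.Agent.Lib.MP_bf61d2_nt.Trim.Places
import Pool.Agent.Lib.MP_bf61d2_nt.Trim.Quad

set_option autoImplicit false

/-!
MONO (MP_bf61d2_nt): module BAD, the places at which the embeddings are not separated.
-/

namespace NumberField
end NumberField

namespace Pool.Agent.Lib.MP_bf61d2_nt.Zeta
end Pool.Agent.Lib.MP_bf61d2_nt.Zeta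

namespace Pool.Agent.Lib.MP_bf61d2_nt.Perm
end Pool.Agent.Lib.MP_bf61d2_nt.Perm

namespace Pool.Agent.Lib.MP_bf61d2_nt.Artin.Ray

open NumberField IsDedekindDomain Module

open Pool.Agent.Lib.MP_bf61d2_nt.Zeta Pool.Agent.Lib.MP_bf61d2_nt.Perm

open scoped Classical

universe u

section

variable {K F M : Type u} [Field K] [NumberField K] [Field F] [NumberField F] [Field M]
  [NumberField M] [Algebra K F] [Algebra K M]

/-- The pairs of different embeddings. -/
noncomputable def prs72 (K F M : Type u) [Field K] [NumberField K] [Field F] [NumberField F]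
    [Field M] [NumberField M] [Algebra K F] [Algebra K M] :
    Finset ((F →ₐ[K] M) × (F →ₐ[K] M)) :=
  have : FiniteDimensional K F := Module.Finite.of_restrictScalars_finite ℚ K F
  (Finset.univ : Finset ((F →ₐ[K] M) × (F →ₐ[K] M))).filter fun p => p.1 ≠ p.2

lemma mem_prs72 (p : (F →ₐ[K] M) × (F →ₐ[K] M)) : p ∈ prs72 K F M ↔ p.1 ≠ p.2 := by
  simp [prs72]

/-- The degree of the base field is at most the degree. -/
lemma finrank_le72 (K F : Type u) [Field K] [NumberField K] [Field F] [NumberField F]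
    [Algebra K F] : finrank ℚ K ≤ finrank ℚ F ∧ finrank K F ≤ finrank ℚ F := by
  have : FiniteDimensional K F := Module.Finite.of_restrictScalars_finite ℚ K F
  have h3 : finrank ℚ K * finrank K F = finrank ℚ F := Module.finrank_mul_finrank ℚ K F
  have h4 : 0 < finrank ℚ K := Module.finrank_pos
  have h5 : 0 < finrank K F := Module.finrank_pos
  rw [← h3]
  exact ⟨Nat.le_mul_of_pos_right _ h5, Nat.le_mul_of_pos_left _ h4⟩

/-- The number of pairs. -/
lemma card_prs72 {n : ℕ} (hn : finrank ℚ F = n) : (prs72 K F M).card ≤ n ^ 2 := by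
  have : FiniteDimensional K F := Module.Finite.of_restrictScalars_finite ℚ K F
  have h1 : Fintype.card (F →ₐ[K] M) ≤ n := by
    have h2 := card_algHom_le_finrank K F M
    rw [Nat.card_eq_fintype_card] at h2
    have h5 := (finrank_le72 K F).2
    omega
  unfold prs72
  refine (Finset.card_filter_le _ _).trans ?_
  rw [Finset.card_univ, Fintype.card_prod, sq]
  exact Nat.mul_le_mul h1 h1

/-- The product of the differences. -/
noncomputable def del72 (K : Type u) {F : Type u} (M : Type u) [Field K] [NumberField K]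
    [Field F] [NumberField F] [Field M] [NumberField M] [Algebra K F] [Algebra K M]
    (θ : 𝓞 F) : 𝓞 M :=
  ∏ p ∈ prs72 K F M, ((RingOfIntegers.mapAlgHom p.1 : 𝓞 F →ₐ[𝓞 K] 𝓞 M) θ -
    (RingOfIntegers.mapAlgHom p.2 : 𝓞 F →ₐ[𝓞 K] 𝓞 M) θ)

lemma coe_del72 (θ : 𝓞 F) : (del72 K M θ : M) =
    ∏ p ∈ prs72 K F M, (p.1 (θ : F) - p.2 (θ : F)) := by
  unfold del72
  push_cast
  rfl

/-- The product of the differences comes from the base field. -/
lemma del72_mem [IsGalois K M] (θ : 𝓞 F) : ∃ δ : 𝓞 K, algebraMap (𝓞 K) (𝓞 M) δ = del72 K M θ := by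
  have : FiniteDimensional K M := Module.Finite.of_restrictScalars_finite ℚ K M
  have h1 : (del72 K M θ : M) ∈ Set.range (algebraMap K M) := by
    rw [IsGalois.mem_range_algebraMap_iff_fixed]
    intro σ
    rw [coe_del72, map_prod]
    refine Finset.prod_bij (fun p _ => ((σ : M →ₐ[K] M).comp p.1, (σ : M →ₐ[K] M).comp p.2))
      ?_ ?_ ?_ ?_
    · intro p hp
      rw [mem_prs72] at hp ⊢
      intro h
      apply hp
      ext x
      have h2 := DFunLike.congr_fun h x
      exact σ.injective h2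
    · intro p _ q _ h
      rw [Prod.mk.injEq] at h
      refine Prod.ext ?_ ?_
      · ext x
        exact σ.injective (DFunLike.congr_fun h.1 x)
      · ext x
        exact σ.injective (DFunLike.congr_fun h.2 x)
    · intro q hq
      rw [mem_prs72] at hq
      refine ⟨((σ.symm : M →ₐ[K] M).comp q.1, (σ.symm : M →ₐ[K] M).comp q.2), ?_, ?_⟩
      · rw [mem_prs72]
        intro h
        apply hq
        ext x
        exact σ.symm.injective (DFunLike.congr_fun h x)
      · refine Prod.ext ?_ ?_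
        · ext x
          exact σ.apply_symm_apply _
        · ext x
          exact σ.apply_symm_apply _
    · intro p _
      rw [map_sub]
      rfl
  obtain ⟨d, hd⟩ := h1
  have hint : IsIntegral ℤ d := by
    have h2 : IsIntegral ℤ (algebraMap K M d) := by
      rw [hd]
      exact RingOfIntegers.isIntegral_coe _
    exact (isIntegral_algebraMap_iff (algebraMap K M).injective).mp h2
  exact ⟨⟨d, hint⟩, RingOfIntegers.ext hd⟩

/-- The product of the differences is not zero. -/
lemma del72_ne (θ : 𝓞 F) (hθ : IntermediateField.adjoin ℚ {(θ : F)} = ⊤) : del72 K M θ ≠ 0 := by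
  intro h
  have h1 : (del72 K M θ : M) = 0 := by rw [h]; rfl
  rw [coe_del72, Finset.prod_eq_zero_iff] at h1
  obtain ⟨p, hp, h2⟩ := h1
  rw [mem_prs72] at hp
  apply hp
  have h4 : Algebra.adjoin ℚ {(θ : F)} = ⊤ := by
    have h5 := IntermediateField.adjoin_simple_toSubalgebra_of_isAlgebraic
      (Algebra.IsAlgebraic.isAlgebraic (R := ℚ) (θ : F))
    rw [← h5, hθ, IntermediateField.top_toSubalgebra]
  have h3 : (p.1.restrictScalars ℚ) = (p.2.restrictScalars ℚ) := by
    refine AlgHom.ext_of_adjoin_eq_top h4 ?_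
    intro x hx
    rw [Set.mem_singleton_iff] at hx
    rw [hx]
    exact sub_eq_zero.mp h2
  ext x
  exact DFunLike.congr_fun h3 x

/-- The archimedean bound. -/
lemma del72_le {n : ℕ} (hn : finrank ℚ F = n) {X : ℝ} (hX : 1 ≤ X) (θ : 𝓞 F)
    (hθ : ∀ w : InfinitePlace F, w (θ : F) ≤ X) (w : InfinitePlace M) :
    w (del72 K M θ : M) ≤ (2 * X) ^ n ^ 2 := by
  rw [coe_del72, map_prod]
  calc ∏ p ∈ prs72 K F M, w (p.1 (θ : F) - p.2 (θ : F))
      ≤ ∏ p ∈ prs72 K F M, (2 * X) := by
        refine Finset.prod_le_prod (fun p _ => apply_nonneg _ _) fun p _ => ?_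
        have h1 : w (p.1 (θ : F)) ≤ X := by
          have h2 := hθ (w.comap (p.1 : F →+* M))
          rwa [InfinitePlace.comap_apply] at h2
        have h2 : w (p.2 (θ : F)) ≤ X := by
          have h2 := hθ (w.comap (p.2 : F →+* M))
          rwa [InfinitePlace.comap_apply] at h2
        have h3 : w (p.1 (θ : F) - p.2 (θ : F)) ≤ w (p.1 (θ : F)) + w (p.2 (θ : F)) := by
          exact map_sub_le_add w.1 _ _
        linarith
    _ = (2 * X) ^ (prs72 K F M).card := by rw [Finset.prod_const]
    _ ≤ (2 * X) ^ n ^ 2 := pow_le_pow_right₀ (by linarith) (card_prs72 hn)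

end

lemma one_le_dK72 (F : Type u) [Field F] [NumberField F] : 1 ≤ dK F := by
  have h : (1 : ℤ) ≤ |discr F| := Int.one_le_abs (discr_ne_zero F)
  rw [dK]
  exact_mod_cast h

/-- The norm of an element with bounded absolute values. -/
lemma absNorm_le72 {K : Type u} [Field K] [NumberField K] (δ : 𝓞 K) {Y : ℝ}
    (h : ∀ w : InfinitePlace K, w (δ : K) ≤ Y) :
    (Ideal.absNorm (Ideal.span {δ}) : ℝ) ≤ Y ^ finrank ℚ K := by
  have h1 : (Ideal.absNorm (Ideal.span {δ}) : ℝ) = ((|Algebra.norm ℚ (δ : K)| : ℚ) : ℝ) := by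
    rw [Ideal.absNorm_span_singleton, ← Algebra.coe_norm_int, Nat.cast_natAbs]
    push_cast
    rfl
  rw [h1, ← InfinitePlace.prod_eq_abs_norm, ← InfinitePlace.sum_mult_eq (K := K),
    ← Finset.prod_pow_eq_pow_sum]
  exact Finset.prod_le_prod (fun w _ => pow_nonneg (apply_nonneg _ _) _) fun w _ =>
    pow_le_pow_left₀ (apply_nonneg _ _) (h w) _

/-- Module BAD. -/
theorem stBAD {n : ℕ} (hT : StTHE.{u} n) : StBAD.{u} n := by
  obtain ⟨A, k, hA, hT⟩ := hT
  refine ⟨n ^ 3 * (Real.log (2 * A) + k), ?_, ?_⟩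
  · have h1 : 0 ≤ Real.log (2 * A) := Real.log_nonneg (by linarith)
    positivity
  intro K F M _ _ _ _ _ _ _ _ _ hn
  obtain ⟨θ, hθ, hw⟩ := hT F hn
  obtain ⟨δ, hδ⟩ := del72_mem (K := K) (M := M) θ
  have hD0 := del72_ne (K := K) (M := M) θ hθ
  have hδ0 : δ ≠ 0 := by
    rintro rfl
    rw [map_zero] at hδ
    exact hD0 hδ.symm
  have hspan : Ideal.span {δ} ≠ ⊥ := by
    rw [Ne, Ideal.span_singleton_eq_bot]
    exact hδ0
  have hdF := one_le_dK72 F
  have hX : 1 ≤ A * dK F ^ k := by
    have h1 : 1 ≤ dK F ^ k := one_le_pow₀ hdF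
    nlinarith
  have hwδ : ∀ w : InfinitePlace K, w (δ : K) ≤ (2 * (A * dK F ^ k)) ^ n ^ 2 := by
    intro w
    obtain ⟨w', rfl⟩ := InfinitePlace.comap_surjective (K := M) w
    have h1 := del72_le (K := K) (M := M) hn hX θ hw w'
    rw [← hδ] at h1
    exact h1
  have hfin := Ideal.finite_factors hspan
  refine ⟨hfin.toFinset, ?_, ?_⟩
  · refine (sum_log_nm_le73 hspan hfin.toFinset fun v hv => ?_).trans ?_
    · rw [Set.Finite.mem_toFinset, Set.mem_ofPred_eq, Ideal.dvd_iff_le] at hv
      exact hv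
    · have h1 := absNorm_le72 δ hwδ
      have hpos : (0 : ℝ) < Ideal.absNorm (Ideal.span {δ}) := by
        have h2 : Ideal.absNorm (Ideal.span {δ}) ≠ 0 := by
          rw [Ne, Ideal.absNorm_eq_zero_iff]
          exact hspan
        exact_mod_cast Nat.pos_of_ne_zero h2
      have h2 := Real.log_le_log hpos h1
      refine h2.trans ?_
      rw [← pow_mul, Real.log_pow, Real.log_mul (by norm_num) (by linarith),
        Real.log_mul (by linarith) (by positivity), Real.log_pow]
      have hK : finrank ℚ K ≤ n := hn ▸ (finrank_le72 K F).1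
      have h3 : ((n ^ 2 * finrank ℚ K : ℕ) : ℝ) ≤ (n : ℝ) ^ 3 := by
        have h4 : n ^ 2 * finrank ℚ K ≤ n ^ 3 := by
          rw [pow_succ n 2]
          exact Nat.mul_le_mul_left _ hK
        exact_mod_cast h4
      have hl2 : 0 ≤ Real.log 2 := Real.log_nonneg (by norm_num)
      have hlA : 0 ≤ Real.log A := Real.log_nonneg hA
      have hld : 0 ≤ Real.log (dK F) := Real.log_nonneg hdF
      have hl20 : 1 ≤ Real.log 20 := by
        rw [Real.le_log_iff_exp_le (by norm_num)]
        have := Real.exp_one_lt_d9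
        linarith
      have hL : Real.log (20 * dK F) = Real.log 20 + Real.log (dK F) :=
        Real.log_mul (by norm_num) (by linarith)
      have h5 : Real.log 2 + (Real.log A + k * Real.log (dK F)) ≤
          (Real.log (2 * A) + k) * Real.log (20 * dK F) := by
        rw [Real.log_mul (by norm_num) (by linarith), hL]
        have hk : (0 : ℝ) ≤ k := by positivity
        nlinarith [mul_nonneg hl2 hld, mul_nonneg hlA hld, mul_nonneg hk hld,
          mul_nonneg (add_nonneg hl2 hlA) (sub_nonneg.mpr hl20),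
          mul_nonneg hk (sub_nonneg.mpr hl20)]
      calc ((n ^ 2 * finrank ℚ K : ℕ) : ℝ) * (Real.log 2 + (Real.log A + k * Real.log (dK F)))
          ≤ (n : ℝ) ^ 3 * ((Real.log (2 * A) + k) * Real.log (20 * dK F)) :=
            mul_le_mul h3 h5 (by positivity) (by positivity)
        _ = n ^ 3 * (Real.log (2 * A) + k) * Real.log (20 * dK F) := by ring
  · intro P hP φ χ hne
    refine ⟨θ, fun hmem => hP ?_⟩
    rw [Set.Finite.mem_toFinset, Set.mem_ofPred_eq, Ideal.dvd_iff_le,
      Ideal.span_singleton_le_iff_mem, mem_dn, hδ]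
    unfold del72
    have hp : (φ, χ) ∈ prs72 K F M := by
      rw [mem_prs72]
      exact hne
    rw [← Finset.mul_prod_erase _ _ hp]
    exact Ideal.mul_mem_right _ _ hmem

end Pool.Agent.Lib.MP_bf61d2_nt.Artin.Ray
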