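import Mathlib
import Pool.Agent.Lib.MP_bf61d2_nt.Trim.Artin.D1x63
import Pool.Agent.Lib.MP_bf61d2_nt.Trim.Artin.Defs63
import Pool.Agent.Lib.MP_bf61d2_nt.Trim.Artin.L.LELOG36
import Pool.Agent.Lib.MP_bf61d2_nt.Trim.Artin.L.StmtsL63
import Pool.Agent.Lib.MP_bf61d2_nt.Trim.Artin.MO.StmtsM63
import Pool.Agent.Lib.MP_bf61d2_nt.Trim.Artin.U2.CST36
import Pool.Agent.Lib.MP_bf61d2_nt.Trim.Perm.Regroup
import Pool.Agent.Lib.MP_bf61d2_nt.Trim.Places
import Pool.Agent.Lib.MP_bf61d2_nt.Trim.PrimeSum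
import Pool.Agent.Lib.MP_bf61d2_nt.Trim.Quad

set_option autoImplicit false

/-!
MONO (MP_bf61d2_nt), module DEG: sums over the places of an extension and over the places of the
base field.
-/

namespace NumberField
end NumberField

namespace Pool.Agent.Lib.MP_bf61d2_nt.Zeta
end Pool.Agent.Lib.MP_bf61d2_nt.Zeta

namespace Pool.Agent.Lib.MP_bf61d2_nt.Perm
end Pool.Agent.Lib.MP_bf61d2_nt.Perm

namespace Pool.Agent.Lib.MP_bf61d2_nt.Artin.Ray.DEG36
end Pool.Agent.Lib.MP_bf61d2_nt.Artin.Ray.DEG36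

namespace Pool.Agent.Lib.MP_bf61d2_nt.Artin.Ray

open NumberField IsDedekindDomain Module

open Pool.Agent.Lib.MP_bf61d2_nt.Zeta Pool.Agent.Lib.MP_bf61d2_nt.Perm

universe u

namespace DEG36

variable {K L : Type u} [Field K] [NumberField K] [Field L] [NumberField L] [Algebra K L]

lemma sq_pr_le_of_ne (w : HeightOneSpectrum (𝓞 L)) (h : nm w ≠ nm (dn (K := K) w)) :
    pr w ^ 2 ≤ nm w := by
  refine sq_pr_le_nm w fun h2 => h ?_
  obtain ⟨f, hf, hw⟩ := nm_dn (K := K) w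
  have hp : (nm w).Prime := h2 ▸ pr_prime w
  rw [hw] at hp
  have hf1 : f = 1 := by
    rcases Nat.lt_or_ge f 2 with h3 | h3
    · omega
    · exact absurd hp (Nat.Prime.not_prime_pow h3)
  rw [hw, hf1, pow_one]

lemma wl_le_of_ne (w : HeightOneSpectrum (𝓞 L)) (h : nm w ≠ nm (dn (K := K) w)) {x : ℝ}
    (hx : 0 < x) : wl x w ≤ 4 * (pr w : ℝ) ^ (-(5 / 4) : ℝ) := by
  have hq : (0 : ℝ) < nm w := nm_pos' w
  have hq1 : (1 : ℝ) ≤ nm w := by exact_mod_cast (one_lt_nm w).le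
  have hp : (0 : ℝ) < pr w := by exact_mod_cast (pr_prime w).pos
  have hp1 : (1 : ℝ) ≤ pr w := by exact_mod_cast (pr_prime w).one_lt.le
  have h1 := LELOG36.log_le_four w
  have h2 : (pr w : ℝ) ^ 2 ≤ nm w := by exact_mod_cast sq_pr_le_of_ne (K := K) w h
  have h3 : wp (1 + x) w ≤ (nm w : ℝ) ^ (-1 : ℝ) := by
    rw [wp]
    exact Real.rpow_le_rpow_of_exponent_le hq1 (by linarith)
  calc wl x w = wp (1 + x) w * Real.log (nm w) := rfl
    _ ≤ (nm w : ℝ) ^ (-1 : ℝ) * (4 * (nm w : ℝ) ^ (1 / 4 : ℝ)) :=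
        mul_le_mul h3 h1 (log_nm_pos w).le (Real.rpow_nonneg hq.le _)
    _ = 4 * (nm w : ℝ) ^ (-(3 / 4) : ℝ) := by
        have e : (nm w : ℝ) ^ (-(3 / 4) : ℝ) =
            (nm w : ℝ) ^ (-1 : ℝ) * (nm w : ℝ) ^ (1 / 4 : ℝ) := by
          rw [← Real.rpow_add hq]
          norm_num
        rw [e]
        ring
    _ ≤ 4 * ((pr w : ℝ) ^ 2) ^ (-(3 / 4) : ℝ) :=
        mul_le_mul_of_nonneg_left
          (Real.rpow_le_rpow_of_nonpos (by positivity) h2 (by norm_num)) (by norm_num)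
    _ = 4 * (pr w : ℝ) ^ (-(3 / 2) : ℝ) := by
        rw [← Real.rpow_natCast, ← Real.rpow_mul hp.le]
        norm_num
    _ ≤ _ := mul_le_mul_of_nonneg_left
        (Real.rpow_le_rpow_of_exponent_le hp1 (by norm_num)) (by norm_num)

/-- The weights over a place of degree one. -/
lemma fib_eq (f : HeightOneSpectrum (𝓞 L) → ℂ) (x t : ℝ) (v : HeightOneSpectrum (𝓞 K)) :
    ∑' w : (dn (K := K) (L := L)) ⁻¹' {v}, (if nm w.1 = nm (dn (K := K) w.1) then
        (wl x w.1 : ℂ) * (f w.1 * ph t (nm w.1)) else 0) =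
      (wl x v : ℂ) * (A1 K f v * ph t (nm v)) := by
  classical
  obtain ⟨T, hT, -⟩ := exists_fiber' (K := K) L v
  have hS : (dn (K := K) (L := L)) ⁻¹' {v} = (T : Set (HeightOneSpectrum (𝓞 L))) := by
    ext w
    simp [hT]
  have hA : A1 K f v = ∑ w ∈ T.filter (fun w => nm w = nm v), f w := by
    have h1 : A1 K f v = ∑ᶠ w ∈ {w : HeightOneSpectrum (𝓞 L) | dn (K := K) w = v ∧ nm w = nm v},
        f w := finsum_set_coe_eq_finsum_mem _
    have h2 : {w : HeightOneSpectrum (𝓞 L) | dn (K := K) w = v ∧ nm w = nm v} =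
        ((T.filter (fun w => nm w = nm v) : Finset (HeightOneSpectrum (𝓞 L))) :
          Set (HeightOneSpectrum (𝓞 L))) := by
      ext w
      simp [hT]
    rw [h1, h2, finsum_mem_coe_finset]
  rw [hS, hA, Finset.tsum_subtype' T (fun w => if nm w = nm (dn (K := K) w) then
        (wl x w : ℂ) * (f w * ph t (nm w)) else 0), Finset.sum_mul, Finset.mul_sum,
    Finset.sum_filter]
  refine Finset.sum_congr rfl fun w hw => ?_
  rw [(hT w).mp hw]
  by_cases h : nm w = nm v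
  · rw [if_pos h, if_pos h, wl, wl, wp, wp, h]
  · rw [if_neg h, if_neg h]

end DEG36

open DEG36 in
/-- DEG: sums over the places of an extension and over the places of the base field. -/
theorem stDEG (n : ℕ) : StDEG.{u} n := by
  refine ⟨4 * (n * Z36), by have := Z36_nonneg; positivity, ?_⟩
  intro K L _ _ _ _ _ hn f hf x t hx
  classical
  have hterm : ∀ w : HeightOneSpectrum (𝓞 L), ‖(wl x w : ℂ) * (f w * ph t (nm w))‖ ≤ wl x w := by
    intro w
    rw [norm_mul, norm_mul, norm_ph63, mul_one, Complex.norm_real, Real.norm_eq_abs,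
      abs_of_nonneg (wl_nonneg x w)]
    exact mul_le_of_le_one_right (wl_nonneg x w) (hf w)
  have hs1 : Summable fun w : HeightOneSpectrum (𝓞 L) => (wl x w : ℂ) * (f w * ph t (nm w)) :=
    Summable.of_norm_bounded (summable_wl hx) hterm
  have hs2 : Summable fun w : HeightOneSpectrum (𝓞 L) => if nm w = nm (dn (K := K) w) then
      (wl x w : ℂ) * (f w * ph t (nm w)) else 0 := by
    refine Summable.of_norm_bounded (summable_wl (K := L) hx) fun w => ?_
    split_ifs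
    · exact hterm w
    · rw [norm_zero]
      exact wl_nonneg x w
  have e : WL x (fun v : HeightOneSpectrum (𝓞 K) => A1 K f v * ph t (nm v)) =
      ∑' w : HeightOneSpectrum (𝓞 L), if nm w = nm (dn (K := K) w) then
        (wl x w : ℂ) * (f w * ph t (nm w)) else 0 := by
    rw [WL, ← (hs2.hasSum.tsum_fiberwise (dn (K := K))).tsum_eq]
    exact tsum_congr fun v => (fib_eq f x t v).symm
  rw [e, WL, ← hs1.tsum_sub hs2]
  have hb := tsum_pr_le_Z36 L
  rw [hn] at hb
  have hs3 := (summable_pr36 (K := L)).mul_left 4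
  refine (tsum_of_norm_bounded hs3.hasSum fun w => ?_).trans (by
    rw [tsum_mul_left]
    exact mul_le_mul_of_nonneg_left hb (by norm_num))
  have hp0 : 0 ≤ (pr w : ℝ) ^ (-(5 / 4) : ℝ) := by positivity
  by_cases h : nm w = nm (dn (K := K) w)
  · rw [if_pos h, sub_self, norm_zero]
    linarith
  · rw [if_neg h, sub_zero]
    exact (hterm w).trans (wl_le_of_ne w h hx)

end Pool.Agent.Lib.MP_bf61d2_nt.Artin.Ray
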