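import Mathlib
import Pool.Agent.Lib.MP_bf61d2_nt.Trim.Artin.D1x63
import Pool.Agent.Lib.MP_bf61d2_nt.Trim.Artin.Defs63
import Pool.Agent.Lib.MP_bf61d2_nt.Trim.Artin.L.BADL73
import Pool.Agent.Lib.MP_bf61d2_nt.Trim.Artin.L.StmtsL63
import Pool.Agent.Lib.MP_bf61d2_nt.Trim.Artin.LA.UBC77
import Pool.Agent.Lib.MP_bf61d2_nt.Trim.Artin.MO.A1L63
import Pool.Agent.Lib.MP_bf61d2_nt.Trim.Artin.MO.DEG36
import Pool.Agent.Lib.MP_bf61d2_nt.Trim.Artin.MO.StmtsM63
import Pool.Agent.Lib.MP_bf61d2_nt.Trim.Artin.U2.CST36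
import Pool.Agent.Lib.MP_bf61d2_nt.Trim.Artin.UK.StmtsU84
import Pool.Agent.Lib.MP_bf61d2_nt.Trim.Perm.Base
import Pool.Agent.Lib.MP_bf61d2_nt.Trim.Perm.Regroup
import Pool.Agent.Lib.MP_bf61d2_nt.Trim.Places
import Pool.Agent.Lib.MP_bf61d2_nt.Trim.PrimeSum
import Pool.Agent.Lib.MP_bf61d2_nt.Trim.Quad
import Pool.Agent.Lib.MP_bf61d2_nt.Trim.Structure

set_option autoImplicit false

/-!
MONO (MP_bf61d2_nt), module BCU: the traces of a base change, uniformly in the curve and the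
extension.
-/

namespace NumberField
end NumberField

namespace Pool.Agent.Lib.MP_bf61d2_nt.Zeta
end Pool.Agent.Lib.MP_bf61d2_nt.Zeta

namespace Pool.Agent.Lib.MP_bf61d2_nt.Perm
end Pool.Agent.Lib.MP_bf61d2_nt.Perm

namespace Pool.Agent.Lib.MP_bf61d2_nt.Artin.Ray.BCU77
end Pool.Agent.Lib.MP_bf61d2_nt.Artin.Ray.BCU77

namespace Pool.Agent.Lib.MP_bf61d2_nt.Artin.Ray

open NumberField IsDedekindDomain Module

open Pool.Agent.Lib.MP_bf61d2_nt.Zeta Pool.Agent.Lib.MP_bf61d2_nt.Perm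

universe u

namespace BCU77

variable {K F : Type u} [Field K] [NumberField K] [Field F] [NumberField F] [Algebra K F]

lemma one_le_dK77 (F : Type u) [Field F] [NumberField F] : 1 ≤ dK F := by
  have h : (1 : ℤ) ≤ |discr F| := Int.one_le_abs (discr_ne_zero F)
  rw [dK]
  exact_mod_cast h

/-- A place which is ramified over `K` divides the different of `F` over the rational integers. -/
lemma ram_le77 (w : HeightOneSpectrum (𝓞 F))
    (h : (dn (K := K) w).asIdeal.ramificationIdx' w.asIdeal ≠ 1) :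
    differentIdeal ℤ (𝓞 F) ≤ w.asIdeal := by
  have hle : (dn (K := K) w).asIdeal.map (algebraMap (𝓞 K) (𝓞 F)) ≤ w.asIdeal :=
    Ideal.map_le_iff_le_comap.mpr le_rfl
  have h1 := (Ideal.ramificationIdx'_ne_one_iff hle).mp h
  have hp : Prime ((pr w : ℕ) : ℤ) := Nat.prime_iff_prime_int.mp (pr_prime w)
  have hp0 : Ideal.span {((pr w : ℕ) : ℤ)} ≠ ⊥ := by
    rw [Ne, Ideal.span_singleton_eq_bot]
    exact hp.ne_zero
  have hprime : (Ideal.span {((pr w : ℕ) : ℤ)}).IsPrime :=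
    (Ideal.span_singleton_prime hp.ne_zero).mpr hp
  have hmax : (Ideal.span {((pr w : ℕ) : ℤ)}).IsMaximal := hprime.isMaximal hp0
  have h2 : (Ideal.span {((pr w : ℕ) : ℤ)}).map (algebraMap ℤ (𝓞 F)) ≤ w.asIdeal ^ 2 := by
    rw [Ideal.map_span, Set.image_singleton, Ideal.span_singleton_le_iff_mem]
    refine h1 ?_
    have h3 := Ideal.mem_map_of_mem (algebraMap (𝓞 K) (𝓞 F)) (pr_mem (dn (K := K) w))
    rw [pr_dn, map_natCast] at h3
    rw [map_natCast]
    exact h3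
  have h4 := pow_sub_one_dvd_differentIdeal (A := ℤ) (B := 𝓞 F)
    (p := Ideal.span {((pr w : ℕ) : ℤ)}) w.asIdeal 2 hp0 (Ideal.dvd_iff_le.mpr h2)
  have h5 := Ideal.dvd_iff_le.mp h4
  simpa using h5

/-- The ramified places. -/
lemma sum_ram77 (S : Finset (HeightOneSpectrum (𝓞 F)))
    (h : ∀ w ∈ S, (dn (K := K) w).asIdeal.ramificationIdx' w.asIdeal ≠ 1) :
    ∑ w ∈ S, Real.log (nm w) ≤ Real.log (dK F) := by
  have hne : differentIdeal ℤ (𝓞 F) ≠ ⊥ := differentIdeal_ne_bot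
  have h1 := sum_log_nm_le73 hne S fun w hw => ram_le77 (K := K) w (h w hw)
  have h2 : ((Ideal.absNorm (differentIdeal ℤ (𝓞 F)) : ℕ) : ℝ) = dK F := by
    rw [absNorm_differentIdeal (K := F), dK, ← Int.cast_abs, Int.abs_eq_natAbs, Int.cast_natCast]
  rwa [h2] at h1

/-- The places above 6. -/
lemma sum_six77 (S : Finset (HeightOneSpectrum (𝓞 F))) (h : ∀ w ∈ S, (6 : 𝓞 F) ∈ w.asIdeal) :
    ∑ w ∈ S, Real.log (nm w) ≤ finrank ℚ F * Real.log 6 := by
  have h6 : (6 : 𝓞 F) ≠ 0 := by norm_num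
  have hne : Ideal.span {(6 : 𝓞 F)} ≠ ⊥ := by
    rw [Ne, Ideal.span_singleton_eq_bot]
    exact h6
  have h1 := sum_log_nm_le73 hne S fun w hw => (Ideal.span_singleton_le_iff_mem _).mpr (h w hw)
  have h2 : Ideal.absNorm (Ideal.span {(6 : 𝓞 F)}) = 6 ^ finrank ℚ F := by
    have h3 : (6 : 𝓞 F) = algebraMap ℤ (𝓞 F) 6 := by simp
    rw [Ideal.absNorm_span_singleton, h3, Algebra.norm_algebraMap, RingOfIntegers.rank,
      Int.natAbs_pow]
    rfl
  rw [h2] at h1
  push_cast at h1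
  rwa [Real.log_pow] at h1

/-- A place of small weight. -/
lemma wl_div_sqrt77 {x : ℝ} (hx : 0 < x) (w : HeightOneSpectrum (𝓞 F)) :
    wl x w * (2 / Real.sqrt (nm w)) ≤ 8 * (pr w : ℝ) ^ (-(5 / 4) : ℝ) := by
  have h0 : (0 : ℝ) < nm w := nm_pos' w
  have h1 : (1 : ℝ) ≤ nm w := by exact_mod_cast (one_lt_nm w).le
  have h2 : wp (1 + x) w * (1 / Real.sqrt (nm w)) ≤ wp (3 / 2) w := by
    rw [wp, wp, Real.sqrt_eq_rpow, one_div, ← Real.rpow_neg h0.le, ← Real.rpow_add h0]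
    exact Real.rpow_le_rpow_of_exponent_le h1 (by linarith)
  have h3 := mul_le_mul_of_nonneg_right h2 (log_nm_pos w).le
  have h4 := wp_log_le36 w
  calc wl x w * (2 / Real.sqrt (nm w)) =
        2 * (wp (1 + x) w * (1 / Real.sqrt (nm w)) * Real.log (nm w)) := by
        rw [wl]
        ring
    _ ≤ _ := by linarith

lemma A1_mul77 (E : WeierstrassCurve K) (f : HeightOneSpectrum (𝓞 F) → ℂ)
    (v : HeightOneSpectrum (𝓞 K)) :
    A1 K (fun w => (cc E (dn (K := K) w) : ℂ) / 2 * f w) v = (cc E v : ℂ) / 2 * A1 K f v := by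
  classical
  obtain ⟨T, hT, -⟩ := exists_fiber' (K := K) F v
  rw [A1_eq_sum63 _ v T hT, A1_eq_sum63 f v T hT, Finset.mul_sum]
  refine Finset.sum_congr rfl fun w hw => ?_
  rw [(hT w).mp (Finset.mem_filter.mp hw).1]

end BCU77

open BCU77 in
/-- BCU: the traces of a base change, uniformly in the curve and the extension. -/
theorem stBCU (n : ℕ) : StBCU.{u} n := by
  obtain ⟨A₁, hA₁, hDEG⟩ := stDEG.{u} n
  have hZ := Z36_nonneg
  have hl6 : 0 ≤ Real.log 6 := Real.log_nonneg (by norm_num)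
  refine ⟨2 * A₁ + 24 * (n * Z36) + 4 * (n * Real.log 6) + 4, by positivity, ?_⟩
  intro K F _ _ _ _ _ hn E f hf δ t hδ
  classical
  have h6 : (6 : 𝓞 F) ≠ 0 := by norm_num
  have hfin6 : {w : HeightOneSpectrum (𝓞 F) | (6 : 𝓞 F) ∈ w.asIdeal}.Finite := finite_dvd h6
  have hfinr := LA.finite_ram77 K F
  set S₆ : Finset (HeightOneSpectrum (𝓞 F)) := hfin6.toFinset with hS₆
  set Sr : Finset (HeightOneSpectrum (𝓞 F)) := hfinr.toFinset with hSr
  have hm6 : ∀ w, w ∈ S₆ ↔ (6 : 𝓞 F) ∈ w.asIdeal := fun w => hfin6.mem_toFinset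
  have hmr : ∀ w, w ∈ Sr ↔ (dn (K := K) w).asIdeal.ramificationIdx' w.asIdeal ≠ 1 :=
    fun w => hfinr.mem_toFinset
  -- the comparison
  set g : HeightOneSpectrum (𝓞 F) → ℂ := fun w => (cc E (dn (K := K) w) : ℂ) / 2 * f w with hg
  have hg1 : ∀ w, ‖g w‖ ≤ 1 := by
    intro w
    have h1 := abs_cc_le E (dn (K := K) w)
    rw [hg]
    simp only
    rw [norm_mul, norm_div, Complex.norm_real, Real.norm_eq_abs, Complex.norm_two]
    have h2 : |cc E (dn (K := K) w)| / 2 ≤ 1 := by linarith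
    calc _ ≤ 1 * 1 := mul_le_mul h2 (hf w) (norm_nonneg _) zero_le_one
      _ = 1 := one_mul 1
  have h1 := hDEG K F hn g hg1 δ t hδ
  have eX : WL δ (fun w : HeightOneSpectrum (𝓞 F) =>
      (cc E (dn (K := K) w) : ℂ) * (f w * ph t (nm w))) =
      2 * WL δ (fun w : HeightOneSpectrum (𝓞 F) => g w * ph t (nm w)) := by
    rw [WL, WL, ← tsum_mul_left]
    refine tsum_congr fun w => ?_
    rw [hg]
    simp only
    ring
  have eY : WL δ (fun v : HeightOneSpectrum (𝓞 K) => (cc E v : ℂ) * (A1 K f v * ph t (nm v))) =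
      2 * WL δ (fun v : HeightOneSpectrum (𝓞 K) => A1 K g v * ph t (nm v)) := by
    rw [WL, WL, ← tsum_mul_left]
    refine tsum_congr fun v => ?_
    rw [hg, A1_mul77]
    ring
  -- the difference over `F`
  have hb : ∀ w : HeightOneSpectrum (𝓞 F), ‖f w * ph t (nm w)‖ ≤ 1 := fun w => by
    rw [norm_mul, norm_ph63, mul_one]
    exact hf w
  have hb1 : ∀ w : HeightOneSpectrum (𝓞 F),
      ‖(cc (E.baseChange F) w : ℂ) * (f w * ph t (nm w))‖ ≤ 2 := fun w => by
    rw [norm_mul, Complex.norm_real, Real.norm_eq_abs]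
    calc _ ≤ 2 * 1 := mul_le_mul (abs_cc_le _ w) (hb w) (norm_nonneg _) zero_le_two
      _ = 2 := mul_one 2
  have hb2 : ∀ w : HeightOneSpectrum (𝓞 F),
      ‖(cc E (dn (K := K) w) : ℂ) * (f w * ph t (nm w))‖ ≤ 2 := fun w => by
    rw [norm_mul, Complex.norm_real, Real.norm_eq_abs]
    calc _ ≤ 2 * 1 := mul_le_mul (abs_cc_le _ _) (hb w) (norm_nonneg _) zero_le_two
      _ = 2 := mul_one 2
  have hs1 := summable_WL63 hδ hb1
  have hs2 := summable_WL63 hδ hb2
  have hd : CRL (fun w => cc (E.baseChange F) w) f δ t - WL δ (fun w : HeightOneSpectrum (𝓞 F) =>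
      (cc E (dn (K := K) w) : ℂ) * (f w * ph t (nm w))) =
      ∑' w : HeightOneSpectrum (𝓞 F), (wl δ w : ℂ) *
        (((cc (E.baseChange F) w - cc E (dn (K := K) w) : ℝ) : ℂ) * (f w * ph t (nm w))) := by
    rw [CRL, WL, WL, ← hs1.tsum_sub hs2]
    refine tsum_congr fun w => ?_
    push_cast
    ring
  set bd : HeightOneSpectrum (𝓞 F) → ℝ := fun w => 24 * (pr w : ℝ) ^ (-(5 / 4) : ℝ) +
    (if w ∈ S₆ ∪ Sr then 4 * Real.log (nm w) else 0) with hbd
  have hs3 : Summable fun w : HeightOneSpectrum (𝓞 F) => 24 * (pr w : ℝ) ^ (-(5 / 4) : ℝ) :=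
    (summable_pr36 (K := F)).mul_left 24
  have hs4 : Summable fun w : HeightOneSpectrum (𝓞 F) =>
      if w ∈ S₆ ∪ Sr then 4 * Real.log (nm w) else 0 := by
    refine summable_of_finite_support ((S₆ ∪ Sr).finite_toSet.subset fun v hv => ?_)
    by_contra h
    exact hv (if_neg h)
  have hterm : ∀ w : HeightOneSpectrum (𝓞 F), ‖(wl δ w : ℂ) *
      (((cc (E.baseChange F) w - cc E (dn (K := K) w) : ℝ) : ℂ) * (f w * ph t (nm w)))‖ ≤
      bd w := by
    intro w
    have hwl := wl_nonneg δ w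
    have hp0 : 0 ≤ (pr w : ℝ) ^ (-(5 / 4) : ℝ) := by positivity
    have hlog := (log_nm_pos w).le
    have hite : 0 ≤ (if w ∈ S₆ ∪ Sr then 4 * Real.log (nm w) else 0) := by
      split_ifs <;> positivity
    have hdiff : |cc (E.baseChange F) w - cc E (dn (K := K) w)| ≤ 4 := by
      have h1 := abs_cc_le (E.baseChange F) w
      have h2 := abs_cc_le E (dn (K := K) w)
      have h3 := abs_sub (cc (E.baseChange F) w) (cc E (dn (K := K) w))
      linarith
    have h2 : ‖(wl δ w : ℂ) *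
        (((cc (E.baseChange F) w - cc E (dn (K := K) w) : ℝ) : ℂ) * (f w * ph t (nm w)))‖ ≤
        wl δ w * |cc (E.baseChange F) w - cc E (dn (K := K) w)| := by
      rw [norm_mul, norm_mul, Complex.norm_real, Complex.norm_real, Real.norm_eq_abs,
        Real.norm_eq_abs, abs_of_nonneg hwl]
      exact mul_le_mul_of_nonneg_left (mul_le_of_le_one_right (abs_nonneg _) (hb w)) hwl
    refine h2.trans ?_
    rw [hbd]
    simp only
    by_cases hne : nm w = nm (dn (K := K) w)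
    · by_cases hS : w ∈ S₆ ∪ Sr
      · rw [if_pos hS]
        have h3 := mul_le_mul (wl_le_log63 hδ w) hdiff (abs_nonneg _) hlog
        linarith
      · rw [if_neg hS]
        rw [Finset.mem_union, not_or, hm6, hmr, not_not] at hS
        have h3 : (6 : 𝓞 K) ∉ (dn (K := K) w).asIdeal := fun h => hS.1 (by
          rw [mem_dn, map_ofNat] at h
          exact h)
        have h4 := LA.cc_baseChange77 E w hne h3 hS.2
        have h5 := mul_le_mul_of_nonneg_left h4 hwl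
        have h6 := wl_div_sqrt77 hδ w
        linarith
    · have h3 := DEG36.wl_le_of_ne (K := K) w hne hδ
      have h4 := mul_le_mul h3 hdiff (abs_nonneg _) (by positivity)
      linarith
  have hF : ‖CRL (fun w => cc (E.baseChange F) w) f δ t -
      WL δ (fun w : HeightOneSpectrum (𝓞 F) =>
        (cc E (dn (K := K) w) : ℂ) * (f w * ph t (nm w)))‖ ≤
      24 * (n * Z36) + 4 * (n * Real.log 6 + Real.log (dK F)) := by
    rw [hd]
    refine (tsum_of_norm_bounded (hs3.add hs4).hasSum hterm).trans ?_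
    rw [hs3.tsum_add hs4, tsum_mul_left]
    have h2 := tsum_pr_le_Z36 F
    rw [hn] at h2
    have h3 : ∑' w : HeightOneSpectrum (𝓞 F),
        (if w ∈ S₆ ∪ Sr then 4 * Real.log (nm w) else 0) =
        ∑ w ∈ S₆ ∪ Sr, 4 * Real.log (nm w) := by
      rw [tsum_eq_sum (s := S₆ ∪ Sr) fun w hw => if_neg hw]
      exact Finset.sum_congr rfl fun w hw => if_pos hw
    have h4 : ∑ w ∈ S₆ ∪ Sr, 4 * Real.log (nm w) ≤
        4 * (n * Real.log 6 + Real.log (dK F)) := by
      rw [← Finset.mul_sum]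
      refine mul_le_mul_of_nonneg_left ?_ (by norm_num)
      have h5 : ∑ w ∈ S₆ ∪ Sr, Real.log (nm w) ≤
          ∑ w ∈ S₆, Real.log (nm w) + ∑ w ∈ Sr, Real.log (nm w) := by
        have := Finset.sum_union_inter (s₁ := S₆) (s₂ := Sr)
          (f := fun w : HeightOneSpectrum (𝓞 F) => Real.log (nm w))
        have h6 : 0 ≤ ∑ w ∈ S₆ ∩ Sr, Real.log (nm w) :=
          Finset.sum_nonneg fun w _ => (log_nm_pos w).le
        linarith
      have h7 := sum_six77 S₆ fun w hw => (hm6 w).mp hw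
      rw [hn] at h7
      have h8 := sum_ram77 (K := K) Sr fun w hw => (hmr w).mp hw
      linarith
    rw [h3]
    linarith
  -- the end
  have hdK := one_le_dK77 F
  have hL1 : 1 ≤ Real.log (20 * dK F) := by
    rw [Real.le_log_iff_exp_le (by positivity)]
    have := Real.exp_one_lt_d9
    linarith
  have hL2 : Real.log (dK F) ≤ Real.log (20 * dK F) :=
    Real.log_le_log (by linarith) (by linarith)
  set L := Real.log (20 * dK F) with hL
  have h9 : ‖WL δ (fun w : HeightOneSpectrum (𝓞 F) =>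
      (cc E (dn (K := K) w) : ℂ) * (f w * ph t (nm w))) -
      WL δ (fun v : HeightOneSpectrum (𝓞 K) => (cc E v : ℂ) * (A1 K f v * ph t (nm v)))‖ ≤
      2 * A₁ := by
    rw [eX, eY, ← mul_sub, norm_mul, Complex.norm_two]
    linarith
  have h10 := norm_sub_le_norm_sub_add_norm_sub
    (CRL (fun w => cc (E.baseChange F) w) f δ t)
    (WL δ (fun w : HeightOneSpectrum (𝓞 F) =>
      (cc E (dn (K := K) w) : ℂ) * (f w * ph t (nm w))))
    (WL δ (fun v : HeightOneSpectrum (𝓞 K) => (cc E v : ℂ) * (A1 K f v * ph t (nm v))))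
  have h11 : 0 ≤ 2 * A₁ + 24 * (n * Z36) + 4 * (n * Real.log 6) := by positivity
  have h12 : 2 * A₁ + 24 * (n * Z36) + 4 * (n * Real.log 6) ≤
      (2 * A₁ + 24 * (n * Z36) + 4 * (n * Real.log 6)) * L := le_mul_of_one_le_right h11 hL1
  linarith

end Pool.Agent.Lib.MP_bf61d2_nt.Artin.Ray
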