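import Mathlib
import Pool.Agent.Lib.MP_bf61d2_nt.Trim.Artin.Defs63
import Pool.Agent.Lib.MP_bf61d2_nt.Trim.Artin.H.BASH36
import Pool.Agent.Lib.MP_bf61d2_nt.Trim.Artin.H.DefsH
import Pool.Agent.Lib.MP_bf61d2_nt.Trim.Artin.L.StmtsL63
import Pool.Agent.Lib.MP_bf61d2_nt.Trim.Artin.MO.StmtsM63
import Pool.Agent.Lib.MP_bf61d2_nt.Trim.Artin.R.DefsR
import Pool.Agent.Lib.MP_bf61d2_nt.Trim.Artin.T.BES84
import Pool.Agent.Lib.MP_bf61d2_nt.Trim.Artin.T.DefsT84
import Pool.Agent.Lib.MP_bf61d2_nt.Trim.Artin.T.PAGE84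
import Pool.Agent.Lib.MP_bf61d2_nt.Trim.Artin.U.U2x14
import Pool.Agent.Lib.MP_bf61d2_nt.Trim.Artin.UK.StmtsU84
import Pool.Agent.Lib.MP_bf61d2_nt.Trim.Perm.Regroup
import Pool.Agent.Lib.MP_bf61d2_nt.Trim.Places
import Pool.Agent.Lib.MP_bf61d2_nt.Trim.Quad

set_option autoImplicit false

/-!
MONO (MP_bf61d2_nt), module BESM: the one sided inequality of Bessel for the characters of all the
extensions of bounded degree.
-/

namespace NumberField
end NumberField

namespace Pool.Agent.Lib.MP_bf61d2_nt.Zeta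
end Pool.Agent.Lib.MP_bf61d2_nt.Zeta

namespace Pool.Agent.Lib.MP_bf61d2_nt.Perm
end Pool.Agent.Lib.MP_bf61d2_nt.Perm

namespace Pool.Agent.Lib.MP_bf61d2_nt.Artin.Ray

open NumberField IsDedekindDomain Module

open Pool.Agent.Lib.MP_bf61d2_nt.Zeta Pool.Agent.Lib.MP_bf61d2_nt.Perm

open scoped Classical ComplexConjugate

universe u

/-- Cauchy and Schwarz for weighted sums, one sided expansion, with vectors bounded by `B`. -/
theorem one_sidedB73 {ι τ : Type*} [Fintype τ] (w c : ι → ℝ) (F : τ → ι → ℂ)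
    (g : τ → ℝ) {B : ℝ} (hB : 0 ≤ B)
    (hw : Summable w) (hw0 : ∀ v, 0 ≤ w v) (hc : ∀ v, |c v| ≤ 2) (hF : ∀ i v, ‖F i v‖ ≤ B)
    (hg : ∀ i, 0 ≤ g i) {D G : ℝ} (_hG : 0 ≤ G)
    (hdiag : ∀ i, (∑' v, (w v : ℂ) * (F i v * conj (F i v))).re ≤ D + G)
    (hoff : ∀ i j, i ≠ j → (∑' v, (w v : ℂ) * (F i v * conj (F j v))).re ≤ G) :
    ‖∑ i, (g i : ℂ) * ∑' v, (w v : ℂ) * ((c v : ℂ) * F i v)‖ ^ 2 ≤
      (∑' v, w v * c v ^ 2) * (D * ∑ i, g i ^ 2 + G * (∑ i, g i) ^ 2) := by
  set S : ℝ := ∑ i, g i with hS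
  have hS0 : 0 ≤ S := Finset.sum_nonneg fun i _ => hg i
  set H : ι → ℂ := fun v => ∑ i, (g i : ℂ) * F i v with hH
  have hHS : ∀ v, ‖H v‖ ≤ S * B := by
    intro v
    rw [hS, Finset.sum_mul]
    refine (norm_sum_le _ _).trans (Finset.sum_le_sum fun i _ => ?_)
    rw [norm_mul, Complex.norm_real, Real.norm_eq_abs, abs_of_nonneg (hg i)]
    exact mul_le_mul_of_nonneg_left (hF i v) (hg i)
  have hSB : 0 ≤ S * B := mul_nonneg hS0 hB
  have s1 : Summable fun v => w v * c v ^ 2 := by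
    refine Summable.of_nonneg_of_le (fun v => mul_nonneg (hw0 v) (sq_nonneg _)) (fun v => ?_)
      (hw.mul_right 4)
    refine mul_le_mul_of_nonneg_left ?_ (hw0 v)
    rw [← sq_abs]
    calc |c v| ^ 2 ≤ 2 ^ 2 := pow_le_pow_left₀ (abs_nonneg _) (hc v) 2
      _ = 4 := by norm_num
  have s2 : Summable fun v => w v * ‖H v‖ ^ 2 := by
    refine Summable.of_nonneg_of_le (fun v => mul_nonneg (hw0 v) (sq_nonneg _)) (fun v => ?_)
      (hw.mul_right ((S * B) ^ 2))
    exact mul_le_mul_of_nonneg_left (pow_le_pow_left₀ (norm_nonneg _) (hHS v) 2) (hw0 v)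
  have s3 : Summable fun v => w v * (|c v| * ‖H v‖) := by
    refine Summable.of_nonneg_of_le (fun v => mul_nonneg (hw0 v) (by positivity)) (fun v => ?_)
      (hw.mul_right (2 * (S * B)))
    exact mul_le_mul_of_nonneg_left (mul_le_mul (hc v) (hHS v) (norm_nonneg _) (by norm_num))
      (hw0 v)
  -- Cauchy and Schwarz
  have hCS : (∑' v, w v * (|c v| * ‖H v‖)) ^ 2 ≤
      (∑' v, w v * c v ^ 2) * ∑' v, w v * ‖H v‖ ^ 2 := by
    have h0 : ∀ s : ℝ, 0 ≤ (∑' v, w v * c v ^ 2) * (s * s) +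
        (-2 * ∑' v, w v * (|c v| * ‖H v‖)) * s + ∑' v, w v * ‖H v‖ ^ 2 := by
      intro s
      have h1 : 0 ≤ ∑' v, w v * (s * |c v| - ‖H v‖) ^ 2 :=
        tsum_nonneg fun v => mul_nonneg (hw0 v) (sq_nonneg _)
      have e : (fun v => w v * (s * |c v| - ‖H v‖) ^ 2) = fun v =>
          (s * s * (w v * c v ^ 2) + -2 * s * (w v * (|c v| * ‖H v‖))) + w v * ‖H v‖ ^ 2 := by
        funext v
        have : c v ^ 2 = |c v| ^ 2 := (sq_abs _).symm
        rw [this]
        ring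
      rw [e, ((s1.mul_left _).add (s3.mul_left _)).tsum_add s2,
        (s1.mul_left _).tsum_add (s3.mul_left _), tsum_mul_left, tsum_mul_left] at h1
      linarith
    have h2 := discrim_le_zero h0
    rw [discrim] at h2
    linarith
  -- the sum over the members
  have hsum : ∀ i, Summable fun v => (w v : ℂ) * ((c v : ℂ) * F i v) := by
    intro i
    refine Summable.of_norm_bounded (hw.mul_right (2 * B)) fun v => ?_
    rw [norm_mul, Complex.norm_real, Real.norm_eq_abs, abs_of_nonneg (hw0 v), norm_mul,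
      Complex.norm_real]
    refine mul_le_mul_of_nonneg_left ?_ (hw0 v)
    exact mul_le_mul (hc v) (hF i v) (norm_nonneg _) (by norm_num)
  have hX : ‖∑ i, (g i : ℂ) * ∑' v, (w v : ℂ) * ((c v : ℂ) * F i v)‖ ≤
      ∑' v, w v * (|c v| * ‖H v‖) := by
    have e : ∑ i, (g i : ℂ) * ∑' v, (w v : ℂ) * ((c v : ℂ) * F i v) =
        ∑' v, (w v : ℂ) * ((c v : ℂ) * H v) := by
      simp only [← tsum_mul_left]
      rw [← Summable.tsum_finsetSum fun i _ => (hsum i).mul_left _]
      refine tsum_congr fun v => ?_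
      rw [hH]
      simp only [Finset.mul_sum]
      exact Finset.sum_congr rfl fun i _ => by ring
    rw [e]
    refine tsum_of_norm_bounded s3.hasSum fun v => ?_
    rw [norm_mul, norm_mul, Complex.norm_real, Complex.norm_real, Real.norm_eq_abs,
      Real.norm_eq_abs, abs_of_nonneg (hw0 v)]
  have hsum2 : ∀ i j, Summable fun v => (w v : ℂ) * (F i v * conj (F j v)) := by
    intro i j
    refine Summable.of_norm_bounded (hw.mul_right (B * B)) fun v => ?_
    rw [norm_mul, Complex.norm_real, Real.norm_eq_abs, abs_of_nonneg (hw0 v), norm_mul,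
      RCLike.norm_conj]
    exact mul_le_mul_of_nonneg_left (mul_le_mul (hF i v) (hF j v) (norm_nonneg _) hB) (hw0 v)
  have hW : ∑' v, w v * ‖H v‖ ^ 2 =
      ∑ i, ∑ j, g i * g j * (∑' v, (w v : ℂ) * (F i v * conj (F j v))).re := by
    have h1 : ∀ v, ((w v * ‖H v‖ ^ 2 : ℝ) : ℂ) =
        ∑ i, ∑ j, ((g i * g j : ℝ) : ℂ) * ((w v : ℂ) * (F i v * conj (F j v))) := by
      intro v
      have h2 : ((‖H v‖ ^ 2 : ℝ) : ℂ) = H v * conj (H v) := by
        rw [Complex.mul_conj, Complex.normSq_eq_norm_sq]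
      rw [Complex.ofReal_mul, h2, hH]
      simp only [map_sum, map_mul, Complex.conj_ofReal]
      rw [Finset.sum_mul_sum, Finset.mul_sum]
      refine Finset.sum_congr rfl fun i _ => ?_
      rw [Finset.mul_sum]
      refine Finset.sum_congr rfl fun j _ => ?_
      push_cast
      ring
    have h3 : ((∑' v, w v * ‖H v‖ ^ 2 : ℝ) : ℂ) =
        ∑ i, ∑ j, ((g i * g j : ℝ) : ℂ) * ∑' v, (w v : ℂ) * (F i v * conj (F j v)) := by
      rw [Complex.ofReal_tsum]
      simp only [h1]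
      rw [Summable.tsum_finsetSum fun i _ => summable_sum fun j _ => (hsum2 i j).mul_left _]
      refine Finset.sum_congr rfl fun i _ => ?_
      rw [Summable.tsum_finsetSum fun j _ => (hsum2 i j).mul_left _]
      exact Finset.sum_congr rfl fun j _ => tsum_mul_left
    have h4 := congrArg Complex.re h3
    rw [Complex.ofReal_re] at h4
    rw [h4]
    simp only [Complex.re_sum, Complex.re_ofReal_mul]
  have hWle : ∑' v, w v * ‖H v‖ ^ 2 ≤ D * ∑ i, g i ^ 2 + G * S ^ 2 := by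
    rw [hW]
    have h1 : ∀ i j, g i * g j * (∑' v, (w v : ℂ) * (F i v * conj (F j v))).re ≤
        (if i = j then D * g i ^ 2 else 0) + G * (g i * g j) := by
      intro i j
      have hgg := mul_nonneg (hg i) (hg j)
      split_ifs with h
      · subst h
        have := mul_le_mul_of_nonneg_left (hdiag i) hgg
        nlinarith
      · have := mul_le_mul_of_nonneg_left (hoff i j h) hgg
        linarith
    refine (Finset.sum_le_sum fun i _ => Finset.sum_le_sum fun j _ => h1 i j).trans (le_of_eq ?_)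
    simp only [Finset.sum_add_distrib, Finset.sum_ite_eq, Finset.mem_univ, if_true]
    rw [Finset.mul_sum]
    congr 1
    rw [hS, sq, Finset.sum_mul_sum]
    simp only [Finset.mul_sum]
  have hX0 : 0 ≤ ‖∑ i, (g i : ℂ) * ∑' v, (w v : ℂ) * ((c v : ℂ) * F i v)‖ := norm_nonneg _
  calc _ ≤ (∑' v, w v * (|c v| * ‖H v‖)) ^ 2 := pow_le_pow_left₀ hX0 hX 2
    _ ≤ _ := hCS
    _ ≤ _ := mul_le_mul_of_nonneg_left hWle
        (tsum_nonneg fun v => mul_nonneg (hw0 v) (sq_nonneg _))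

section A1

variable {K : Type u} [Field K] [NumberField K] {F : Type u} [Field F] [NumberField F]
  [Algebra K F]

/-- The sum over the places of degree one as a finite sum. -/
lemma A1_eq73 (f : HeightOneSpectrum (𝓞 F) → ℂ) (v : HeightOneSpectrum (𝓞 K))
    (T : Finset (HeightOneSpectrum (𝓞 F))) (hT : ∀ w, w ∈ T ↔ dn (K := K) w = v) :
    A1 K f v = ∑ w ∈ T.filter (fun w => nm w = nm v), f w := by
  have h1 : A1 K f v = ∑ᶠ w ∈ {w : HeightOneSpectrum (𝓞 F) | dn (K := K) w = v ∧ nm w = nm v},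
      f w := finsum_set_coe_eq_finsum_mem _
  have h2 : {w : HeightOneSpectrum (𝓞 F) | dn (K := K) w = v ∧ nm w = nm v} =
      ((T.filter (fun w => nm w = nm v) : Finset (HeightOneSpectrum (𝓞 F))) :
        Set (HeightOneSpectrum (𝓞 F))) := by
    ext w
    simp [hT]
  rw [h1, h2, finsum_mem_coe_finset]

/-- The sum over the places of degree one is bounded by the degree. -/
lemma norm_A1_le73 {f : HeightOneSpectrum (𝓞 F) → ℂ} (hf : ∀ w, ‖f w‖ ≤ 1)
    (v : HeightOneSpectrum (𝓞 K)) : ‖A1 K f v‖ ≤ finrank (𝓞 K) (𝓞 F) := by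
  obtain ⟨T, hT, hcard⟩ := exists_fiber' F v
  rw [A1_eq73 f v T hT]
  refine (norm_sum_le _ _).trans ((Finset.sum_le_sum fun w _ => hf w).trans ?_)
  rw [Finset.sum_const, nsmul_eq_mul, mul_one]
  exact_mod_cast (Finset.card_filter_le _ _).trans hcard

end A1

/-- BESM: the one sided inequality of Bessel for the characters of the extensions of bounded
degree. -/
theorem stBESM_of (n m : ℕ) (hGR : StGRM.{u} (n * m)) : StBESM.{u} n m := by
  obtain ⟨A, hA, hgr⟩ := hGR
  refine ⟨((n * m : ℕ) : ℝ) ^ 2 + A, by positivity,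
    fun K _ _ hn Q hQ _ c hc δ hδ hδ2 N X hX hsep g hg => ?_⟩
  have hδ1 : δ ≤ 1 := by linarith
  have hlQ : 1 ≤ Real.log Q := by linarith [(Q_facts hQ).1]
  have hQ0 : 0 < Q := by linarith
  have hrk : ∀ i, finrank ℚ (X i).F ≤ n * m := by
    intro i
    have h1 : FiniteDimensional K (X i).F := Module.Finite.of_restrictScalars_finite ℚ K (X i).F
    rw [← Module.finrank_mul_finrank ℚ K (X i).F, hn]
    exact Nat.mul_le_mul_left n (hX i).1
  have hu : ∀ i j, |(X i).t - (X j).t| ≤ 2 * Q := by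
    intro i j
    have := abs_sub (X i).t (X j).t
    linarith [(hX i).2.2.2.2.1, (hX j).2.2.2.2.1]
  have hψ : ∀ i (w : HeightOneSpectrum (𝓞 (X i).F)), ‖(X i).ψ w.asIdeal‖ ≤ 1 := fun i w =>
    isHk_norm_le (hX i).2.2.1 _
  set B : ℝ := ∑ i, (finrank (𝓞 K) (𝓞 (X i).F) : ℝ) with hBdef
  have hB0 : 0 ≤ B := Finset.sum_nonneg fun i _ => Nat.cast_nonneg _
  have hgram : ∀ i j, ∑' v : HeightOneSpectrum (𝓞 K), (wl δ v : ℂ) *
      ((A1 K (fun w => (X i).ψ w.asIdeal) v * ph (X i).t (nm v)) *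
        conj (A1 K (fun w => (X j).ψ w.asIdeal) v * ph (X j).t (nm v))) =
      WL δ (fun v : HeightOneSpectrum (𝓞 K) => A1 K (fun w => (X i).ψ w.asIdeal) v *
        (starRingEnd ℂ) (A1 K (fun w => (X j).ψ w.asIdeal) v) *
          ph ((X i).t - (X j).t) (nm v)) := by
    intro i j
    rw [WL]
    refine tsum_congr fun v => ?_
    rw [map_mul, ph_conj, sub_eq_add_neg, ← ph_add']
    ring
  set G : ℝ := (((n * m : ℕ) : ℝ) ^ 2 + A) * Real.log Q with hG
  have hG0 : 0 ≤ G := by positivity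
  have hG1 : A * Real.log Q ≤ G := by
    rw [hG]
    have : 0 ≤ ((n * m : ℕ) : ℝ) ^ 2 * Real.log Q := by positivity
    linarith
  have h := one_sidedB73 (fun v : HeightOneSpectrum (𝓞 K) => wl δ v) c
    (fun i v => A1 K (fun w => (X i).ψ w.asIdeal) v * ph (X i).t (nm v)) g hB0
    (summable_wl hδ) (fun v => wl_nonneg δ v) hc
    (fun i v => by
      rw [norm_mul, U214.norm_ph, mul_one]
      refine (norm_A1_le73 (hψ i) v).trans ?_
      exact Finset.single_le_sum (f := fun i => (finrank (𝓞 K) (𝓞 (X i).F) : ℝ))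
        (fun i _ => Nat.cast_nonneg _) (Finset.mem_univ i)) hg (D := 1 / δ) hG0
    (fun i => by
      rw [hgram]
      obtain ⟨hm1, hd1, hk1, hZ1, ht1, hC1⟩ := hX i
      obtain ⟨-, h2, -⟩ := hgr K (X i).F (X i).F (hrk i) (hrk i) Q hQ hd1 hd1 (X i).m (X i).Z
        (X i).ψ (X i).m (X i).Z (X i).ψ hk1 hk1 hZ1 hZ1 δ ((X i).t - (X i).t) hδ hδ1 (hu i i)
      have h3 := h2 AlgEquiv.refl (fun C hC => by
        rw [hC1 C hC]
        rfl)
      have e2 : δ / (δ ^ 2 + ((X i).t - (X i).t) ^ 2) = 1 / δ := by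
        rw [sub_self]
        field_simp
        ring
      rw [e2] at h3
      linarith)
    (fun i j hij => by
      rw [hgram]
      obtain ⟨hm1, hd1, hk1, hZ1, ht1, hC1⟩ := hX i
      obtain ⟨hm2, hd2, hk2, hZ2, ht2, hC2⟩ := hX j
      obtain ⟨h1, -, h3⟩ := hgr K (X i).F (X j).F (hrk i) (hrk j) Q hQ hd1 hd2 (X i).m (X i).Z
        (X i).ψ (X j).m (X j).Z (X j).ψ hk1 hk2 hZ1 hZ2 δ ((X i).t - (X j).t) hδ hδ1 (hu i j)
      by_cases hR : (X i).Rel (X j)
      · have h5 := hsep i j hij hR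
        have h6 : 0 < |(X i).t - (X j).t| := lt_of_lt_of_le (by positivity) h5
        have h7 : δ / (δ ^ 2 + ((X i).t - (X j).t) ^ 2) ≤ Real.log Q := by
          rw [← sq_abs ((X i).t - (X j).t)]
          have h8 : δ / (δ ^ 2 + |(X i).t - (X j).t| ^ 2) ≤ 1 / |(X i).t - (X j).t| := by
            rw [div_le_div_iff₀ (by positivity) h6]
            nlinarith [sq_nonneg (δ - |(X i).t - (X j).t|)]
          have h9 : 1 / |(X i).t - (X j).t| ≤ Real.log Q := by
            rw [div_le_iff₀ h6]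
            rw [div_le_iff₀ (by linarith)] at h5
            linarith
          linarith
        have h8 : ((n * m : ℕ) : ℝ) ^ 2 * (δ / (δ ^ 2 + ((X i).t - (X j).t) ^ 2)) ≤
            ((n * m : ℕ) : ℝ) ^ 2 * Real.log Q := mul_le_mul_of_nonneg_left h7 (by positivity)
        rw [hG]
        linarith
      · exact (h1 hR).trans hG1)
  exact h

end Pool.Agent.Lib.MP_bf61d2_nt.Artin.Ray
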