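import Mathlib
import Pool.Agent.Lib.MP_bf61d2_nt.Trim.Artin.Defs63
import Pool.Agent.Lib.MP_bf61d2_nt.Trim.Artin.H.DefsH
import Pool.Agent.Lib.MP_bf61d2_nt.Trim.Artin.L.StmtsL63
import Pool.Agent.Lib.MP_bf61d2_nt.Trim.Artin.L.T1M73
import Pool.Agent.Lib.MP_bf61d2_nt.Trim.Artin.MO.StmtsM63
import Pool.Agent.Lib.MP_bf61d2_nt.Trim.Artin.R.DefsR
import Pool.Agent.Lib.MP_bf61d2_nt.Trim.Artin.UK.StmtsU84
import Pool.Agent.Lib.MP_bf61d2_nt.Trim.Joint.Main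
import Pool.Agent.Lib.MP_bf61d2_nt.Trim.Perm.Frob
import Pool.Agent.Lib.MP_bf61d2_nt.Trim.Places

set_option autoImplicit false

/-!
MONO (MP_bf61d2_nt): the statements of the form with the dimensions of the spaces of intertwining
operators in the main term, without conditions on the members of the family.
-/

namespace NumberField
end NumberField

namespace Pool.Agent.Lib.MP_bf61d2_nt.Zeta
end Pool.Agent.Lib.MP_bf61d2_nt.Zeta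

namespace Pool.Agent.Lib.MP_bf61d2_nt.Perm
end Pool.Agent.Lib.MP_bf61d2_nt.Perm

namespace Pool.Agent.Lib.MP_bf61d2_nt.Artin.Ray

open NumberField IsDedekindDomain Module

open Pool.Agent.Lib.MP_bf61d2_nt.Zeta Pool.Agent.Lib.MP_bf61d2_nt.Perm

open scoped Classical

universe u

section Defs

variable {K F₁ F₂ : Type u} [Field K] [Field F₁] [Field F₂] [Algebra K F₁] [Algebra K F₂]

/-- Two composita are isomorphic. -/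
def CIso (C C' : Cmp K F₁ F₂) : Prop :=
  ∃ e : C.L ≃ₐ[K] C'.L, (e : C.L →ₐ[K] C'.L).comp C.α = C'.α ∧
    (e : C.L →ₐ[K] C'.L).comp C.β = C'.β

/-- At most `μ` composita have the property `P`, up to isomorphism. -/
def HomLE (P : Cmp K F₁ F₂ → Prop) (μ : ℕ) : Prop :=
  ∀ C : Fin (μ + 1) → Cmp K F₁ F₂, (∀ i, P (C i)) → ∃ i j, i ≠ j ∧ CIso (C i) (C j)

end Defs

/-- CPLG: the products of sums over places of degree one, and the composita, up to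
isomorphism. -/
def StCPLG (n : ℕ) : Prop := ∃ A : ℝ, 0 ≤ A ∧
  ∀ (K F₁ F₂ : Type u) [Field K] [NumberField K] [Field F₁] [NumberField F₁]
  [Field F₂] [NumberField F₂] [Algebra K F₁] [Algebra K F₂], finrank ℚ F₁ ≤ n → finrank ℚ F₂ ≤ n →
  ∃ (J : ℕ) (C : Fin J → Cmp K F₁ F₂) (S : Finset (HeightOneSpectrum (𝓞 K))),
    J ≤ n ^ 2 ∧ (∀ j, finrank ℚ (C j).L ≤ n ^ 2) ∧ (∀ i j, CIso (C i) (C j) → i = j) ∧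
    ∑ v ∈ S, Real.log (nm v) ≤ A * Real.log (20 * (dK F₁ * dK F₂)) ∧
    ∀ v, v ∉ S → ∀ (f₁ : HeightOneSpectrum (𝓞 F₁) → ℂ) (f₂ : HeightOneSpectrum (𝓞 F₂) → ℂ),
      A1 K f₁ v * A1 K f₂ v = ∑ j, A1 K (fun w => f₁ (pl (C j).α w) * f₂ (pl (C j).β w)) v

/-- GRMG: the one sided bound of the entries of the matrix of Gram. -/
def StGRMG (n : ℕ) : Prop := ∃ A : ℝ, 0 ≤ A ∧
  ∀ (K F₁ F₂ : Type u) [Field K] [NumberField K] [Field F₁] [NumberField F₁]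
  [Field F₂] [NumberField F₂] [Algebra K F₁] [Algebra K F₂], finrank ℚ F₁ ≤ n → finrank ℚ F₂ ≤ n →
  ∀ Q : ℝ, 20 ≤ Q → dK F₁ ≤ Q → dK F₂ ≤ Q →
  ∀ (𝔪₁ : Ideal (𝓞 F₁)) (Z₁ : ℕ) (ψ₁ : Ideal (𝓞 F₁) →*₀ ℂ) (𝔪₂ : Ideal (𝓞 F₂)) (Z₂ : ℕ)
  (ψ₂ : Ideal (𝓞 F₂) →*₀ ℂ), IsHk 𝔪₁ Z₁ ψ₁ → IsHk 𝔪₂ Z₂ ψ₂ → (Z₁ : ℝ) ≤ Q → (Z₂ : ℝ) ≤ Q →
  ∀ μ : ℕ, HomLE (fun C : Cmp K F₁ F₂ => TR (cmd C 𝔪₁ 𝔪₂) (cpx C ψ₁ ψ₂)) μ →
  ∀ x u : ℝ, 0 < x → x ≤ 1 → |u| ≤ 2 * Q →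
    (WL x (fun v : HeightOneSpectrum (𝓞 K) => A1 K (fun w => ψ₁ w.asIdeal) v *
      (starRingEnd ℂ) (A1 K (fun w => ψ₂ w.asIdeal) v) * ph u (nm v))).re ≤
      μ * (x / (x ^ 2 + u ^ 2)) + A * Real.log Q

/-- BESMG: the one sided inequality of Bessel. -/
def StBESMG (n m : ℕ) : Prop := ∃ C : ℝ, 0 ≤ C ∧
  ∀ (K : Type u) [Field K] [NumberField K], finrank ℚ K = n → ∀ Q : ℝ, 20 ≤ Q → dK K ≤ Q →
  ∀ (c : HeightOneSpectrum (𝓞 K) → ℝ), (∀ v, |c v| ≤ 2) → ∀ δ : ℝ, 0 < δ → δ ≤ 1 / 2 →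
  ∀ (N : ℕ) (X : Fin N → Mem K),
    (∀ i, finrank K (X i).F ≤ m ∧ dK (X i).F ≤ Q ∧ IsHk (X i).m (X i).Z (X i).ψ ∧
      ((X i).Z : ℝ) ≤ Q ∧ |(X i).t| ≤ Q) →
    ∀ μ : Fin N → Fin N → ℕ, (∀ i j, HomLE (fun C : Cmp K (X i).F (X j).F =>
      TR (cmd C (X i).m (X j).m) (cpx C (X i).ψ (X j).ψ)) (μ i j)) →
    ∀ g : Fin N → ℝ, (∀ i, 0 ≤ g i) →
    ‖∑ i, (g i : ℂ) * WL δ (fun v : HeightOneSpectrum (𝓞 K) => (c v : ℂ) *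
        (A1 K (fun w => (X i).ψ w.asIdeal) v * ph (X i).t (nm v)))‖ ^ 2 ≤
      (∑' v : HeightOneSpectrum (𝓞 K), wl δ v * c v ^ 2) *
        (∑ i, ∑ j, g i * g j * (μ i j * (δ / (δ ^ 2 + ((X i).t - (X j).t) ^ 2))) +
          C * Real.log Q * (∑ i, g i) ^ 2)

/-- MAINMG: the main theorem. -/
def StMAINMG (n m : ℕ) : Prop := ∃ C : ℝ, 0 ≤ C ∧
  ∀ (K : Type u) [Field K] [NumberField K], finrank ℚ K = n →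
  ∀ Q : ℝ, 20 ≤ Q → dK K ≤ Q →
  ∀ (E : WeierstrassCurve K) [E.IsElliptic] (δ : ℝ), 0 < δ → δ ≤ 1 / 2 →
  ∀ (N : ℕ) (F : Fin N → Type u) [∀ i, Field (F i)] [∀ i, NumberField (F i)]
    [∀ i, Algebra K (F i)] (d : Fin N → ℕ) (𝔪 : ∀ i, Ideal (𝓞 (F i))) (a : ∀ i, TA (F i))
    (b : ∀ i, TB (F i)) (ψ : ∀ i, Ideal (𝓞 (F i)) →*₀ ℂ) (t : Fin N → ℝ),
    (∀ i, OkM K m Q (F i) (d i) (𝔪 i) (a i) (b i) (ψ i) (t i)) →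
    ∀ μ : Fin N → Fin N → ℕ, (∀ i j, HomLE (fun C : Cmp K (F i) (F j) =>
      Agr C (d i) (d j) (𝔪 i) (𝔪 j) (ψ i) (ψ j)) (μ i j)) →
    ∀ g : Fin N → ℝ, (∀ i, 0 ≤ g i) →
    ‖∑ i, (g i : ℂ) * logDeriv (LE (qt (E.baseChange (F i)) (d i : F i))
        (fun w => ψ i w.asIdeal)) ((3 / 2 + δ : ℝ) + t i * Complex.I)‖ ^ 2 ≤
      T1 E δ / δ * ∑ i, ∑ j, g i * g j * (μ i j * (δ ^ 2 / (δ ^ 2 + (t i - t j) ^ 2))) +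
        C * Real.log Q / δ * (∑ i, g i) ^ 2

end Pool.Agent.Lib.MP_bf61d2_nt.Artin.Ray
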