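import Mathlib
import Pool.Agent.Lib.MP_bf61d2_nt.Trim.Artin.Defs63
import Pool.Agent.Lib.MP_bf61d2_nt.Trim.Artin.H.BASH36
import Pool.Agent.Lib.MP_bf61d2_nt.Trim.Artin.H.DefsH
import Pool.Agent.Lib.MP_bf61d2_nt.Trim.Artin.L.StmtsL63
import Pool.Agent.Lib.MP_bf61d2_nt.Trim.Artin.MO.BESM73
import Pool.Agent.Lib.MP_bf61d2_nt.Trim.Artin.MO.StmtsG63
import Pool.Agent.Lib.MP_bf61d2_nt.Trim.Artin.MO.StmtsM63
import Pool.Agent.Lib.MP_bf61d2_nt.Trim.Artin.R.DefsR
import Pool.Agent.Lib.MP_bf61d2_nt.Trim.Artin.T.BES84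
import Pool.Agent.Lib.MP_bf61d2_nt.Trim.Artin.T.DefsT84
import Pool.Agent.Lib.MP_bf61d2_nt.Trim.Artin.T.PAGE84
import Pool.Agent.Lib.MP_bf61d2_nt.Trim.Artin.U.U2x14
import Pool.Agent.Lib.MP_bf61d2_nt.Trim.Artin.UK.StmtsU84
import Pool.Agent.Lib.MP_bf61d2_nt.Trim.Places

set_option autoImplicit false

/-!
MONO (MP_bf61d2_nt), module BESMG: the one sided inequality of Bessel with the matrix of Gram.
-/

namespace NumberField
end NumberField

namespace Pool.Agent.Lib.MP_bf61d2_nt.Zeta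
end Pool.Agent.Lib.MP_bf61d2_nt.Zeta

namespace Pool.Agent.Lib.MP_bf61d2_nt.Perm
end Pool.Agent.Lib.MP_bf61d2_nt.Perm

namespace Pool.Agent.Lib.MP_bf61d2_nt.Artin.Ray

open NumberField IsDedekindDomain Module

open Pool.Agent.Lib.MP_bf61d2_nt.Zeta Pool.Agent.Lib.MP_bf61d2_nt.Perm

open scoped Classical ComplexConjugate

universe u

/-- Cauchy and Schwarz for weighted sums, one sided expansion, with a matrix of Gram. -/
theorem one_sidedG63 {ι τ : Type*} [Fintype τ] (w c : ι → ℝ) (F : τ → ι → ℂ)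
    (g : τ → ℝ) {B : ℝ} (hB : 0 ≤ B)
    (hw : Summable w) (hw0 : ∀ v, 0 ≤ w v) (hc : ∀ v, |c v| ≤ 2) (hF : ∀ i v, ‖F i v‖ ≤ B)
    (hg : ∀ i, 0 ≤ g i) {M : τ → τ → ℝ}
    (hM : ∀ i j, (∑' v, (w v : ℂ) * (F i v * conj (F j v))).re ≤ M i j) :
    ‖∑ i, (g i : ℂ) * ∑' v, (w v : ℂ) * ((c v : ℂ) * F i v)‖ ^ 2 ≤
      (∑' v, w v * c v ^ 2) * ∑ i, ∑ j, g i * g j * M i j := by
  set S : ℝ := ∑ i, g i with hS
  have hS0 : 0 ≤ S := Finset.sum_nonneg fun i _ => hg i
  set H : ι → ℂ := fun v => ∑ i, (g i : ℂ) * F i v with hH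
  have hHS : ∀ v, ‖H v‖ ≤ S * B := by
    intro v
    rw [hS, Finset.sum_mul]
    refine (norm_sum_le _ _).trans (Finset.sum_le_sum fun i _ => ?_)
    rw [norm_mul, Complex.norm_real, Real.norm_eq_abs, abs_of_nonneg (hg i)]
    exact mul_le_mul_of_nonneg_left (hF i v) (hg i)
  have hSB : 0 ≤ S * B := mul_nonneg hS0 hB
  have s1 : Summable fun v => w v * c v ^ 2 := by
    refine Summable.of_nonneg_of_le (fun v => mul_nonneg (hw0 v) (sq_nonneg _)) (fun v => ?_)
      (hw.mul_right 4)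
    refine mul_le_mul_of_nonneg_left ?_ (hw0 v)
    rw [← sq_abs]
    calc |c v| ^ 2 ≤ 2 ^ 2 := pow_le_pow_left₀ (abs_nonneg _) (hc v) 2
      _ = 4 := by norm_num
  have s2 : Summable fun v => w v * ‖H v‖ ^ 2 := by
    refine Summable.of_nonneg_of_le (fun v => mul_nonneg (hw0 v) (sq_nonneg _)) (fun v => ?_)
      (hw.mul_right ((S * B) ^ 2))
    exact mul_le_mul_of_nonneg_left (pow_le_pow_left₀ (norm_nonneg _) (hHS v) 2) (hw0 v)
  have s3 : Summable fun v => w v * (|c v| * ‖H v‖) := by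
    refine Summable.of_nonneg_of_le (fun v => mul_nonneg (hw0 v) (by positivity)) (fun v => ?_)
      (hw.mul_right (2 * (S * B)))
    exact mul_le_mul_of_nonneg_left (mul_le_mul (hc v) (hHS v) (norm_nonneg _) (by norm_num))
      (hw0 v)
  -- Cauchy and Schwarz
  have hCS : (∑' v, w v * (|c v| * ‖H v‖)) ^ 2 ≤
      (∑' v, w v * c v ^ 2) * ∑' v, w v * ‖H v‖ ^ 2 := by
    have h0 : ∀ s : ℝ, 0 ≤ (∑' v, w v * c v ^ 2) * (s * s) +
        (-2 * ∑' v, w v * (|c v| * ‖H v‖)) * s + ∑' v, w v * ‖H v‖ ^ 2 := by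
      intro s
      have h1 : 0 ≤ ∑' v, w v * (s * |c v| - ‖H v‖) ^ 2 :=
        tsum_nonneg fun v => mul_nonneg (hw0 v) (sq_nonneg _)
      have e : (fun v => w v * (s * |c v| - ‖H v‖) ^ 2) = fun v =>
          (s * s * (w v * c v ^ 2) + -2 * s * (w v * (|c v| * ‖H v‖))) + w v * ‖H v‖ ^ 2 := by
        funext v
        have : c v ^ 2 = |c v| ^ 2 := (sq_abs _).symm
        rw [this]
        ring
      rw [e, ((s1.mul_left _).add (s3.mul_left _)).tsum_add s2,
        (s1.mul_left _).tsum_add (s3.mul_left _), tsum_mul_left, tsum_mul_left] at h1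
      linarith
    have h2 := discrim_le_zero h0
    rw [discrim] at h2
    linarith
  -- the sum over the members
  have hsum : ∀ i, Summable fun v => (w v : ℂ) * ((c v : ℂ) * F i v) := by
    intro i
    refine Summable.of_norm_bounded (hw.mul_right (2 * B)) fun v => ?_
    rw [norm_mul, Complex.norm_real, Real.norm_eq_abs, abs_of_nonneg (hw0 v), norm_mul,
      Complex.norm_real]
    refine mul_le_mul_of_nonneg_left ?_ (hw0 v)
    exact mul_le_mul (hc v) (hF i v) (norm_nonneg _) (by norm_num)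
  have hX : ‖∑ i, (g i : ℂ) * ∑' v, (w v : ℂ) * ((c v : ℂ) * F i v)‖ ≤
      ∑' v, w v * (|c v| * ‖H v‖) := by
    have e : ∑ i, (g i : ℂ) * ∑' v, (w v : ℂ) * ((c v : ℂ) * F i v) =
        ∑' v, (w v : ℂ) * ((c v : ℂ) * H v) := by
      simp only [← tsum_mul_left]
      rw [← Summable.tsum_finsetSum fun i _ => (hsum i).mul_left _]
      refine tsum_congr fun v => ?_
      rw [hH]
      simp only [Finset.mul_sum]
      exact Finset.sum_congr rfl fun i _ => by ring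
    rw [e]
    refine tsum_of_norm_bounded s3.hasSum fun v => ?_
    rw [norm_mul, norm_mul, Complex.norm_real, Complex.norm_real, Real.norm_eq_abs,
      Real.norm_eq_abs, abs_of_nonneg (hw0 v)]
  have hsum2 : ∀ i j, Summable fun v => (w v : ℂ) * (F i v * conj (F j v)) := by
    intro i j
    refine Summable.of_norm_bounded (hw.mul_right (B * B)) fun v => ?_
    rw [norm_mul, Complex.norm_real, Real.norm_eq_abs, abs_of_nonneg (hw0 v), norm_mul,
      RCLike.norm_conj]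
    exact mul_le_mul_of_nonneg_left (mul_le_mul (hF i v) (hF j v) (norm_nonneg _) hB) (hw0 v)
  have hW : ∑' v, w v * ‖H v‖ ^ 2 =
      ∑ i, ∑ j, g i * g j * (∑' v, (w v : ℂ) * (F i v * conj (F j v))).re := by
    have h1 : ∀ v, ((w v * ‖H v‖ ^ 2 : ℝ) : ℂ) =
        ∑ i, ∑ j, ((g i * g j : ℝ) : ℂ) * ((w v : ℂ) * (F i v * conj (F j v))) := by
      intro v
      have h2 : ((‖H v‖ ^ 2 : ℝ) : ℂ) = H v * conj (H v) := by
        rw [Complex.mul_conj, Complex.normSq_eq_norm_sq]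
      rw [Complex.ofReal_mul, h2, hH]
      simp only [map_sum, map_mul, Complex.conj_ofReal]
      rw [Finset.sum_mul_sum, Finset.mul_sum]
      refine Finset.sum_congr rfl fun i _ => ?_
      rw [Finset.mul_sum]
      refine Finset.sum_congr rfl fun j _ => ?_
      push_cast
      ring
    have h3 : ((∑' v, w v * ‖H v‖ ^ 2 : ℝ) : ℂ) =
        ∑ i, ∑ j, ((g i * g j : ℝ) : ℂ) * ∑' v, (w v : ℂ) * (F i v * conj (F j v)) := by
      rw [Complex.ofReal_tsum]
      simp only [h1]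
      rw [Summable.tsum_finsetSum fun i _ => summable_sum fun j _ => (hsum2 i j).mul_left _]
      refine Finset.sum_congr rfl fun i _ => ?_
      rw [Summable.tsum_finsetSum fun j _ => (hsum2 i j).mul_left _]
      exact Finset.sum_congr rfl fun j _ => tsum_mul_left
    have h4 := congrArg Complex.re h3
    rw [Complex.ofReal_re] at h4
    rw [h4]
    simp only [Complex.re_sum, Complex.re_ofReal_mul]
  have hWle : ∑' v, w v * ‖H v‖ ^ 2 ≤ ∑ i, ∑ j, g i * g j * M i j := by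
    rw [hW]
    exact Finset.sum_le_sum fun i _ => Finset.sum_le_sum fun j _ =>
      mul_le_mul_of_nonneg_left (hM i j) (mul_nonneg (hg i) (hg j))
  have hX0 : 0 ≤ ‖∑ i, (g i : ℂ) * ∑' v, (w v : ℂ) * ((c v : ℂ) * F i v)‖ := norm_nonneg _
  calc _ ≤ (∑' v, w v * (|c v| * ‖H v‖)) ^ 2 := pow_le_pow_left₀ hX0 hX 2
    _ ≤ _ := hCS
    _ ≤ _ := mul_le_mul_of_nonneg_left hWle
        (tsum_nonneg fun v => mul_nonneg (hw0 v) (sq_nonneg _))

/-- BESMG: the one sided inequality of Bessel with the matrix of Gram. -/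
theorem stBESMG_of (n m : ℕ) (hGR : StGRMG.{u} (n * m)) : StBESMG.{u} n m := by
  obtain ⟨A, hA, hgr⟩ := hGR
  refine ⟨A, hA, fun K _ _ hn Q hQ _ c hc δ hδ hδ2 N X hX μ hμ g hg => ?_⟩
  have hδ1 : δ ≤ 1 := by linarith
  have hlQ : 1 ≤ Real.log Q := by linarith [(Q_facts hQ).1]
  have hQ0 : 0 < Q := by linarith
  have hrk : ∀ i, finrank ℚ (X i).F ≤ n * m := by
    intro i
    have h1 : FiniteDimensional K (X i).F := Module.Finite.of_restrictScalars_finite ℚ K (X i).F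
    rw [← Module.finrank_mul_finrank ℚ K (X i).F, hn]
    exact Nat.mul_le_mul_left n (hX i).1
  have hu : ∀ i j, |(X i).t - (X j).t| ≤ 2 * Q := by
    intro i j
    have := abs_sub (X i).t (X j).t
    linarith [(hX i).2.2.2.2, (hX j).2.2.2.2]
  have hψ : ∀ i (w : HeightOneSpectrum (𝓞 (X i).F)), ‖(X i).ψ w.asIdeal‖ ≤ 1 := fun i w =>
    isHk_norm_le (hX i).2.2.1 _
  set B : ℝ := ∑ i, (finrank (𝓞 K) (𝓞 (X i).F) : ℝ) with hBdef
  have hB0 : 0 ≤ B := Finset.sum_nonneg fun i _ => Nat.cast_nonneg _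
  have hgram : ∀ i j, ∑' v : HeightOneSpectrum (𝓞 K), (wl δ v : ℂ) *
      ((A1 K (fun w => (X i).ψ w.asIdeal) v * ph (X i).t (nm v)) *
        conj (A1 K (fun w => (X j).ψ w.asIdeal) v * ph (X j).t (nm v))) =
      WL δ (fun v : HeightOneSpectrum (𝓞 K) => A1 K (fun w => (X i).ψ w.asIdeal) v *
        (starRingEnd ℂ) (A1 K (fun w => (X j).ψ w.asIdeal) v) *
          ph ((X i).t - (X j).t) (nm v)) := by
    intro i j
    rw [WL]
    refine tsum_congr fun v => ?_
    rw [map_mul, ph_conj, sub_eq_add_neg, ← ph_add']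
    ring
  have h := one_sidedG63 (fun v : HeightOneSpectrum (𝓞 K) => wl δ v) c
    (fun i v => A1 K (fun w => (X i).ψ w.asIdeal) v * ph (X i).t (nm v)) g hB0
    (summable_wl hδ) (fun v => wl_nonneg δ v) hc
    (fun i v => by
      rw [norm_mul, U214.norm_ph, mul_one]
      refine (norm_A1_le73 (hψ i) v).trans ?_
      exact Finset.single_le_sum (f := fun i => (finrank (𝓞 K) (𝓞 (X i).F) : ℝ))
        (fun i _ => Nat.cast_nonneg _) (Finset.mem_univ i)) hg
    (M := fun i j => μ i j * (δ / (δ ^ 2 + ((X i).t - (X j).t) ^ 2)) + A * Real.log Q)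
    (fun i j => by
      rw [hgram]
      obtain ⟨hm1, hd1, hk1, hZ1, ht1⟩ := hX i
      obtain ⟨hm2, hd2, hk2, hZ2, ht2⟩ := hX j
      exact hgr K (X i).F (X j).F (hrk i) (hrk j) Q hQ hd1 hd2 (X i).m (X i).Z
        (X i).ψ (X j).m (X j).Z (X j).ψ hk1 hk2 hZ1 hZ2 (μ i j) (hμ i j) δ
        ((X i).t - (X j).t) hδ hδ1 (hu i j))
  refine h.trans (le_of_eq ?_)
  congr 1
  have e1 : A * Real.log Q * (∑ i, g i) ^ 2 = ∑ i, ∑ j, g i * g j * (A * Real.log Q) := by
    rw [sq, Finset.sum_mul_sum, Finset.mul_sum]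
    refine Finset.sum_congr rfl fun i _ => ?_
    rw [Finset.mul_sum]
    exact Finset.sum_congr rfl fun j _ => by ring
  rw [e1, ← Finset.sum_add_distrib]
  refine Finset.sum_congr rfl fun i _ => ?_
  rw [← Finset.sum_add_distrib]
  exact Finset.sum_congr rfl fun j _ => by ring

end Pool.Agent.Lib.MP_bf61d2_nt.Artin.Ray
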