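import Mathlib
import Pool.Agent.Lib.MP_bf61d2_nt.Trim.Artin.MO.StmtsM63
import Pool.Agent.Lib.MP_bf61d2_nt.Trim.Perm.Frob
import Pool.Agent.Lib.MP_bf61d2_nt.Trim.Places
import Pool.Agent.Lib.MP_bf61d2_nt.Trim.Quad

set_option autoImplicit false

/-!
MONO (MP_bf61d2_nt), BIJ: the places of degree one of an extension and the embeddings fixed by a
Frobenius element.
-/

namespace NumberField
end NumberField

namespace Pool.Agent.Lib.MP_bf61d2_nt.Zeta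
end Pool.Agent.Lib.MP_bf61d2_nt.Zeta

namespace Pool.Agent.Lib.MP_bf61d2_nt.Perm
end Pool.Agent.Lib.MP_bf61d2_nt.Perm

namespace Pool.Agent.Lib.MP_bf61d2_nt.Artin.Ray

open NumberField IsDedekindDomain Module

open Pool.Agent.Lib.MP_bf61d2_nt.Zeta Pool.Agent.Lib.MP_bf61d2_nt.Perm

open scoped Classical

universe u

section BIJ42

variable {K F M : Type u} [Field K] [NumberField K] [Field F] [NumberField F] [Algebra K F]
  [Field M] [NumberField M] [Algebra K M]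

omit [NumberField K] [NumberField F] [NumberField M] in
lemma mapAlgHom_comp42 (g : Gal(M/K)) (φ : F →ₐ[K] M) (x : 𝓞 F) :
    (RingOfIntegers.mapAlgHom ((g : M →ₐ[K] M).comp φ) : 𝓞 F →ₐ[𝓞 K] 𝓞 M) x =
      g • (RingOfIntegers.mapAlgHom φ : 𝓞 F →ₐ[𝓞 K] 𝓞 M) x := rfl

/-- Every place is cut out by a given embedding. -/
lemma exists_pl42 (ι : F →ₐ[K] M) (w : HeightOneSpectrum (𝓞 F)) :
    ∃ Q : HeightOneSpectrum (𝓞 M), pl ι Q = w := by
  let : Algebra F M := (ι : F →+* M).toAlgebra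
  obtain ⟨Q, hQ⟩ := exists_dn_eq (K := F) (F := M) w
  refine ⟨Q, ?_⟩
  rw [← hQ]
  apply HeightOneSpectrum.ext
  ext x
  rw [mem_pl, mem_dn]
  rfl

variable [IsGalois K M]

/-- Every place of `F` below the same place of `K` is cut out at `P` by some embedding. -/
lemma exists_pl_eq42 (ι : F →ₐ[K] M) (P : HeightOneSpectrum (𝓞 M))
    (w : HeightOneSpectrum (𝓞 F)) (hw : dn (K := K) w = dn (K := K) P) :
    ∃ φ : F →ₐ[K] M, pl φ P = w := by
  obtain ⟨Q, hQ⟩ := exists_pl42 ι w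
  have hQ2 : dn (K := K) Q = dn (K := K) P := by rw [← hw, ← hQ, dn_pl]
  have hfd : FiniteDimensional K M := Module.Finite.of_restrictScalars_finite ℚ K M
  have hPp := P.isPrime
  have hQp := Q.isPrime
  obtain ⟨g, hg⟩ := Algebra.IsInvariant.exists_smul_of_under_eq (𝓞 K) (𝓞 M) Gal(M/K)
    P.asIdeal Q.asIdeal (congrArg HeightOneSpectrum.asIdeal hQ2).symm
  refine ⟨((g⁻¹ : Gal(M/K)) : M →ₐ[K] M).comp ι, ?_⟩
  apply HeightOneSpectrum.ext
  ext x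
  rw [mem_pl, mapAlgHom_comp42, ← Ideal.mem_pointwise_smul_iff_inv_smul_mem, ← hg, ← hQ]
  rfl

/-- The places of degree one and the embeddings fixed by a Frobenius element. -/
theorem bij42 (ι : F →ₐ[K] M) (P : HeightOneSpectrum (𝓞 M)) (σ : Gal(M/K))
    (hσ : ∀ x : 𝓞 M, σ • x - x ^ nm (dn (K := K) P) ∈ P.asIdeal) (hsep : Sep K F M P) :
    ∃ h1 : ∀ φ : F →ₐ[K] M, (σ : M →ₐ[K] M).comp φ = φ →
      dn (K := K) (pl φ P) = dn (K := K) P ∧ nm (pl φ P) = nm (dn (K := K) P),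
    Function.Bijective
    (fun φ : {φ : F →ₐ[K] M // (σ : M →ₐ[K] M).comp φ = φ} =>
      (⟨pl φ.1 P, h1 φ.1 φ.2⟩ : {w : HeightOneSpectrum (𝓞 F) //
        dn (K := K) w = dn (K := K) P ∧ nm w = nm (dn (K := K) P)})) := by
  have hPp := P.isPrime
  -- places cut out by fixed embeddings have degree one
  have h1 : ∀ φ : F →ₐ[K] M, (σ : M →ₐ[K] M).comp φ = φ →
      dn (K := K) (pl φ P) = dn (K := K) P ∧ nm (pl φ P) = nm (dn (K := K) P) := by
    intro φ hφ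
    have hd : dn (K := K) (pl φ P) = dn (K := K) P := dn_pl _ _
    refine ⟨hd, le_antisymm ?_ (hd ▸ nm_dn_le (pl φ P))⟩
    refine nm_le_of_pow _ (one_lt_nm _) fun x => ?_
    rw [mem_pl, map_sub, map_pow]
    have h2 := hσ ((RingOfIntegers.mapAlgHom φ : 𝓞 F →ₐ[𝓞 K] 𝓞 M) x)
    rw [← mapAlgHom_comp42, hφ] at h2
    rw [← neg_mem_iff, neg_sub]
    exact h2
  refine ⟨h1, ?_, ?_⟩
  · rintro ⟨φ, hφ⟩ ⟨ψ, hψ⟩ h
    have h2 : pl φ P = pl ψ P := congrArg Subtype.val h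
    by_contra hne
    have hne' : φ ≠ ψ := fun h' => hne (Subtype.ext h')
    obtain ⟨θ, hdist⟩ := hsep φ ψ hne'
    obtain ⟨a, ha⟩ := exists_repr (K := K) (pl φ P) (by rw [(h1 φ hφ).1]; exact (h1 φ hφ).2) θ
    have ha2 : algebraMap (𝓞 K) (𝓞 F) a - θ ∈ (pl ψ P).asIdeal := h2 ▸ ha
    rw [mem_pl, map_sub, AlgHom.commutes] at ha ha2
    apply hdist
    have e : (RingOfIntegers.mapAlgHom φ : 𝓞 F →ₐ[𝓞 K] 𝓞 M) θ -
        (RingOfIntegers.mapAlgHom ψ : 𝓞 F →ₐ[𝓞 K] 𝓞 M) θ =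
        (algebraMap (𝓞 K) (𝓞 M) a - (RingOfIntegers.mapAlgHom ψ : 𝓞 F →ₐ[𝓞 K] 𝓞 M) θ) -
        (algebraMap (𝓞 K) (𝓞 M) a - (RingOfIntegers.mapAlgHom φ : 𝓞 F →ₐ[𝓞 K] 𝓞 M) θ) := by ring
    rw [e]
    exact sub_mem ha2 ha
  · rintro ⟨w, hwv, hwn⟩
    obtain ⟨φ, hφ⟩ := exists_pl_eq42 ι P w hwv
    have hfix : (σ : M →ₐ[K] M).comp φ = φ := by
      by_contra hne
      obtain ⟨θ, hdist⟩ := hsep _ _ hne
      apply hdist
      obtain ⟨a, ha⟩ := exists_repr (K := K) w (by rw [hwv, hwn]) θ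
      rw [← hφ, mem_pl, map_sub, AlgHom.commutes] at ha
      rw [mapAlgHom_comp42]
      set y : 𝓞 M := (RingOfIntegers.mapAlgHom φ : 𝓞 F →ₐ[𝓞 K] 𝓞 M) θ with hy
      set A : 𝓞 M := algebraMap (𝓞 K) (𝓞 M) a with hA
      have h2 := hσ A
      have h3 : σ • A = A := by
        rw [hA]
        exact smul_algebraMap σ a
      rw [h3] at h2
      have h4 := hσ y
      have h5 : A ^ nm (dn (K := K) P) - y ^ nm (dn (K := K) P) ∈ P.asIdeal :=
        Ideal.mem_of_dvd _ (sub_dvd_pow_sub_pow A y (nm (dn (K := K) P))) ha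
      have e : σ • y - y = (σ • y - y ^ nm (dn (K := K) P)) -
          (A ^ nm (dn (K := K) P) - y ^ nm (dn (K := K) P)) - (A - A ^ nm (dn (K := K) P)) +
          (A - y) := by ring
      rw [e]
      exact add_mem (sub_mem (sub_mem h4 h5) h2) ha
    exact ⟨⟨φ, hfix⟩, Subtype.ext hφ⟩

end BIJ42

/-- BIJ. -/
theorem stBIJ : StBIJ.{u} := by
  intro K F M _ _ _ _ _ _ _ _ _ ⟨ι⟩ P σ hσ hsep f
  obtain ⟨h1, hb⟩ := bij42 ι P σ hσ hsep
  rw [← finsum_eq_sum_of_fintype]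
  exact (finsum_eq_of_bijective _ hb (fun φ => rfl)).symm

end Pool.Agent.Lib.MP_bf61d2_nt.Artin.Ray
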