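import Mathlib
import Pool.Agent.Lib.MP_bf61d2_nt.Trim.Artin.MO.StmtsM63

set_option autoImplicit false

/-!
MONO (MP_bf61d2_nt): the module CLO, a common Galois extension.
-/

namespace NumberField
end NumberField

namespace Pool.Agent.Lib.MP_bf61d2_nt.Zeta
end Pool.Agent.Lib.MP_bf61d2_nt.Zeta

namespace Pool.Agent.Lib.MP_bf61d2_nt.Perm
end Pool.Agent.Lib.MP_bf61d2_nt.Perm

namespace Pool.Agent.Lib.MP_bf61d2_nt.Artin.Ray

open NumberField IsDedekindDomain Module

open Pool.Agent.Lib.MP_bf61d2_nt.Zeta Pool.Agent.Lib.MP_bf61d2_nt.Perm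

open scoped Classical

universe u

/-- CLO: a common Galois extension. -/
theorem stCLO : StCLO.{u} := by
  intro K F₁ F₂ _ _ _ _ _ _ _ _
  have hf1 : FiniteDimensional K F₁ := Module.Finite.of_restrictScalars_finite ℚ K F₁
  have hf2 : FiniteDimensional K F₂ := Module.Finite.of_restrictScalars_finite ℚ K F₂
  let A := AlgebraicClosure K
  let φ₁ : F₁ →ₐ[K] A := IsAlgClosed.lift
  let φ₂ : F₂ →ₐ[K] A := IsAlgClosed.lift
  let E : IntermediateField K A := φ₁.fieldRange ⊔ φ₂.fieldRange
  have h1 : FiniteDimensional K φ₁.fieldRange :=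
    Module.Finite.of_surjective φ₁.rangeRestrict.toLinearMap φ₁.rangeRestrict_surjective
  have h2 : FiniteDimensional K φ₂.fieldRange :=
    Module.Finite.of_surjective φ₂.rangeRestrict.toLinearMap φ₂.rangeRestrict_surjective
  have hE : FiniteDimensional K E := IntermediateField.finiteDimensional_sup _ _
  let M : IntermediateField K A := IntermediateField.normalClosure K E A
  have hM : FiniteDimensional K M := inferInstance
  have hMN : Normal K M := inferInstance
  have hG : IsGalois K M := inferInstance
  have hEM : E ≤ M := IntermediateField.le_normalClosure E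
  have hQ : FiniteDimensional ℚ M := Module.Finite.trans K M
  have hnf : NumberField M := { to_charZero := inferInstance, to_finiteDimensional := hQ }
  refine ⟨M, inferInstance, hnf, inferInstance, hG, ⟨?_⟩, ⟨?_⟩⟩
  · exact (IntermediateField.inclusion (le_sup_left.trans hEM)).comp φ₁.rangeRestrict
  · exact (IntermediateField.inclusion (le_sup_right.trans hEM)).comp φ₂.rangeRestrict

end Pool.Agent.Lib.MP_bf61d2_nt.Artin.Ray
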