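import Mathlib
import Pool.Agent.Lib.MP_bf61d2_nt.Trim.Artin.MO.StmtsM63
import Pool.Agent.Lib.MP_bf61d2_nt.Trim.Artin.UK.StmtsU84
import Pool.Agent.Lib.MP_bf61d2_nt.Trim.Perm.Frob
import Pool.Agent.Lib.MP_bf61d2_nt.Trim.Places
import Pool.Agent.Lib.MP_bf61d2_nt.Trim.Quad

set_option autoImplicit false

/-!
CPL: the products of the sums over the places of degree one of two extensions of `K` are sums over
the places of degree one of the composita, outside a small set of places.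
-/

namespace NumberField
end NumberField

namespace Pool.Agent.Lib.MP_bf61d2_nt.Zeta
end Pool.Agent.Lib.MP_bf61d2_nt.Zeta

namespace Pool.Agent.Lib.MP_bf61d2_nt.Perm
end Pool.Agent.Lib.MP_bf61d2_nt.Perm

namespace Pool.Agent.Lib.MP_bf61d2_nt.Artin.Ray.CPL93
end Pool.Agent.Lib.MP_bf61d2_nt.Artin.Ray.CPL93

namespace Pool.Agent.Lib.MP_bf61d2_nt.Artin.Ray

open NumberField IsDedekindDomain Module

open Pool.Agent.Lib.MP_bf61d2_nt.Zeta Pool.Agent.Lib.MP_bf61d2_nt.Perm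

open scoped Classical

universe u

namespace CPL93

section Alg

variable {K F F₁ F₂ M : Type u} [Field K] [Field F] [Field F₁] [Field F₂] [Field M] [Algebra K F]
  [Algebra K F₁] [Algebra K F₂] [Algebra K M]

/-- Two embeddings in a normal extension are conjugate. -/
lemma exists_gal [Normal K M] (φ φ' : F →ₐ[K] M) : ∃ g : Gal(M/K),
    (g : M →ₐ[K] M).comp φ = φ' := by
  let : Algebra F M := (φ : F →+* M).toAlgebra
  have : IsScalarTower K F M := IsScalarTower.of_algebraMap_eq fun a => (φ.commutes a).symm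
  refine ⟨AlgEquiv.ofBijective (φ'.liftNormal M) (AlgHom.normal_bijective K M M _), ?_⟩
  ext a
  exact AlgHom.liftNormal_commutes φ' M a

/-- Two embeddings which agree on a generating set of subfields agree. -/
lemma ext_of_gen {L : Type u} [Field L] [Algebra K L] (α : F₁ →ₐ[K] L) (β : F₂ →ₐ[K] L)
    (gen : α.fieldRange ⊔ β.fieldRange = ⊤) (χ χ' : L →ₐ[K] M) (h1 : χ.comp α = χ'.comp α)
    (h2 : χ.comp β = χ'.comp β) : χ = χ' := by
  let E : IntermediateField K L :=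
    { AlgHom.equalizer χ χ' with
      inv_mem' := by
        intro a ha
        have ha' : χ a = χ' a := ha
        show χ a⁻¹ = χ' a⁻¹
        rw [map_inv₀, map_inv₀, ha'] }
  have hmem : ∀ a : L, a ∈ E ↔ χ a = χ' a := fun a => Iff.rfl
  have h3 : α.fieldRange ⊔ β.fieldRange ≤ E := by
    refine sup_le ?_ ?_
    · rintro _ ⟨a, rfl⟩
      exact (hmem _).2 (DFunLike.congr_fun h1 a)
    · rintro _ ⟨a, rfl⟩
      exact (hmem _).2 (DFunLike.congr_fun h2 a)
  ext a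
  exact (hmem a).1 (h3 (gen ▸ IntermediateField.mem_top))

/-- The compositum of two subfields. -/
noncomputable def LL (x : F₁ →ₐ[K] M) (y : F₂ →ₐ[K] M) : IntermediateField K M :=
  x.fieldRange ⊔ y.fieldRange

/-- The first embedding in the compositum. -/
noncomputable def al (x : F₁ →ₐ[K] M) (y : F₂ →ₐ[K] M) : F₁ →ₐ[K] LL x y where
  toFun a := ⟨x a, (le_sup_left : x.fieldRange ≤ LL x y) ⟨a, rfl⟩⟩
  map_one' := Subtype.ext (map_one x)
  map_mul' a b := Subtype.ext (map_mul x a b)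
  map_zero' := Subtype.ext (map_zero x)
  map_add' a b := Subtype.ext (map_add x a b)
  commutes' a := Subtype.ext (x.commutes a)

/-- The second embedding in the compositum. -/
noncomputable def be (x : F₁ →ₐ[K] M) (y : F₂ →ₐ[K] M) : F₂ →ₐ[K] LL x y where
  toFun a := ⟨y a, (le_sup_right : y.fieldRange ≤ LL x y) ⟨a, rfl⟩⟩
  map_one' := Subtype.ext (map_one y)
  map_mul' a b := Subtype.ext (map_mul y a b)
  map_zero' := Subtype.ext (map_zero y)
  map_add' a b := Subtype.ext (map_add y a b)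
  commutes' a := Subtype.ext (y.commutes a)

lemma val_al (x : F₁ →ₐ[K] M) (y : F₂ →ₐ[K] M) : (LL x y).val.comp (al x y) = x := rfl

lemma val_be (x : F₁ →ₐ[K] M) (y : F₂ →ₐ[K] M) : (LL x y).val.comp (be x y) = y := rfl

lemma gen_LL (x : F₁ →ₐ[K] M) (y : F₂ →ₐ[K] M) :
    (al x y).fieldRange ⊔ (be x y).fieldRange = ⊤ := by
  apply IntermediateField.map_injective (LL x y).val
  rw [IntermediateField.map_sup, AlgHom.map_fieldRange, AlgHom.map_fieldRange, val_al, val_be,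
    ← AlgHom.fieldRange_eq_map, IntermediateField.fieldRange_val]
  rfl

end Alg

section Num

variable {K F F₁ F₂ L M : Type u} [Field K] [NumberField K] [Field F] [NumberField F]
  [Field F₁] [NumberField F₁] [Field F₂] [NumberField F₂] [Field L] [NumberField L] [Field M]
  [NumberField M] [Algebra K F] [Algebra K F₁] [Algebra K F₂] [Algebra K L] [Algebra K M]

omit [NumberField K] [NumberField F₁] [NumberField F₂] [NumberField L] [NumberField M] in
/-- The embeddings of a compositum are separated as soon as those of the two fields are. -/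
lemma sep_of (α : F₁ →ₐ[K] L) (β : F₂ →ₐ[K] L) (gen : α.fieldRange ⊔ β.fieldRange = ⊤)
    (P : HeightOneSpectrum (𝓞 M)) (h1 : Sep K F₁ M P) (h2 : Sep K F₂ M P) : Sep K L M P := by
  intro φ χ hne
  by_cases h : φ.comp α = χ.comp α
  · have h' : φ.comp β ≠ χ.comp β := fun h' => hne (ext_of_gen α β gen φ χ h h')
    obtain ⟨θ, hθ⟩ := h2 _ _ h'
    exact ⟨(RingOfIntegers.mapAlgHom β : 𝓞 F₂ →ₐ[𝓞 K] 𝓞 L) θ, hθ⟩
  · obtain ⟨θ, hθ⟩ := h1 _ _ h
    exact ⟨(RingOfIntegers.mapAlgHom α : 𝓞 F₁ →ₐ[𝓞 K] 𝓞 L) θ, hθ⟩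

/-- There is a Frobenius element. -/
lemma exists_fr [IsGalois K M] (P : HeightOneSpectrum (𝓞 M)) : ∃ σ : Gal(M/K),
    ∀ x : 𝓞 M, σ • x - x ^ nm (dn (K := K) P) ∈ P.asIdeal := by
  have hfd : FiniteDimensional K M := Module.Finite.of_restrictScalars_finite ℚ K M
  have h1 : P.asIdeal.IsPrime := P.isPrime
  have h2 : Nat.card (𝓞 M ⧸ P.asIdeal) = nm P := by
    rw [nm, Ideal.absNorm_apply, Submodule.cardQuot_apply]
  have h3 : Finite (𝓞 M ⧸ P.asIdeal) := by
    apply Nat.finite_of_card_ne_zero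
    rw [h2]
    have := one_lt_nm P
    omega
  obtain ⟨σ, hσ⟩ := IsArithFrobAt.exists_of_isInvariant (𝓞 K) Gal(M/K) P.asIdeal
  refine ⟨σ, fun x => ?_⟩
  have h4 := hσ x
  have h5 : Nat.card (𝓞 K ⧸ P.asIdeal.under (𝓞 K)) = nm (dn (K := K) P) := by
    have h6 : P.asIdeal.under (𝓞 K) = (dn (K := K) P).asIdeal := rfl
    rw [h6, nm, Ideal.absNorm_apply, Submodule.cardQuot_apply]
  rw [h5] at h4
  exact h4

/-- The orbits of the pairs of embeddings. -/
def st (K F₁ F₂ M : Type u) [Field K] [Field F₁] [Field F₂] [Field M] [Algebra K F₁]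
    [Algebra K F₂] [Algebra K M] : Setoid ((F₁ →ₐ[K] M) × (F₂ →ₐ[K] M)) where
  r p q := ∃ g : Gal(M/K), (g : M →ₐ[K] M).comp p.1 = q.1 ∧ (g : M →ₐ[K] M).comp p.2 = q.2
  iseqv :=
    { refl := fun p => ⟨1, rfl, rfl⟩
      symm := by
        rintro p q ⟨g, h1, h2⟩
        refine ⟨g⁻¹, ?_, ?_⟩
        · rw [← h1]
          ext a
          exact g.symm_apply_apply (p.1 a)
        · rw [← h2]
          ext a
          exact g.symm_apply_apply (p.2 a)
      trans := by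
        rintro p q r ⟨g, h1, h2⟩ ⟨g', h3, h4⟩
        refine ⟨g' * g, ?_, ?_⟩
        · rw [← h3, ← h1]
          rfl
        · rw [← h4, ← h2]
          rfl }

omit [NumberField K] [NumberField F₁] [NumberField F₂] [NumberField M] in
lemma inj_aux [IsGalois K M] {p q : (F₁ →ₐ[K] M) × (F₂ →ₐ[K] M)} (χ : LL p.1 p.2 →ₐ[K] M)
    (χ' : LL q.1 q.2 →ₐ[K] M) (h1 : χ.comp (al p.1 p.2) = χ'.comp (al q.1 q.2))
    (h2 : χ.comp (be p.1 p.2) = χ'.comp (be q.1 q.2)) : (st K F₁ F₂ M).r p q := by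
  obtain ⟨g, hg⟩ := exists_gal (LL p.1 p.2).val χ
  obtain ⟨g', hg'⟩ := exists_gal (LL q.1 q.2).val χ'
  have k1 : (g : M →ₐ[K] M).comp p.1 = χ.comp (al p.1 p.2) := by
    rw [← hg, AlgHom.comp_assoc, val_al]
  have k2 : (g : M →ₐ[K] M).comp p.2 = χ.comp (be p.1 p.2) := by
    rw [← hg, AlgHom.comp_assoc, val_be]
  have k3 : (g' : M →ₐ[K] M).comp q.1 = χ'.comp (al q.1 q.2) := by
    rw [← hg', AlgHom.comp_assoc, val_al]
  have k4 : (g' : M →ₐ[K] M).comp q.2 = χ'.comp (be q.1 q.2) := by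
    rw [← hg', AlgHom.comp_assoc, val_be]
  have k5 : (st K F₁ F₂ M).r p (χ.comp (al p.1 p.2), χ.comp (be p.1 p.2)) := ⟨g, k1, k2⟩
  have k6 : (st K F₁ F₂ M).r q (χ.comp (al p.1 p.2), χ.comp (be p.1 p.2)) :=
    ⟨g', k3.trans h1.symm, k4.trans h2.symm⟩
  exact (st K F₁ F₂ M).trans k5 ((st K F₁ F₂ M).symm k6)

omit [NumberField K] [NumberField F₁] [NumberField F₂] [NumberField M] in
lemma surj_aux (σ : Gal(M/K)) {p : (F₁ →ₐ[K] M) × (F₂ →ₐ[K] M)} (φ : F₁ →ₐ[K] M)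
    (ψ : F₂ →ₐ[K] M) (hφ : (σ : M →ₐ[K] M).comp φ = φ) (hψ : (σ : M →ₐ[K] M).comp ψ = ψ)
    (h : (st K F₁ F₂ M).r p (φ, ψ)) : ∃ χ : LL p.1 p.2 →ₐ[K] M, (σ : M →ₐ[K] M).comp χ = χ ∧
      χ.comp (al p.1 p.2) = φ ∧ χ.comp (be p.1 p.2) = ψ := by
  obtain ⟨g, hg1, hg2⟩ := h
  have h3 : (((g : M →ₐ[K] M).comp (LL p.1 p.2).val).comp (al p.1 p.2)) = φ := by
    rw [AlgHom.comp_assoc, val_al]
    exact hg1
  have h4 : (((g : M →ₐ[K] M).comp (LL p.1 p.2).val).comp (be p.1 p.2)) = ψ := by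
    rw [AlgHom.comp_assoc, val_be]
    exact hg2
  refine ⟨(g : M →ₐ[K] M).comp (LL p.1 p.2).val, ?_, h3, h4⟩
  apply ext_of_gen _ _ (gen_LL p.1 p.2)
  · rw [AlgHom.comp_assoc, h3, hφ]
  · rw [AlgHom.comp_assoc, h4, hψ]

omit [NumberField K] [NumberField F₁] [NumberField F₂] [NumberField M] in
lemma class_aux {J : ℕ} (e : Fin J ≃ Quotient (st K F₁ F₂ M)) (p : (F₁ →ₐ[K] M) × (F₂ →ₐ[K] M)) :
    ∃ j, (st K F₁ F₂ M).r (e j).out p := by
  refine ⟨e.symm (Quotient.mk (st K F₁ F₂ M) p), ?_⟩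
  rw [Equiv.apply_symm_apply]
  exact Quotient.mk_out (s := st K F₁ F₂ M) p

/-- The sums over the pairs of fixed embeddings, orbit by orbit. -/
lemma sum_orb [IsGalois K M] (σ : Gal(M/K)) {J : ℕ} (e : Fin J ≃ Quotient (st K F₁ F₂ M))
    (g₁ : (F₁ →ₐ[K] M) → ℂ) (g₂ : (F₂ →ₐ[K] M) → ℂ) :
    (∑ φ : {φ : F₁ →ₐ[K] M // (σ : M →ₐ[K] M).comp φ = φ}, g₁ φ.1) *
      (∑ ψ : {ψ : F₂ →ₐ[K] M // (σ : M →ₐ[K] M).comp ψ = ψ}, g₂ ψ.1) =
    ∑ j, ∑ χ : {χ : LL (e j).out.1 (e j).out.2 →ₐ[K] M // (σ : M →ₐ[K] M).comp χ = χ},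
      g₁ (χ.1.comp (al (e j).out.1 (e j).out.2)) * g₂ (χ.1.comp (be (e j).out.1 (e j).out.2)) := by
  rw [Finset.sum_mul_sum, ← Fintype.sum_prod_type', ← Fintype.sum_sigma']
  symm
  refine Fintype.sum_bijective (fun z : (j : Fin J) ×
      {χ : LL (e j).out.1 (e j).out.2 →ₐ[K] M // (σ : M →ₐ[K] M).comp χ = χ} =>
      ((⟨z.2.1.comp (al (e z.1).out.1 (e z.1).out.2), by
          rw [← AlgHom.comp_assoc, z.2.2]⟩, ⟨z.2.1.comp (be (e z.1).out.1 (e z.1).out.2), by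
          rw [← AlgHom.comp_assoc, z.2.2]⟩) :
        {φ : F₁ →ₐ[K] M // (σ : M →ₐ[K] M).comp φ = φ} ×
          {ψ : F₂ →ₐ[K] M // (σ : M →ₐ[K] M).comp ψ = ψ})) ⟨?_, ?_⟩ _ _ fun z => rfl
  · rintro ⟨i, χ, hχ⟩ ⟨j, χ', hχ'⟩ h
    have h1 : χ.comp (al (e i).out.1 (e i).out.2) = χ'.comp (al (e j).out.1 (e j).out.2) :=
      congrArg (fun z => z.1.1) h
    have h2 : χ.comp (be (e i).out.1 (e i).out.2) = χ'.comp (be (e j).out.1 (e j).out.2) :=
      congrArg (fun z => z.2.1) h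
    have hij : i = j := by
      apply e.injective
      rw [← Quotient.out_equiv_out]
      exact inj_aux χ χ' h1 h2
    subst hij
    have k7 : χ = χ' := ext_of_gen _ _ (gen_LL _ _) χ χ' h1 h2
    exact Sigma.ext rfl (heq_of_eq (Subtype.ext k7))
  · intro z
    refine (class_aux e (z.1.1, z.2.1)).elim fun j h1 => ?_
    refine (surj_aux σ z.1.1 z.2.1 z.1.2 z.2.2 h1).elim fun χ h => ?_
    exact ⟨⟨j, ⟨χ, h.1⟩⟩, Prod.ext (Subtype.ext h.2.1) (Subtype.ext h.2.2)⟩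

/-- The number of orbits. -/
lemma card_le (n : ℕ) (h1 : finrank ℚ F₁ ≤ n) (h2 : finrank ℚ F₂ ≤ n) :
    Nat.card (Quotient (st K F₁ F₂ M)) ≤ n ^ 2 := by
  have hf1 : FiniteDimensional K F₁ := Module.Finite.of_restrictScalars_finite ℚ K F₁
  have hf2 : FiniteDimensional K F₂ := Module.Finite.of_restrictScalars_finite ℚ K F₂
  have hfM : FiniteDimensional K M := Module.Finite.of_restrictScalars_finite ℚ K M
  have h3 : Nat.card (Quotient (st K F₁ F₂ M)) ≤ Nat.card ((F₁ →ₐ[K] M) × (F₂ →ₐ[K] M)) :=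
    Nat.card_le_card_of_surjective _ Quotient.mk_surjective
  have h4 : finrank K F₁ ≤ finrank ℚ F₁ := by
    rw [← finrank_mul_finrank ℚ K F₁]
    exact Nat.le_mul_of_pos_left _ finrank_pos
  have h5 : finrank K F₂ ≤ finrank ℚ F₂ := by
    rw [← finrank_mul_finrank ℚ K F₂]
    exact Nat.le_mul_of_pos_left _ finrank_pos
  have h6 : Nat.card (F₁ →ₐ[K] M) ≤ finrank K F₁ := card_algHom_le_finrank K F₁ M
  have h7 : Nat.card (F₂ →ₐ[K] M) ≤ finrank K F₂ := card_algHom_le_finrank K F₂ M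
  rw [Nat.card_prod] at h3
  calc _ ≤ _ := h3
    _ ≤ n * n := Nat.mul_le_mul (h6.trans (h4.trans h1)) (h7.trans (h5.trans h2))
    _ = n ^ 2 := (sq n).symm

/-- The degree of a compositum. -/
lemma deg_le (n : ℕ) (h1 : finrank ℚ F₁ ≤ n) (h2 : finrank ℚ F₂ ≤ n) (x : F₁ →ₐ[K] M)
    (y : F₂ →ₐ[K] M) : finrank ℚ (LL x y) ≤ n ^ 2 := by
  have hf1 : FiniteDimensional K F₁ := Module.Finite.of_restrictScalars_finite ℚ K F₁
  have hf2 : FiniteDimensional K F₂ := Module.Finite.of_restrictScalars_finite ℚ K F₂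
  have hfM : FiniteDimensional K M := Module.Finite.of_restrictScalars_finite ℚ K M
  have h3 : finrank K (LL x y) ≤ finrank K x.fieldRange * finrank K y.fieldRange :=
    IntermediateField.finrank_sup_le _ _
  have h4 : finrank K x.fieldRange = finrank K F₁ :=
    (LinearEquiv.ofInjective x.toLinearMap x.injective).finrank_eq.symm
  have h5 : finrank K y.fieldRange = finrank K F₂ :=
    (LinearEquiv.ofInjective y.toLinearMap y.injective).finrank_eq.symm
  rw [h4, h5] at h3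
  have h6 : finrank K F₂ ≤ finrank ℚ F₂ := by
    rw [← finrank_mul_finrank ℚ K F₂]
    exact Nat.le_mul_of_pos_left _ finrank_pos
  calc finrank ℚ (LL x y) = finrank ℚ K * finrank K (LL x y) :=
        (finrank_mul_finrank ℚ K (LL x y)).symm
    _ ≤ finrank ℚ K * (finrank K F₁ * finrank K F₂) := Nat.mul_le_mul_left _ h3
    _ = finrank ℚ F₁ * finrank K F₂ := by rw [← mul_assoc, finrank_mul_finrank ℚ K F₁]
    _ ≤ n * n := Nat.mul_le_mul h1 (h6.trans h2)
    _ = n ^ 2 := (sq n).symm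

end Num

end CPL93

open CPL93 in
/-- CPL. -/
theorem stCPL_of (n : ℕ) (hBIJ : StBIJ.{u}) (hCLO : StCLO.{u}) (hBAD : ∀ k, StBAD.{u} k) :
    StCPL.{u} n := by
  choose A hA0 hA using hBAD
  have hle : ∀ k ≤ n, A k ≤ ∑ k ∈ Finset.range (n + 1), A k := fun k hk =>
    Finset.single_le_sum (f := A) (fun i _ => hA0 i) (Finset.mem_range.2 (by omega))
  refine ⟨2 * ∑ k ∈ Finset.range (n + 1), A k,
    mul_nonneg two_pos.le (Finset.sum_nonneg fun k _ => hA0 k), ?_⟩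
  intro K F₁ F₂ _ _ _ _ _ _ _ _ h1 h2
  obtain ⟨M, _, _, _, hG, hM1, hM2⟩ := hCLO K F₁ F₂
  obtain ⟨S₁, hS1, hS1'⟩ := hA (finrank ℚ F₁) K F₁ M rfl
  obtain ⟨S₂, hS2, hS2'⟩ := hA (finrank ℚ F₂) K F₂ M rfl
  have hf1 : FiniteDimensional K F₁ := Module.Finite.of_restrictScalars_finite ℚ K F₁
  have hf2 : FiniteDimensional K F₂ := Module.Finite.of_restrictScalars_finite ℚ K F₂
  have hfM : FiniteDimensional K M := Module.Finite.of_restrictScalars_finite ℚ K M
  have hfin : Finite (Quotient (st K F₁ F₂ M)) := Quotient.finite _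
  set e : Fin (Nat.card (Quotient (st K F₁ F₂ M))) ≃ Quotient (st K F₁ F₂ M) :=
    (Finite.equivFin _).symm with he
  refine ⟨Nat.card (Quotient (st K F₁ F₂ M)), fun j =>
    { L := LL (e j).out.1 (e j).out.2
      α := al (e j).out.1 (e j).out.2
      β := be (e j).out.1 (e j).out.2
      gen := gen_LL _ _ }, S₁ ∪ S₂, card_le n h1 h2, fun j => deg_le n h1 h2 _ _, ?_, ?_, ?_⟩
  · intro f i j hi hj
    have hi' : (al (e i).out.1 (e i).out.2) = (be (e i).out.1 (e i).out.2).comp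
      (f : F₁ →ₐ[K] F₂) := hi
    have hj' : (al (e j).out.1 (e j).out.2) = (be (e j).out.1 (e j).out.2).comp
      (f : F₁ →ₐ[K] F₂) := hj
    have k1 : (e i).out.1 = (e i).out.2.comp (f : F₁ →ₐ[K] F₂) := by
      rw [← val_al (e i).out.1 (e i).out.2, hi', ← AlgHom.comp_assoc, val_be]
    have k2 : (e j).out.1 = (e j).out.2.comp (f : F₁ →ₐ[K] F₂) := by
      rw [← val_al (e j).out.1 (e j).out.2, hj', ← AlgHom.comp_assoc, val_be]
    obtain ⟨g, hg⟩ := exists_gal (e i).out.2 (e j).out.2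
    apply e.injective
    rw [← Quotient.out_equiv_out]
    refine ⟨g, ?_, hg⟩
    rw [k1, k2, ← AlgHom.comp_assoc, hg]
  · have hd1 : 1 ≤ dK F₁ := by
      have h : 1 ≤ |discr F₁| := Int.one_le_abs (discr_ne_zero F₁)
      rw [dK]
      exact_mod_cast h
    have hd2 : 1 ≤ dK F₂ := by
      have h : 1 ≤ |discr F₂| := Int.one_le_abs (discr_ne_zero F₂)
      rw [dK]
      exact_mod_cast h
    set B : ℝ := ∑ k ∈ Finset.range (n + 1), A k with hB
    have hB0 : 0 ≤ B := Finset.sum_nonneg fun k _ => hA0 k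
    have hlog : ∀ v : HeightOneSpectrum (𝓞 K), 0 ≤ Real.log (nm v) := fun v =>
      Real.log_nonneg (by exact_mod_cast (one_lt_nm v).le)
    have l1 : Real.log (20 * dK F₁) ≤ Real.log (20 * (dK F₁ * dK F₂)) := by
      apply Real.log_le_log (by positivity)
      nlinarith
    have l2 : Real.log (20 * dK F₂) ≤ Real.log (20 * (dK F₁ * dK F₂)) := by
      apply Real.log_le_log (by positivity)
      nlinarith
    have l0 : 0 ≤ Real.log (20 * (dK F₁ * dK F₂)) := by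
      apply Real.log_nonneg
      nlinarith
    calc ∑ v ∈ S₁ ∪ S₂, Real.log (nm v) ≤
        ∑ v ∈ S₁ ∪ S₂, Real.log (nm v) + ∑ v ∈ S₁ ∩ S₂, Real.log (nm v) :=
          le_add_of_nonneg_right (Finset.sum_nonneg fun v _ => hlog v)
      _ = ∑ v ∈ S₁, Real.log (nm v) + ∑ v ∈ S₂, Real.log (nm v) := Finset.sum_union_inter
      _ ≤ B * Real.log (20 * (dK F₁ * dK F₂)) + B * Real.log (20 * (dK F₁ * dK F₂)) := by
          refine add_le_add (hS1.trans ?_) (hS2.trans ?_)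
          · exact (mul_le_mul_of_nonneg_left l1 (hA0 _)).trans
              (mul_le_mul_of_nonneg_right (hle _ h1) l0)
          · exact (mul_le_mul_of_nonneg_left l2 (hA0 _)).trans
              (mul_le_mul_of_nonneg_right (hle _ h2) l0)
      _ = 2 * B * Real.log (20 * (dK F₁ * dK F₂)) := by ring
  · intro v hv f₁ f₂
    obtain ⟨P, rfl⟩ := exists_dn_eq (K := K) (F := M) v
    have hs1 : Sep K F₁ M P := hS1' P fun h => hv (Finset.mem_union_left _ h)
    have hs2 : Sep K F₂ M P := hS2' P fun h => hv (Finset.mem_union_right _ h)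
    obtain ⟨σ, hσ⟩ := exists_fr (K := K) P
    rw [hBIJ K F₁ M hM1 P σ hσ hs1 f₁, hBIJ K F₂ M hM2 P σ hσ hs2 f₂]
    refine (sum_orb σ e (fun φ => f₁ (pl φ P)) (fun φ => f₂ (pl φ P))).trans ?_
    refine Finset.sum_congr rfl fun j _ => ?_
    have hs : Sep K (LL (e j).out.1 (e j).out.2) M P := sep_of _ _ (gen_LL _ _) P hs1 hs2
    exact (hBIJ K (LL (e j).out.1 (e j).out.2) M ⟨(LL (e j).out.1 (e j).out.2).val⟩ P σ hσ hs
      (fun w => f₁ (pl (al (e j).out.1 (e j).out.2) w) *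
        f₂ (pl (be (e j).out.1 (e j).out.2) w))).symm

end Pool.Agent.Lib.MP_bf61d2_nt.Artin.Ray
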