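import Mathlib
import Pool.Agent.Lib.MP_bf61d2_nt.Trim.Artin.MO.CPL93
import Pool.Agent.Lib.MP_bf61d2_nt.Trim.Artin.MO.StmtsG63
import Pool.Agent.Lib.MP_bf61d2_nt.Trim.Artin.MO.StmtsM63
import Pool.Agent.Lib.MP_bf61d2_nt.Trim.Artin.UK.StmtsU84
import Pool.Agent.Lib.MP_bf61d2_nt.Trim.Perm.Frob
import Pool.Agent.Lib.MP_bf61d2_nt.Trim.Places
import Pool.Agent.Lib.MP_bf61d2_nt.Trim.Quad

set_option autoImplicit false

/-!
MONO (MP_bf61d2_nt), module CPLG: CPL with pairwise non isomorphic composita.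
-/

namespace NumberField
end NumberField

namespace Pool.Agent.Lib.MP_bf61d2_nt.Zeta
end Pool.Agent.Lib.MP_bf61d2_nt.Zeta

namespace Pool.Agent.Lib.MP_bf61d2_nt.Perm
end Pool.Agent.Lib.MP_bf61d2_nt.Perm

namespace Pool.Agent.Lib.MP_bf61d2_nt.Artin.Ray.CPL93
end Pool.Agent.Lib.MP_bf61d2_nt.Artin.Ray.CPL93

namespace Pool.Agent.Lib.MP_bf61d2_nt.Artin.Ray

open NumberField IsDedekindDomain Module

open Pool.Agent.Lib.MP_bf61d2_nt.Zeta Pool.Agent.Lib.MP_bf61d2_nt.Perm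

open scoped Classical

universe u

open CPL93 in
/-- CPLG. -/
theorem stCPLG_of (n : ℕ) (hBIJ : StBIJ.{u}) (hCLO : StCLO.{u}) (hBAD : ∀ k, StBAD.{u} k) :
    StCPLG.{u} n := by
  choose A hA0 hA using hBAD
  have hle : ∀ k ≤ n, A k ≤ ∑ k ∈ Finset.range (n + 1), A k := fun k hk =>
    Finset.single_le_sum (f := A) (fun i _ => hA0 i) (Finset.mem_range.2 (by omega))
  refine ⟨2 * ∑ k ∈ Finset.range (n + 1), A k,
    mul_nonneg two_pos.le (Finset.sum_nonneg fun k _ => hA0 k), ?_⟩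
  intro K F₁ F₂ _ _ _ _ _ _ _ _ h1 h2
  obtain ⟨M, _, _, _, hG, hM1, hM2⟩ := hCLO K F₁ F₂
  obtain ⟨S₁, hS1, hS1'⟩ := hA (finrank ℚ F₁) K F₁ M rfl
  obtain ⟨S₂, hS2, hS2'⟩ := hA (finrank ℚ F₂) K F₂ M rfl
  have hf1 : FiniteDimensional K F₁ := Module.Finite.of_restrictScalars_finite ℚ K F₁
  have hf2 : FiniteDimensional K F₂ := Module.Finite.of_restrictScalars_finite ℚ K F₂
  have hfM : FiniteDimensional K M := Module.Finite.of_restrictScalars_finite ℚ K M
  have hfin : Finite (Quotient (st K F₁ F₂ M)) := Quotient.finite _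
  set e : Fin (Nat.card (Quotient (st K F₁ F₂ M))) ≃ Quotient (st K F₁ F₂ M) :=
    (Finite.equivFin _).symm with he
  refine ⟨Nat.card (Quotient (st K F₁ F₂ M)), fun j =>
    { L := LL (e j).out.1 (e j).out.2
      α := al (e j).out.1 (e j).out.2
      β := be (e j).out.1 (e j).out.2
      gen := gen_LL _ _ }, S₁ ∪ S₂, card_le n h1 h2, fun j => deg_le n h1 h2 _ _, ?_, ?_, ?_⟩
  · rintro i j ⟨f, hf1, hf2⟩
    have k1 : ((LL (e j).out.1 (e j).out.2).val.comp
        (f : LL (e i).out.1 (e i).out.2 →ₐ[K] LL (e j).out.1 (e j).out.2)).comp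
        (al (e i).out.1 (e i).out.2) =
        (LL (e j).out.1 (e j).out.2).val.comp (al (e j).out.1 (e j).out.2) := by
      rw [AlgHom.comp_assoc]
      exact congrArg (fun z => (LL (e j).out.1 (e j).out.2).val.comp z) hf1
    have k2 : ((LL (e j).out.1 (e j).out.2).val.comp
        (f : LL (e i).out.1 (e i).out.2 →ₐ[K] LL (e j).out.1 (e j).out.2)).comp
        (be (e i).out.1 (e i).out.2) =
        (LL (e j).out.1 (e j).out.2).val.comp (be (e j).out.1 (e j).out.2) := by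
      rw [AlgHom.comp_assoc]
      exact congrArg (fun z => (LL (e j).out.1 (e j).out.2).val.comp z) hf2
    apply e.injective
    rw [← Quotient.out_equiv_out]
    exact inj_aux _ _ k1 k2
  · have hd1 : 1 ≤ dK F₁ := by
      have h : 1 ≤ |discr F₁| := Int.one_le_abs (discr_ne_zero F₁)
      rw [dK]
      exact_mod_cast h
    have hd2 : 1 ≤ dK F₂ := by
      have h : 1 ≤ |discr F₂| := Int.one_le_abs (discr_ne_zero F₂)
      rw [dK]
      exact_mod_cast h
    set B : ℝ := ∑ k ∈ Finset.range (n + 1), A k with hB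
    have hB0 : 0 ≤ B := Finset.sum_nonneg fun k _ => hA0 k
    have hlog : ∀ v : HeightOneSpectrum (𝓞 K), 0 ≤ Real.log (nm v) := fun v =>
      Real.log_nonneg (by exact_mod_cast (one_lt_nm v).le)
    have l1 : Real.log (20 * dK F₁) ≤ Real.log (20 * (dK F₁ * dK F₂)) := by
      apply Real.log_le_log (by positivity)
      nlinarith
    have l2 : Real.log (20 * dK F₂) ≤ Real.log (20 * (dK F₁ * dK F₂)) := by
      apply Real.log_le_log (by positivity)
      nlinarith
    have l0 : 0 ≤ Real.log (20 * (dK F₁ * dK F₂)) := by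
      apply Real.log_nonneg
      nlinarith
    calc ∑ v ∈ S₁ ∪ S₂, Real.log (nm v) ≤
        ∑ v ∈ S₁ ∪ S₂, Real.log (nm v) + ∑ v ∈ S₁ ∩ S₂, Real.log (nm v) :=
          le_add_of_nonneg_right (Finset.sum_nonneg fun v _ => hlog v)
      _ = ∑ v ∈ S₁, Real.log (nm v) + ∑ v ∈ S₂, Real.log (nm v) := Finset.sum_union_inter
      _ ≤ B * Real.log (20 * (dK F₁ * dK F₂)) + B * Real.log (20 * (dK F₁ * dK F₂)) := by
          refine add_le_add (hS1.trans ?_) (hS2.trans ?_)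
          · exact (mul_le_mul_of_nonneg_left l1 (hA0 _)).trans
              (mul_le_mul_of_nonneg_right (hle _ h1) l0)
          · exact (mul_le_mul_of_nonneg_left l2 (hA0 _)).trans
              (mul_le_mul_of_nonneg_right (hle _ h2) l0)
      _ = 2 * B * Real.log (20 * (dK F₁ * dK F₂)) := by ring
  · intro v hv f₁ f₂
    obtain ⟨P, rfl⟩ := exists_dn_eq (K := K) (F := M) v
    have hs1 : Sep K F₁ M P := hS1' P fun h => hv (Finset.mem_union_left _ h)
    have hs2 : Sep K F₂ M P := hS2' P fun h => hv (Finset.mem_union_right _ h)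
    obtain ⟨σ, hσ⟩ := exists_fr (K := K) P
    rw [hBIJ K F₁ M hM1 P σ hσ hs1 f₁, hBIJ K F₂ M hM2 P σ hσ hs2 f₂]
    refine (sum_orb σ e (fun φ => f₁ (pl φ P)) (fun φ => f₂ (pl φ P))).trans ?_
    refine Finset.sum_congr rfl fun j _ => ?_
    have hs : Sep K (LL (e j).out.1 (e j).out.2) M P := sep_of _ _ (gen_LL _ _) P hs1 hs2
    exact (hBIJ K (LL (e j).out.1 (e j).out.2) M ⟨(LL (e j).out.1 (e j).out.2).val⟩ P σ hσ hs
      (fun w => f₁ (pl (al (e j).out.1 (e j).out.2) w) *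
        f₂ (pl (be (e j).out.1 (e j).out.2) w))).symm

end Pool.Agent.Lib.MP_bf61d2_nt.Artin.Ray
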