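import Mathlib
import Pool.Agent.Lib.MP_bf61d2_nt.Trim.Artin.U2.SHORT33

set_option autoImplicit false

/-!
MONO (MP_bf61d2_nt), module M4: the discriminant of a compositum.
-/

namespace NumberField
end NumberField

namespace Pool.Agent.Lib.MP_bf61d2_nt.Artin.Ray

open NumberField NumberField.InfinitePlace Module

open scoped nonZeroDivisors IntermediateField Matrix

universe u

section

variable (L : Type u) [Field L] [NumberField L]

/-- The discriminant of a field is at most the discriminant of any basis of algebraic integers. -/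
lemma discr_le_of_basis33 {ι : Type*} [Fintype ι] [DecidableEq ι] (b : Basis ι ℚ L)
    (hb : ∀ i, IsIntegral ℤ (b i)) :
    |((discr L : ℤ) : ℝ)| ≤ |((Algebra.discr ℚ b : ℚ) : ℝ)| := by
  classical
  let e : Free.ChooseBasisIndex ℤ (𝓞 L) ≃ ι := ((integralBasis L).indexEquiv b)
  let c : Basis ι ℚ L := (integralBasis L).reindex e
  have hc : Algebra.discr ℚ c = (discr L : ℚ) := by
    rw [Basis.coe_reindex, Algebra.discr_reindex, coe_discr]
  have hint : ∀ i j, ∃ m : ℤ, (m : ℚ) = c.toMatrix b i j := by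
    intro i j
    rw [Basis.toMatrix_apply]
    obtain ⟨z, hz⟩ : ∃ z : 𝓞 L, (algebraMap (𝓞 L) L) z = b j := ⟨⟨b j, hb j⟩, rfl⟩
    refine ⟨(RingOfIntegers.basis L).repr z (e.symm i), ?_⟩
    rw [← hz, Basis.repr_reindex_apply, integralBasis_repr_apply L z (e.symm i)]
    simp
  choose m hm using hint
  let P : Matrix ι ι ℤ := Matrix.of m
  have hP : c.toMatrix b = P.map (algebraMap ℤ ℚ) := by
    ext i j
    rw [Matrix.map_apply, ← hm i j]
    simp [P]
  have h1 : Algebra.discr ℚ b = (P.det : ℚ) ^ 2 * (discr L : ℚ) := by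
    rw [← hc]
    have h2 : (b : ι → L) = ((c : ι → L) ᵥ* (c.toMatrix b).map (algebraMap ℚ L)) := by
      ext j
      have h3 := c.sum_toMatrix_smul_self b j
      rw [← h3, Matrix.vecMul, dotProduct]
      refine Finset.sum_congr rfl fun i _ => ?_
      rw [Matrix.map_apply, Algebra.smul_def, mul_comm]
    conv_lhs => rw [h2]
    rw [Algebra.discr_of_matrix_vecMul]
    congr 2
    rw [hP, ← RingHom.mapMatrix_apply, ← RingHom.map_det]
    simp
  have h4 : P.det ≠ 0 := by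
    intro h
    rw [h] at h1
    exact Algebra.discr_not_zero_of_basis ℚ b (by rw [h1]; simp)
  have h5 : (1 : ℝ) ≤ |((P.det : ℤ) : ℝ)| := by
    have := Int.one_le_abs h4
    exact_mod_cast this
  rw [h1, Rat.cast_mul, Rat.cast_pow, Rat.cast_intCast, Rat.cast_intCast, abs_mul, abs_pow]
  have h6 : (1 : ℝ) ≤ |((P.det : ℤ) : ℝ)| ^ 2 := one_le_pow₀ h5
  nlinarith [abs_nonneg ((discr L : ℤ) : ℝ)]

/-- Bound for the discriminant of a basis by its conjugates. -/
lemma discr_basis_le33 {ι : Type*} [Fintype ι] [DecidableEq ι] (b : Basis ι ℚ L)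
    {M : ℝ} (hM : ∀ (σ : L →+* ℂ) i, ‖σ (b i)‖ ≤ M) :
    |((Algebra.discr ℚ b : ℚ) : ℝ)| ≤
      ((Fintype.card ι).factorial * M ^ Fintype.card ι) ^ 2 := by
  classical
  have hcard : Fintype.card ι = Fintype.card (L →ₐ[ℚ] ℂ) := by
    rw [AlgHom.card, ← finrank_eq_card_basis b]
  let e : ι ≃ (L →ₐ[ℚ] ℂ) := Fintype.equivOfCardEq hcard
  have h := Algebra.discr_eq_det_embeddingsMatrixReindex_pow_two ℚ ℂ b e
  have h1 : |((Algebra.discr ℚ b : ℚ) : ℝ)| =
      ‖(Algebra.embeddingsMatrixReindex ℚ ℂ b e).det‖ ^ 2 := by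
    rw [← norm_pow, ← h]
    simp
  have h2 : ‖(Algebra.embeddingsMatrixReindex ℚ ℂ b e).det‖ ≤
      (Fintype.card ι).factorial • M ^ Fintype.card ι := by
    have := Matrix.det_le (A := Algebra.embeddingsMatrixReindex ℚ ℂ b e)
      (abv := NormedField.toAbsoluteValue ℂ) (x := M) (fun i j => by
        exact hM ((e j : L →ₐ[ℚ] ℂ) : L →+* ℂ) i)
    exact this
  rw [h1]
  rw [nsmul_eq_mul] at h2
  exact pow_le_pow_left₀ (norm_nonneg _) h2 2

end

/-- A field generated by one element is spanned by its powers. -/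
lemma span_pow33 (F : Type u) [Field F] [NumberField F] (θ : F) (hθ : ℚ⟮θ⟯ = ⊤) {n : ℕ}
    (hn : finrank ℚ F ≤ n) :
    Submodule.span ℚ (Set.range fun a : Fin n => θ ^ (a : ℕ)) = ⊤ := by
  have hint : IsIntegral ℚ θ := Algebra.IsIntegral.isIntegral θ
  have hadj : Algebra.adjoin ℚ {θ} = ⊤ := by
    rw [← IntermediateField.adjoin_simple_toSubalgebra_of_isAlgebraic hint.isAlgebraic, hθ,
      IntermediateField.top_toSubalgebra]
  let B := PowerBasis.ofAdjoinEqTop hint hadj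
  have hdim : B.dim ≤ n := by
    rw [← PowerBasis.finrank]
    exact hn
  rw [eq_top_iff, ← B.basis.span_eq, Submodule.span_le]
  rintro _ ⟨i, rfl⟩
  refine Submodule.subset_span ⟨⟨i, i.2.trans_le hdim⟩, ?_⟩
  rw [B.coe_basis, PowerBasis.ofAdjoinEqTop_gen]

/-- Module M4: the discriminant of a field spanned by the products of two subfields. -/
theorem disc33 (n : ℕ) : ∃ C : ℝ, 1 ≤ C ∧ ∃ k : ℕ,
    ∀ (F₁ F₂ L : Type u) [Field F₁] [NumberField F₁] [Field F₂] [NumberField F₂]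
      [Field L] [NumberField L] (x : F₁ →+* L) (y : F₂ →+* L),
      finrank ℚ F₁ ≤ n → finrank ℚ F₂ ≤ n →
      Submodule.span ℚ (Set.range fun p : F₁ × F₂ => x p.1 * y p.2) = ⊤ →
      |((discr L : ℤ) : ℝ)| ≤ C * (|((discr F₁ : ℤ) : ℝ)| * |((discr F₂ : ℤ) : ℝ)|) ^ k := by
  choose Cf hCf1 hCf using hermite33.{u}
  -- the constant
  set C₁ : ℝ := 1 + ∑ i ∈ Finset.range (n + 1), Cf i with hC₁
  have hsum0 : (0 : ℝ) ≤ ∑ i ∈ Finset.range (n + 1), Cf i :=
    Finset.sum_nonneg fun i _ => zero_le_one.trans (hCf1 i)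
  have hC₁1 : 1 ≤ C₁ := by linarith
  have hCle : ∀ i ≤ n, Cf i ≤ C₁ := by
    intro i hi
    have := Finset.single_le_sum (f := Cf) (s := Finset.range (n + 1))
      (fun i _ => zero_le_one.trans (hCf1 i)) (Finset.mem_range.2 (Nat.lt_succ_of_le hi))
    linarith
  refine ⟨((n * n).factorial * ((C₁ ^ 2) ^ n) ^ (n * n)) ^ 2, ?_, 2 * (n * (n * n)), ?_⟩
  · have h1 : (1 : ℝ) ≤ ((n * n).factorial : ℝ) := by
      exact_mod_cast Nat.one_le_iff_ne_zero.2 (Nat.factorial_ne_zero _)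
    have h2 : (1 : ℝ) ≤ ((C₁ ^ 2) ^ n) ^ (n * n) := one_le_pow₀ (one_le_pow₀ (one_le_pow₀ hC₁1))
    exact one_le_pow₀ (one_le_mul_of_one_le_of_one_le h1 h2)
  intro F₁ F₂ L _ _ _ _ _ _ x y hn₁ hn₂ hspan
  classical
  set D₁ : ℝ := |((discr F₁ : ℤ) : ℝ)| with hD₁
  set D₂ : ℝ := |((discr F₂ : ℤ) : ℝ)| with hD₂
  have hD₁1 : 1 ≤ Real.sqrt D₁ := one_le_sqrt_discr33 F₁
  have hD₂1 : 1 ≤ Real.sqrt D₂ := one_le_sqrt_discr33 F₂
  obtain ⟨θ₁, hθ₁, hw₁⟩ := hCf (finrank ℚ F₁) F₁ rfl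
  obtain ⟨θ₂, hθ₂, hw₂⟩ := hCf (finrank ℚ F₂) F₂ rfl
  -- the power bases
  have hspan₁ : Submodule.span ℚ (Set.range fun a : Fin n => (θ₁ : F₁) ^ (a : ℕ)) = ⊤ :=
    span_pow33 F₁ _ hθ₁ hn₁
  have hspan₂ : Submodule.span ℚ (Set.range fun a : Fin n => (θ₂ : F₂) ^ (a : ℕ)) = ⊤ :=
    span_pow33 F₂ _ hθ₂ hn₂
  let g : Fin n × Fin n → L := fun a => x ((θ₁ : F₁) ^ (a.1 : ℕ)) * y ((θ₂ : F₂) ^ (a.2 : ℕ))
  have hg : Submodule.span ℚ (Set.range g) = ⊤ := by
    rw [eq_top_iff, ← hspan, Submodule.span_le]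
    rintro _ ⟨⟨u, v⟩, rfl⟩
    have hu : x u ∈ Submodule.span ℚ
        (Set.range fun a : Fin n => x ((θ₁ : F₁) ^ (a : ℕ))) := by
      have h1 : u ∈ Submodule.span ℚ (Set.range fun a : Fin n => (θ₁ : F₁) ^ (a : ℕ)) := by
        rw [hspan₁]; trivial
      have h2 := Submodule.mem_map_of_mem (f := (x.toRatAlgHom.toLinearMap)) h1
      rw [Submodule.map_span, ← Set.range_comp] at h2
      exact h2
    have hv : y v ∈ Submodule.span ℚ
        (Set.range fun a : Fin n => y ((θ₂ : F₂) ^ (a : ℕ))) := by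
      have h1 : v ∈ Submodule.span ℚ (Set.range fun a : Fin n => (θ₂ : F₂) ^ (a : ℕ)) := by
        rw [hspan₂]; trivial
      have h2 := Submodule.mem_map_of_mem (f := (y.toRatAlgHom.toLinearMap)) h1
      rw [Submodule.map_span, ← Set.range_comp] at h2
      exact h2
    have h3 := Submodule.mul_mem_mul hu hv
    rw [Submodule.span_mul_span] at h3
    refine Submodule.span_mono ?_ h3
    rintro _ ⟨_, ⟨a, rfl⟩, _, ⟨b, rfl⟩, rfl⟩
    exact ⟨(a, b), rfl⟩
  -- conjugates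
  have hC₁0 : 0 ≤ C₁ := zero_le_one.trans hC₁1
  have hconj : ∀ (F : Type u) [Field F] [NumberField F] (θ : 𝓞 F) (z : F →+* L)
      (_ : finrank ℚ F ≤ n)
      (_ : ∀ w : InfinitePlace F, w (θ : F) ≤
        Cf (finrank ℚ F) * Real.sqrt |((discr F : ℤ) : ℝ)|)
      (σ : L →+* ℂ) (a : Fin n), ‖σ (z ((θ : F) ^ (a : ℕ)))‖ ≤
        (C₁ * Real.sqrt |((discr F : ℤ) : ℝ)|) ^ n := by
    intro F _ _ θ z hn hw σ a
    have h1 : ‖σ (z (θ : F))‖ ≤ C₁ * Real.sqrt |((discr F : ℤ) : ℝ)| := by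
      have h2 := hw (InfinitePlace.mk (σ.comp z))
      rw [InfinitePlace.apply] at h2
      refine h2.trans ?_
      gcongr
      exact hCle _ hn
    have h3 : 1 ≤ C₁ * Real.sqrt |((discr F : ℤ) : ℝ)| :=
      one_le_mul_of_one_le_of_one_le hC₁1 (one_le_sqrt_discr33 F)
    rw [map_pow, map_pow, norm_pow]
    calc ‖σ (z (θ : F))‖ ^ (a : ℕ) ≤ (C₁ * Real.sqrt |((discr F : ℤ) : ℝ)|) ^ (a : ℕ) := by
          gcongr
      _ ≤ _ := pow_le_pow_right₀ h3 a.2.le
  have hg1 : ∀ (σ : L →+* ℂ) a, ‖σ (g a)‖ ≤ ((C₁ ^ 2) ^ n * (D₁ * D₂) ^ n) := by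
    intro σ a
    have h1 := hconj F₁ θ₁ x hn₁ hw₁ σ a.1
    have h2 := hconj F₂ θ₂ y hn₂ hw₂ σ a.2
    have h3 : ‖σ (g a)‖ ≤ (C₁ * Real.sqrt D₁) ^ n * (C₁ * Real.sqrt D₂) ^ n := by
      simp only [g]
      rw [map_mul, norm_mul]
      exact mul_le_mul h1 h2 (norm_nonneg _) (by positivity)
    refine h3.trans ?_
    have h4 : Real.sqrt D₁ ≤ D₁ := by
      rw [Real.sqrt_le_left (by positivity)]
      have : 1 ≤ D₁ := by
        by_contra hh
        push Not at hh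
        have := Real.sqrt_lt_sqrt (abs_nonneg _) hh
        rw [Real.sqrt_one] at this
        linarith
      nlinarith
    have h5 : Real.sqrt D₂ ≤ D₂ := by
      rw [Real.sqrt_le_left (by positivity)]
      have : 1 ≤ D₂ := by
        by_contra hh
        push Not at hh
        have := Real.sqrt_lt_sqrt (abs_nonneg _) hh
        rw [Real.sqrt_one] at this
        linarith
      nlinarith
    calc (C₁ * Real.sqrt D₁) ^ n * (C₁ * Real.sqrt D₂) ^ n
        ≤ (C₁ * D₁) ^ n * (C₁ * D₂) ^ n := by gcongr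
      _ = _ := by
        rw [← mul_pow, ← mul_pow]
        congr 1
        ring
  have hgint : ∀ a, IsIntegral ℤ (g a) := by
    intro a
    simp only [g, map_pow]
    exact ((map_isIntegral_int x θ₁.isIntegral_coe).pow _).mul
      ((map_isIntegral_int y θ₂.isIntegral_coe).pow _)
  have hD₁' : 1 ≤ D₁ := by
    by_contra hh
    push Not at hh
    have := Real.sqrt_lt_sqrt (abs_nonneg _) hh
    rw [Real.sqrt_one] at this
    linarith
  have hD₂' : 1 ≤ D₂ := by
    by_contra hh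
    push Not at hh
    have := Real.sqrt_lt_sqrt (abs_nonneg _) hh
    rw [Real.sqrt_one] at this
    linarith
  obtain ⟨κ, a, ha, hsp, hli⟩ := exists_linearIndependent' ℚ g
  have : Finite κ := Finite.of_injective a ha
  let _ : Fintype κ := Fintype.ofFinite κ
  let b : Basis κ ℚ L := Basis.mk hli (by rw [hsp, hg])
  have hb : ∀ i, b i = g (a i) := fun i => by simp [b]
  have hcard : Fintype.card κ ≤ n * n := by
    have := Fintype.card_le_of_injective a ha
    simpa using this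
  have hX1 : 1 ≤ (C₁ ^ 2) ^ n * (D₁ * D₂) ^ n :=
    one_le_mul_of_one_le_of_one_le (one_le_pow₀ (one_le_pow₀ hC₁1))
      (one_le_pow₀ (one_le_mul_of_one_le_of_one_le hD₁' hD₂'))
  calc |((discr L : ℤ) : ℝ)| ≤ |((Algebra.discr ℚ b : ℚ) : ℝ)| :=
        discr_le_of_basis33 L b fun i => by rw [hb]; exact hgint _
    _ ≤ ((Fintype.card κ).factorial * ((C₁ ^ 2) ^ n * (D₁ * D₂) ^ n) ^ Fintype.card κ) ^ 2 :=
        discr_basis_le33 L b fun σ i => by rw [hb]; exact hg1 _ _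
    _ ≤ ((n * n).factorial * ((C₁ ^ 2) ^ n * (D₁ * D₂) ^ n) ^ (n * n)) ^ 2 := by
        refine pow_le_pow_left₀ (by positivity) ?_ 2
        refine mul_le_mul ?_ (pow_le_pow_right₀ hX1 hcard) (by positivity) (by positivity)
        exact_mod_cast Nat.factorial_le hcard
    _ = ((n * n).factorial * ((C₁ ^ 2) ^ n) ^ (n * n)) ^ 2 *
          (D₁ * D₂) ^ (2 * (n * (n * n))) := by
        rw [mul_pow ((C₁ ^ 2) ^ n) ((D₁ * D₂) ^ n)]
        ring

end Pool.Agent.Lib.MP_bf61d2_nt.Artin.Ray
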