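import Mathlib
import Pool.Agent.Lib.MP_bf61d2_nt.Trim.Artin.Defs63
import Pool.Agent.Lib.MP_bf61d2_nt.Trim.Artin.H.BASH36
import Pool.Agent.Lib.MP_bf61d2_nt.Trim.Artin.H.CLOH36
import Pool.Agent.Lib.MP_bf61d2_nt.Trim.Artin.H.DefsH
import Pool.Agent.Lib.MP_bf61d2_nt.Trim.Artin.H.StmtsH
import Pool.Agent.Lib.MP_bf61d2_nt.Trim.Artin.L.ONEL63
import Pool.Agent.Lib.MP_bf61d2_nt.Trim.Artin.L.StmtsL63
import Pool.Agent.Lib.MP_bf61d2_nt.Trim.Artin.MO.A1L63
import Pool.Agent.Lib.MP_bf61d2_nt.Trim.Artin.MO.StmtsM63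
import Pool.Agent.Lib.MP_bf61d2_nt.Trim.Artin.R.DefsR
import Pool.Agent.Lib.MP_bf61d2_nt.Trim.Artin.UK.ONELU63
import Pool.Agent.Lib.MP_bf61d2_nt.Trim.Artin.UK.StmtsU84
import Pool.Agent.Lib.MP_bf61d2_nt.Trim.Perm.Frob
import Pool.Agent.Lib.MP_bf61d2_nt.Trim.Places
import Pool.Agent.Lib.MP_bf61d2_nt.Trim.Quad

set_option autoImplicit false

/-!
MONO (MP_bf61d2_nt), module GRM: the one sided bound of the entries of the matrix of Gram.
-/

namespace NumberField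
end NumberField

namespace Pool.Agent.Lib.MP_bf61d2_nt.Zeta
end Pool.Agent.Lib.MP_bf61d2_nt.Zeta

namespace Pool.Agent.Lib.MP_bf61d2_nt.Perm
end Pool.Agent.Lib.MP_bf61d2_nt.Perm

namespace Pool.Agent.Lib.MP_bf61d2_nt.Artin.Ray

open NumberField IsDedekindDomain Module

open Pool.Agent.Lib.MP_bf61d2_nt.Zeta Pool.Agent.Lib.MP_bf61d2_nt.Perm

open scoped Classical

universe u

lemma absNorm_le_Z63 {K : Type u} [Field K] [NumberField K] {𝔪 : Ideal (𝓞 K)} {Z : ℕ}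
    {ψ : Ideal (𝓞 K) →*₀ ℂ} (h : IsHk 𝔪 Z ψ) : 1 ≤ Z := by
  obtain ⟨hm, a, b, -, h2⟩ := h
  have hm1 : (1 : ℝ) ≤ Ideal.absNorm 𝔪 := by
    have : Ideal.absNorm 𝔪 ≠ 0 := by
      rw [Ne, Ideal.absNorm_eq_zero_iff]
      exact hm
    exact_mod_cast Nat.one_le_iff_ne_zero.mpr this
  have hsz : 1 ≤ sz a b := by
    rw [sz]
    have h1 : 0 ≤ ∑ w : {w : InfinitePlace K // w.IsComplex}, |(a w : ℝ)| :=
      Finset.sum_nonneg fun _ _ => abs_nonneg _
    have h2 : 0 ≤ ∑ w : InfinitePlace K, |b w| := Finset.sum_nonneg fun _ _ => abs_nonneg _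
    linarith
  have : (1 : ℝ) ≤ Z := (one_le_mul_of_one_le_of_one_le hm1 hsz).trans h2
  exact_mod_cast this

/-- **MONO, module GRM.** -/
theorem stGRM_of (n : ℕ) (hCPL : StCPL.{u} n) (hDSC : StDSC.{u} n) (hNRM : StNRM.{u})
    (hNRP : StNRP.{u}) (hDEG : ∀ N, StDEG.{u} N) (hONE : ∀ N, StONELU.{u} N)
    (hRES : ∀ (L : Type u) [Field L] [NumberField L], StRESH L) : StGRM.{u} n := by
  obtain ⟨A₁, hA₁, hcpl⟩ := hCPL
  obtain ⟨A₂, k₂, hA₂, hdsc⟩ := hDSC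
  choose A₃ hA₃ hdeg using hDEG
  choose A₄ hA₄ hone using hONE
  set D : ℕ := n ^ 2 with hD
  set B₃ : ℝ := ∑ N ∈ Finset.range (D + 1), A₃ N with hB₃
  set B₄ : ℝ := ∑ N ∈ Finset.range (D + 1), A₄ N with hB₄
  have hB₃0 : 0 ≤ B₃ := Finset.sum_nonneg fun N _ => hA₃ N
  have hB₄0 : 0 ≤ B₄ := Finset.sum_nonneg fun N _ => hA₄ N
  have hle₃ : ∀ N, N ≤ D → A₃ N ≤ B₃ := fun N hN =>
    Finset.single_le_sum (f := A₃) (fun N _ => hA₃ N) (Finset.mem_range.mpr (by omega))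
  have hle₄ : ∀ N, N ≤ D → A₄ N ≤ B₄ := fun N hN =>
    Finset.single_le_sum (f := A₄) (fun N _ => hA₄ N) (Finset.mem_range.mpr (by omega))
  have hlA₂ : 0 ≤ Real.log A₂ := Real.log_nonneg hA₂
  have hlD : 0 ≤ Real.log (D + 1) := Real.log_nonneg (by
    have : (0 : ℝ) ≤ D := Nat.cast_nonneg D
    linarith)
  set C₅ : ℝ := Real.log A₂ + 2 * k₂ + 2 * D * (Real.log (D + 1) + 1) + 3 with hC₅
  have hC₅0 : 0 ≤ C₅ := by positivity
  set B : ℝ := n * n + D * D with hB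
  have hB0 : 0 ≤ B := by positivity
  refine ⟨3 * (B * A₁) + D * B₃ + D * (B₄ * C₅), by positivity, ?_⟩
  intro K F₁ F₂ _ _ _ _ _ _ _ _ hn₁ hn₂ Q hQ hd₁ hd₂ 𝔪₁ Z₁ ψ₁ 𝔪₂ Z₂ ψ₂ hk₁ hk₂ hZ₁ hZ₂ x u hx hx1 hu
  obtain ⟨J, C, S, hJ, hL, huniq, hS, hprod⟩ := hcpl K F₁ F₂ hn₁ hn₂
  have hQ0 : (0 : ℝ) < Q := by linarith
  have hlQ : 1 ≤ Real.log Q := by
    rw [Real.le_log_iff_exp_le hQ0]
    have := Real.exp_one_lt_d9
    linarith
  have hn1 : 1 ≤ n := le_trans (finrank_pos (R := ℚ) (M := F₁)) hn₁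
  have hD1 : 1 ≤ D := Nat.one_le_pow _ _ hn1
  have hψ₁ : ∀ I, ‖ψ₁ I‖ ≤ 1 := isHk_norm_le hk₁
  have hψ₂ : ∀ I, ‖ψ₂ I‖ ≤ 1 := isHk_norm_le hk₂
  -- the characters on the composita
  have hkC : ∀ j, IsHk (cmd (C j) 𝔪₁ 𝔪₂) ((D * Z₁) ^ D * (D * Z₂) ^ D) (cpx (C j) ψ₁ ψ₂) :=
    fun j => isHk_mul (hNRM _ _ _ _ _ _ hk₁ D (hL j)) (isHk_cj (hNRM _ _ _ _ _ _ hk₂ D (hL j)))
  have hcp1 : ∀ j (w : HeightOneSpectrum (𝓞 (C j).L)), ‖cpx (C j) ψ₁ ψ₂ w.asIdeal‖ ≤ 1 :=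
    fun j w => isHk_norm_le (hkC j) _
  have hdC : ∀ j, dK (C j).L ≤ A₂ * (Q ^ 2) ^ k₂ := fun j => by
    refine (hdsc K F₁ F₂ (C j) hn₁ hn₂).trans ?_
    have h1 := one_le_dK63 F₁
    have h2 := one_le_dK63 F₂
    have h3 : dK F₁ * dK F₂ ≤ Q ^ 2 := by
      rw [sq]
      exact mul_le_mul hd₁ hd₂ (by linarith) hQ0.le
    have h4 : 0 ≤ dK F₁ * dK F₂ := by positivity
    have h5 := pow_le_pow_left₀ h4 h3 k₂
    exact mul_le_mul_of_nonneg_left h5 (by linarith)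
  -- the size of the logarithm
  have hZ₁1 := absNorm_le_Z63 hk₁
  have hZ₂1 := absNorm_le_Z63 hk₂
  have hlog : ∀ j, Real.log (dK (C j).L * ((((D * Z₁) ^ D * (D * Z₂) ^ D : ℕ) : ℝ) *
      (|u| + 20))) ≤ C₅ * Real.log Q := by
    intro j
    have h1 := one_le_dK63 (C j).L
    have hDr : (1 : ℝ) ≤ D := by exact_mod_cast hD1
    have hz : ∀ Z : ℕ, 1 ≤ Z → (Z : ℝ) ≤ Q → (1 : ℝ) ≤ D * Z ∧
        Real.log (D * Z) ≤ (Real.log (D + 1) + 1) * Real.log Q := by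
      intro Z hZ hZQ
      have hZr : (1 : ℝ) ≤ Z := by exact_mod_cast hZ
      refine ⟨one_le_mul_of_one_le_of_one_le hDr hZr, ?_⟩
      rw [Real.log_mul (by positivity) (by positivity)]
      have e1 : Real.log D ≤ Real.log (D + 1) * Real.log Q := by
        have e2 : Real.log D ≤ Real.log (D + 1) := Real.log_le_log (by linarith) (by linarith)
        exact e2.trans (le_mul_of_one_le_right (Real.log_nonneg (by linarith)) hlQ)
      have e3 : Real.log Z ≤ Real.log Q := Real.log_le_log (by linarith) hZQ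
      linarith
    obtain ⟨z1, z1'⟩ := hz Z₁ hZ₁1 hZ₁
    obtain ⟨z2, z2'⟩ := hz Z₂ hZ₂1 hZ₂
    have hu20 : |u| + 20 ≤ Q ^ 3 := by
      have h3 : (20 : ℝ) ≤ Q := hQ
      have h4 : |u| + 20 ≤ 3 * Q := by linarith
      have h5 : 3 * Q ≤ Q ^ 3 := by
        rw [show Q ^ 3 = Q * Q * Q by ring]
        exact mul_le_mul_of_nonneg_right ((show (3 : ℝ) ≤ Q by linarith only [hQ]).trans
          (le_mul_of_one_le_left hQ0.le (by linarith only [hQ]))) hQ0.le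
      exact h4.trans h5
    have hu0 : 0 < |u| + 20 := by positivity
    have e0 : Real.log (dK (C j).L * ((((D * Z₁) ^ D * (D * Z₂) ^ D : ℕ) : ℝ) * (|u| + 20))) =
        Real.log (dK (C j).L) + (D * Real.log (D * Z₁) + D * Real.log (D * Z₂) +
          Real.log (|u| + 20)) := by
      push_cast
      have p1 : (0 : ℝ) < (D * Z₁) ^ D := pow_pos (by linarith) _
      have p2 : (0 : ℝ) < (D * Z₂) ^ D := pow_pos (by linarith) _
      rw [Real.log_mul (by linarith) (by positivity), Real.log_mul (by positivity) (by positivity),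
        Real.log_mul p1.ne' p2.ne', Real.log_pow, Real.log_pow]
    rw [e0]
    have e1 : Real.log (dK (C j).L) ≤ Real.log A₂ + 2 * k₂ * Real.log Q := by
      have h3 := Real.log_le_log (by linarith) (hdC j)
      rw [Real.log_mul (by linarith) (by positivity), Real.log_pow, Real.log_pow] at h3
      push_cast at h3
      linarith
    have e2 : Real.log (|u| + 20) ≤ 3 * Real.log Q := by
      have h3 := Real.log_le_log hu0 hu20
      rwa [Real.log_pow] at h3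
    have e3 : (D : ℝ) * Real.log (D * Z₁) ≤ D * ((Real.log (D + 1) + 1) * Real.log Q) :=
      mul_le_mul_of_nonneg_left z1' (by linarith)
    have e4 : (D : ℝ) * Real.log (D * Z₂) ≤ D * ((Real.log (D + 1) + 1) * Real.log Q) :=
      mul_le_mul_of_nonneg_left z2' (by linarith)
    have e5 : Real.log A₂ ≤ Real.log A₂ * Real.log Q :=
      le_mul_of_one_le_right (Real.log_nonneg (by linarith)) hlQ
    rw [hC₅]
    linarith only [e1, e2, e3, e4, e5]
  -- the prime sums on the composita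
  set X : ℝ := x / (x ^ 2 + u ^ 2) with hX
  have hX0 : 0 ≤ X := by positivity
  have hpsl : ∀ j, (PSL (cpx (C j) ψ₁ ψ₂) x u).re ≤
      (if TR (cmd (C j) 𝔪₁ 𝔪₂) (cpx (C j) ψ₁ ψ₂) then X else 0) + B₄ * C₅ * Real.log Q := by
    intro j
    obtain ⟨h1, h2⟩ := hone _ (C j).L rfl _ _ _ (hkC j) x u hx hx1
    have h3 : A₄ (finrank ℚ (C j).L) * Real.log (dK (C j).L *
        ((((D * Z₁) ^ D * (D * Z₂) ^ D : ℕ) : ℝ) * (|u| + 20))) ≤ B₄ * C₅ * Real.log Q := by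
      have h4 := mul_le_mul_of_nonneg_left (hlog j) (hA₄ (finrank ℚ (C j).L))
      have h5 : A₄ (finrank ℚ (C j).L) * (C₅ * Real.log Q) ≤ B₄ * (C₅ * Real.log Q) :=
        mul_le_mul_of_nonneg_right (hle₄ _ (hL j)) (by positivity)
      linarith
    split_ifs with hT
    · linarith
    · rcases hRES (C j).L _ _ _ (hkC j) with h4 | h4
      · exact absurd h4 hT
      · have := h2 h4
        linarith
  -- the sums over the places of `K`
  have hdegj : ∀ j, ‖PSL (cpx (C j) ψ₁ ψ₂) x u -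
      WL x (fun v : HeightOneSpectrum (𝓞 K) =>
        A1 K (fun w => cpx (C j) ψ₁ ψ₂ w.asIdeal) v * ph u (nm v))‖ ≤ B₃ := fun j =>
    (hdeg _ K (C j).L rfl _ (hcp1 j) x u hx).trans (hle₃ _ (hL j))
  have hφ₁ : ∀ v : HeightOneSpectrum (𝓞 K), ‖A1 K (fun w => ψ₁ w.asIdeal) v‖ ≤ n :=
    norm_A1_le63 hn₁ fun w => hψ₁ _
  have hφ₂ : ∀ v : HeightOneSpectrum (𝓞 K), ‖A1 K (fun w => ψ₂ w.asIdeal) v‖ ≤ n :=
    norm_A1_le63 hn₂ fun w => hψ₂ _
  have hcj : ∀ (j : Fin J) (v : HeightOneSpectrum (𝓞 K)),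
      ‖A1 K (fun w => cpx (C j) ψ₁ ψ₂ w.asIdeal) v‖ ≤ D := fun j =>
    norm_A1_le63 (hL j) (hcp1 j)
  have hDn : (D : ℝ) = n * n := by rw [hD]; push_cast; ring
  have hkey : ∀ v, v ∉ S → A1 K (fun w => ψ₁ w.asIdeal) v *
      (starRingEnd ℂ) (A1 K (fun w => ψ₂ w.asIdeal) v) =
      ∑ j, A1 K (fun w => cpx (C j) ψ₁ ψ₂ w.asIdeal) v := by
    intro v hv
    rw [conj_A163, hprod v hv]
    refine Finset.sum_congr rfl fun j _ => A1_congr63 v fun w hw hw2 => ?_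
    rw [cpx]
    show _ = ψ₁ (rn _ w.asIdeal) * (starRingEnd ℂ) (ψ₂ (rn _ w.asIdeal))
    rw [hNRP K F₁ _ (C j).α w hw2, hNRP K F₂ _ (C j).β w hw2]
  have hmain : (WL x (fun v : HeightOneSpectrum (𝓞 K) => A1 K (fun w => ψ₁ w.asIdeal) v *
      (starRingEnd ℂ) (A1 K (fun w => ψ₂ w.asIdeal) v) * ph u (nm v))).re ≤
      (∑ j, if TR (cmd (C j) 𝔪₁ 𝔪₂) (cpx (C j) ψ₁ ψ₂) then X else 0) +
        (3 * (B * A₁) + D * B₃ + D * (B₄ * C₅)) * Real.log Q := by
    set G : HeightOneSpectrum (𝓞 K) → ℂ := fun v => A1 K (fun w => ψ₁ w.asIdeal) v *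
      (starRingEnd ℂ) (A1 K (fun w => ψ₂ w.asIdeal) v) * ph u (nm v) with hG
    set H : HeightOneSpectrum (𝓞 K) → ℂ := fun v =>
      ∑ j, A1 K (fun w => cpx (C j) ψ₁ ψ₂ w.asIdeal) v * ph u (nm v) with hH
    have hJr : (J : ℝ) ≤ D := by exact_mod_cast hJ
    have hHb : ∀ v, ‖H v‖ ≤ D * D := by
      intro v
      calc ‖H v‖ ≤ ∑ _j : Fin J, (D : ℝ) := by
            refine (norm_sum_le _ _).trans (Finset.sum_le_sum fun j _ => ?_)
            rw [norm_mul, norm_ph', mul_one]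
            exact hcj j v
        _ = J * D := by simp
        _ ≤ D * D := mul_le_mul_of_nonneg_right hJr (Nat.cast_nonneg _)
    have hdiff : ∀ v, ‖G v - H v‖ ≤ n * n + D * D := by
      intro v
      have h1 : ‖G v‖ ≤ n * n := by
        rw [hG]
        simp only
        rw [norm_mul, norm_ph', mul_one, norm_mul, RCLike.norm_conj]
        exact mul_le_mul (hφ₁ v) (hφ₂ v) (norm_nonneg _) (Nat.cast_nonneg _)
      exact (norm_sub_le _ _).trans (add_le_add h1 (hHb v))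
    have hGH : ∀ v, v ∉ S → G v - H v = 0 := by
      intro v hv
      rw [hG, hH]
      simp only
      rw [hkey v hv, Finset.sum_mul, sub_self]
    have e1 : WL x G = WL x (fun v => G v - H v) + WL x H := by
      rw [← WL_add63 hx hdiff hHb]
      congr 1
      funext v
      ring
    have e2 : WL x H = ∑ j, WL x (fun v : HeightOneSpectrum (𝓞 K) =>
        A1 K (fun w => cpx (C j) ψ₁ ψ₂ w.asIdeal) v * ph u (nm v)) := by
      rw [hH]
      exact WL_sum63 hx Finset.univ (fun j v => A1 K (fun w => cpx (C j) ψ₁ ψ₂ w.asIdeal) v *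
        ph u (nm v)) (B := D) fun j _ v => by
          rw [norm_mul, norm_ph', mul_one]
          exact hcj j v
    have h1 : (WL x (fun v => G v - H v)).re ≤ B * (A₁ * (3 * Real.log Q)) := by
      refine (Complex.re_le_norm _).trans ((norm_WL_fin63 hx hdiff (by positivity) S hGH).trans ?_)
      refine mul_le_mul_of_nonneg_left (hS.trans ?_) hB0
      refine mul_le_mul_of_nonneg_left ?_ hA₁
      have g1 := one_le_dK63 F₁
      have g2 := one_le_dK63 F₂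
      have g3 : 20 * (dK F₁ * dK F₂) ≤ Q ^ 3 := by
        have g4 : dK F₁ * dK F₂ ≤ Q * Q := mul_le_mul hd₁ hd₂ (by linarith) hQ0.le
        calc 20 * (dK F₁ * dK F₂) ≤ Q * (Q * Q) := mul_le_mul hQ g4 (by positivity) hQ0.le
          _ = Q ^ 3 := by ring
      have g5 := Real.log_le_log (by positivity) g3
      rwa [Real.log_pow] at g5
    have h2 : (WL x H).re ≤ (∑ j, if TR (cmd (C j) 𝔪₁ 𝔪₂) (cpx (C j) ψ₁ ψ₂) then X else 0) +
        J * (B₄ * C₅ * Real.log Q + B₃) := by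
      rw [e2, Complex.re_sum]
      calc ∑ j, (WL x (fun v : HeightOneSpectrum (𝓞 K) =>
            A1 K (fun w => cpx (C j) ψ₁ ψ₂ w.asIdeal) v * ph u (nm v))).re
          ≤ ∑ j, ((if TR (cmd (C j) 𝔪₁ 𝔪₂) (cpx (C j) ψ₁ ψ₂) then X else 0) +
            (B₄ * C₅ * Real.log Q + B₃)) := by
            refine Finset.sum_le_sum fun j _ => ?_
            have h3 := (abs_le.mp ((Complex.abs_re_le_norm _).trans (hdegj j))).1
            rw [Complex.sub_re] at h3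
            have h4 := hpsl j
            linarith
        _ = _ := by
            rw [Finset.sum_add_distrib, Finset.sum_const, Finset.card_univ, Fintype.card_fin,
              nsmul_eq_mul]
    have h3 : (J : ℝ) * (B₄ * C₅ * Real.log Q + B₃) ≤ D * (B₄ * C₅ * Real.log Q + B₃) :=
      mul_le_mul_of_nonneg_right hJr (by positivity)
    have h4 : (D : ℝ) * B₃ ≤ D * B₃ * Real.log Q := by
      have : 0 ≤ (D : ℝ) * B₃ := by positivity
      exact le_mul_of_one_le_right this hlQ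
    rw [e1, Complex.add_re]
    have e3 : (D : ℝ) * (B₄ * C₅ * Real.log Q + B₃) = D * (B₄ * C₅) * Real.log Q + D * B₃ := by
      ring
    have e4 : (3 * (B * A₁) + D * B₃ + D * (B₄ * C₅)) * Real.log Q =
        B * (A₁ * (3 * Real.log Q)) + D * B₃ * Real.log Q + D * (B₄ * C₅) * Real.log Q := by ring
    rw [e4]
    rw [e3] at h3
    linarith only [h1, h2, h3, h4]
  refine ⟨fun hno => ?_, fun e he => ?_, ?_⟩
  · refine hmain.trans ?_
    rw [Finset.sum_eq_zero fun j _ => if_neg fun h => hno ⟨C j, h⟩, zero_add]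
  · refine hmain.trans (add_le_add ?_ le_rfl)
    rw [← Finset.sum_filter, Finset.sum_const, nsmul_eq_mul]
    have h1 : (Finset.univ.filter fun j => TR (cmd (C j) 𝔪₁ 𝔪₂) (cpx (C j) ψ₁ ψ₂)).card ≤ 1 := by
      rw [Finset.card_le_one]
      intro i hi j hj
      exact huniq e i j (he _ (Finset.mem_filter.mp hi).2) (he _ (Finset.mem_filter.mp hj).2)
    calc _ ≤ (1 : ℝ) * X := mul_le_mul_of_nonneg_right (by exact_mod_cast h1) hX0
      _ = _ := one_mul _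
  · refine hmain.trans (add_le_add ?_ le_rfl)
    calc ∑ j, (if TR (cmd (C j) 𝔪₁ 𝔪₂) (cpx (C j) ψ₁ ψ₂) then X else 0)
        ≤ ∑ _j : Fin J, X := Finset.sum_le_sum fun j _ => by
          split_ifs
          · exact le_rfl
          · exact hX0
      _ = J * X := by simp
      _ ≤ n ^ 2 * X := by
          refine mul_le_mul_of_nonneg_right ?_ hX0
          exact_mod_cast hJ

end Pool.Agent.Lib.MP_bf61d2_nt.Artin.Ray
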