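import Mathlib
import Pool.Agent.Lib.MP_bf61d2_nt.Trim.Artin.MO.StmtsG63
import Pool.Agent.Lib.MP_bf61d2_nt.Trim.Artin.MO.StmtsM63

set_option autoImplicit false

/-!
MONO (MP_bf61d2_nt): there are finitely many composita up to isomorphism (helper84).
-/

namespace NumberField
end NumberField

namespace Pool.Agent.Lib.MP_bf61d2_nt.Artin.Ray

open NumberField IsDedekindDomain Module

open scoped Classical

universe u

section Fin

variable {K F₁ F₂ : Type u} [Field K] [Field F₁] [Field F₂] [Algebra K F₁] [Algebra K F₂]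

/-- The range of an embedding of a compositum. -/
lemma range_cmp84 {M : Type u} [Field M] [Algebra K M] (C : Cmp K F₁ F₂) (χ : C.L →ₐ[K] M) :
    χ.fieldRange = (χ.comp C.α).fieldRange ⊔ (χ.comp C.β).fieldRange := by
  rw [AlgHom.fieldRange_eq_map, ← C.gen, IntermediateField.map_sup, AlgHom.map_fieldRange,
    AlgHom.map_fieldRange]

/-- Composita with the same embeddings are isomorphic. -/
lemma ciso_of84 {M : Type u} [Field M] [Algebra K M] (C C' : Cmp K F₁ F₂) (χ : C.L →ₐ[K] M)
    (χ' : C'.L →ₐ[K] M) (h1 : χ.comp C.α = χ'.comp C'.α) (h2 : χ.comp C.β = χ'.comp C'.β) :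
    CIso C C' := by
  have h3 : χ.fieldRange = χ'.fieldRange := by
    rw [range_cmp84, range_cmp84 C', h1, h2]
  let e₁ : C.L ≃ₐ[K] χ.fieldRange := AlgEquiv.ofInjectiveField χ
  let e₂ : C'.L ≃ₐ[K] χ'.fieldRange := AlgEquiv.ofInjectiveField χ'
  let e : C.L ≃ₐ[K] C'.L := (e₁.trans (IntermediateField.equivOfEq h3)).trans e₂.symm
  have he : ∀ x, χ' (e x) = χ x := by
    intro x
    have h4 : ∀ y, χ' (e₂.symm y) = (y : M) := by
      intro y
      have h5 : (e₂ (e₂.symm y) : M) = χ' (e₂.symm y) := rfl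
      rw [← h5, AlgEquiv.apply_symm_apply]
    change χ' (e₂.symm _) = _
    rw [h4]
    rfl
  refine ⟨e, ?_, ?_⟩
  · ext x
    apply χ'.injective
    change χ' (e (C.α x)) = χ' (C'.α x)
    rw [he]
    exact DFunLike.congr_fun h1 x
  · ext x
    apply χ'.injective
    change χ' (e (C.β x)) = χ' (C'.β x)
    rw [he]
    exact DFunLike.congr_fun h2 x

/-- There are finitely many composita up to isomorphism. -/
theorem homLE_exists84 [NumberField K] [NumberField F₁] [NumberField F₂]
    (P : Cmp K F₁ F₂ → Prop) : ∃ μ : ℕ, HomLE P μ := by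
  have hf1 : FiniteDimensional K F₁ := Module.Finite.of_restrictScalars_finite ℚ K F₁
  have hf2 : FiniteDimensional K F₂ := Module.Finite.of_restrictScalars_finite ℚ K F₂
  refine ⟨Fintype.card ((F₁ →ₐ[K] AlgebraicClosure K) × (F₂ →ₐ[K] AlgebraicClosure K)),
    fun C _ => ?_⟩
  have hfd : ∀ i, FiniteDimensional K (C i).L := fun i =>
    Module.Finite.of_restrictScalars_finite ℚ K (C i).L
  let χ : ∀ i, (C i).L →ₐ[K] AlgebraicClosure K := fun i => IsAlgClosed.lift
  obtain ⟨i, j, hij, h⟩ := Fintype.exists_ne_map_eq_of_card_lt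
    (fun i => ((χ i).comp (C i).α, (χ i).comp (C i).β)) (by rw [Fintype.card_fin]; omega)
  rw [Prod.mk.injEq] at h
  exact ⟨i, j, hij, ciso_of84 (C i) (C j) (χ i) (χ j) h.1 h.2⟩

lemma ciso_equiv84 : Equivalence (CIso (K := K) (F₁ := F₁) (F₂ := F₂)) := by
  refine ⟨fun C => ⟨AlgEquiv.refl, ?_, ?_⟩, ?_, ?_⟩
  · ext; rfl
  · ext; rfl
  · rintro C C' ⟨e, h1, h2⟩
    refine ⟨e.symm, ?_, ?_⟩
    · rw [← h1]
      ext x
      exact e.symm_apply_apply _
    · rw [← h2]
      ext x
      exact e.symm_apply_apply _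
  · rintro C C' C'' ⟨e, h1, h2⟩ ⟨e', h3, h4⟩
    refine ⟨e.trans e', ?_, ?_⟩
    · rw [← h3, ← h1]
      ext; rfl
    · rw [← h4, ← h2]
      ext; rfl

/-- The number of composita with a property up to isomorphism. -/
theorem homLE_card84 [NumberField K] [NumberField F₁] [NumberField F₂]
    (P : Cmp K F₁ F₂ → Prop) :
    HomLE P (Nat.card (Quot fun C C' : {C : Cmp K F₁ F₂ // P C} => CIso C.1 C'.1)) := by
  set r : {C : Cmp K F₁ F₂ // P C} → {C : Cmp K F₁ F₂ // P C} → Prop :=
    fun C C' => CIso C.1 C'.1 with hr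
  have hre : Equivalence r := ⟨fun C => ciso_equiv84.refl _, fun h => ciso_equiv84.symm h,
    fun h h' => ciso_equiv84.trans h h'⟩
  obtain ⟨μ, hμ⟩ := homLE_exists84 P
  have hfin : Finite (Quot r) := by
    by_contra h
    rw [not_finite_iff_infinite] at h
    let f := Infinite.natEmbedding (Quot r)
    obtain ⟨i, j, hij, h1⟩ := hμ (fun i => (Quot.out (f i)).1) fun i => (Quot.out (f i)).2
    have h2 : f i = f j := by
      rw [← Quot.out_eq (f i), ← Quot.out_eq (f j)]
      exact Quot.sound h1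
    exact hij (Fin.ext (f.injective h2))
  intro C hC
  by_contra h
  have hinj : Function.Injective fun i => Quot.mk r ⟨C i, hC i⟩ := by
    intro i j hij
    by_contra hne
    apply h
    refine ⟨i, j, hne, ?_⟩
    have h3 : r ⟨C i, hC i⟩ ⟨C j, hC j⟩ := by
      have h4 := Quot.eqvGen_exact hij
      rwa [hre.eqvGen_iff] at h4
    exact h3
  have h5 := Nat.card_le_card_of_injective _ hinj
  rw [Nat.card_eq_fintype_card, Fintype.card_fin] at h5
  omega

end Fin

end Pool.Agent.Lib.MP_bf61d2_nt.Artin.Ray
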