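import Mathlib
import Pool.Agent.Lib.MP_bf61d2_nt.Trim.Artin.Defs63
import Pool.Agent.Lib.MP_bf61d2_nt.Trim.Artin.H.BASH36
import Pool.Agent.Lib.MP_bf61d2_nt.Trim.Artin.H.CLOH36
import Pool.Agent.Lib.MP_bf61d2_nt.Trim.Artin.H.DefsH
import Pool.Agent.Lib.MP_bf61d2_nt.Trim.Artin.H.MAINH84
import Pool.Agent.Lib.MP_bf61d2_nt.Trim.Artin.L.FINL73
import Pool.Agent.Lib.MP_bf61d2_nt.Trim.Artin.L.StmtsL63
import Pool.Agent.Lib.MP_bf61d2_nt.Trim.Artin.L.T1M73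
import Pool.Agent.Lib.MP_bf61d2_nt.Trim.Artin.MO.AGR88
import Pool.Agent.Lib.MP_bf61d2_nt.Trim.Artin.MO.BESM73
import Pool.Agent.Lib.MP_bf61d2_nt.Trim.Artin.MO.StmtsM63
import Pool.Agent.Lib.MP_bf61d2_nt.Trim.Artin.R.DefsR
import Pool.Agent.Lib.MP_bf61d2_nt.Trim.Artin.R.MAINRD84
import Pool.Agent.Lib.MP_bf61d2_nt.Trim.Artin.T.DefsT84
import Pool.Agent.Lib.MP_bf61d2_nt.Trim.Artin.T.LT73
import Pool.Agent.Lib.MP_bf61d2_nt.Trim.Artin.T.PAGE84
import Pool.Agent.Lib.MP_bf61d2_nt.Trim.Artin.UK.MAINLU88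
import Pool.Agent.Lib.MP_bf61d2_nt.Trim.Artin.UK.StmtsU84
import Pool.Agent.Lib.MP_bf61d2_nt.Trim.Joint.Main
import Pool.Agent.Lib.MP_bf61d2_nt.Trim.Places
import Pool.Agent.Lib.MP_bf61d2_nt.Trim.PrimeSum
import Pool.Agent.Lib.MP_bf61d2_nt.Trim.Structure

set_option autoImplicit false

/-!
MONO (MP_bf61d2_nt), module MAINM: the main theorem.
-/

namespace NumberField
end NumberField

namespace Pool.Agent.Lib.MP_bf61d2_nt.Zeta
end Pool.Agent.Lib.MP_bf61d2_nt.Zeta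

namespace Pool.Agent.Lib.MP_bf61d2_nt.Perm
end Pool.Agent.Lib.MP_bf61d2_nt.Perm

namespace Pool.Agent.Lib.MP_bf61d2_nt.Artin.Ray

open NumberField IsDedekindDomain Module

open Pool.Agent.Lib.MP_bf61d2_nt.Zeta Pool.Agent.Lib.MP_bf61d2_nt.Perm

open scoped Classical

universe u

/-- The size of a member of the family. -/
lemma size_le88 {F : Type u} [Field F] [NumberField F] {D : ℕ} (hF : finrank ℚ F ≤ D) {Q : ℝ}
    (hQ : 20 ≤ Q) {𝔪 : Ideal (𝓞 F)} {a : TA F} {b : TB F} {d : ℕ} (hd : (d : ℝ) ≤ Q)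
    (h5 : (Ideal.absNorm 𝔪 : ℝ) ≤ Q) (h6 : ∀ w, |(a w : ℝ)| ≤ Q) (h7 : ∀ w, |b w| ≤ Q) :
    ((⌈(Ideal.absNorm 𝔪 : ℝ) * sz a b⌉₊ * (4 * d) ^ finrank ℤ (𝓞 F) : ℕ) : ℝ) ≤
      (4 * Q) ^ (((2 * D + 2) + (D + 1)) + 1) := by
  have hQ0 : 0 < Q := by linarith
  set N : ℕ := finrank ℤ (𝓞 F) with hN
  set W : ℕ := 2 * Fintype.card (InfinitePlace F) + 2 with hW
  have hND : N ≤ D := by rw [hN, RingOfIntegers.rank]; exact hF
  have hWD : W ≤ 2 * D + 2 := by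
    have := (card_places_le88 F).trans hF
    omega
  have hd1 : (4 * (d : ℝ)) ^ N ≤ (4 * Q) ^ N :=
    pow_le_pow_left₀ (by positivity) (by linarith) N
  have h9 := sz_le (by linarith) h6 h7
  have h10 : (Ideal.absNorm 𝔪 : ℝ) * sz a b ≤
      Q * ((2 * Fintype.card (InfinitePlace F) + 1 : ℕ) * Q) := by
    refine mul_le_mul h5 h9 ?_ hQ0.le
    have := one_le_sz a b
    linarith
  have h11 : (⌈(Ideal.absNorm 𝔪 : ℝ) * sz a b⌉₊ : ℝ) ≤ W * Q ^ 2 := by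
    refine (Nat.ceil_lt_add_one ?_).le.trans ?_
    · have := one_le_sz a b
      positivity
    · rw [hW]
      push_cast at h10 ⊢
      nlinarith
  have h12 : (W : ℝ) ≤ (4 * Q) ^ W / (4 * Q) := by
    have h13 : (W : ℝ) ≤ 2 ^ W := by exact_mod_cast Nat.lt_two_pow_self.le
    rw [le_div_iff₀ (by positivity)]
    have hW0 : 1 ≤ W := by omega
    obtain ⟨k, hk⟩ : ∃ k, W = k + 1 := ⟨W - 1, by omega⟩
    rw [hk, pow_succ]
    refine mul_le_mul_of_nonneg_right ?_ (by positivity)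
    have h14 : ((k + 1 : ℕ) : ℝ) ≤ 2 ^ k := by exact_mod_cast Nat.lt_two_pow_self
    exact h14.trans (pow_le_pow_left₀ (by norm_num) (by linarith) k)
  push_cast
  calc (⌈(Ideal.absNorm 𝔪 : ℝ) * sz a b⌉₊ : ℝ) * (4 * (d : ℝ)) ^ N ≤
        (W * Q ^ 2) * (4 * Q) ^ N := mul_le_mul h11 hd1 (by positivity) (by positivity)
    _ ≤ ((4 * Q) ^ W / (4 * Q) * Q ^ 2) * (4 * Q) ^ N := by gcongr
    _ ≤ ((4 * Q) ^ W * (4 * Q)) * (4 * Q) ^ N := by
        refine mul_le_mul_of_nonneg_right ?_ (by positivity)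
        rw [div_mul_eq_mul_div, div_le_iff₀ (by positivity), mul_assoc]
        refine mul_le_mul_of_nonneg_left ?_ (by positivity)
        nlinarith
    _ = (4 * Q) ^ (W + (N + 1)) := by rw [pow_add, pow_succ]; ring
    _ ≤ (4 * Q) ^ (((2 * D + 2) + (D + 1)) + 1) := pow_le_pow_right₀ (by linarith) (by omega)

/-- The trivial bound of the sums over the places of degree one. -/
lemma norm_WLA_le88 {K : Type u} [Field K] [NumberField K] {F : Type u} [Field F] [NumberField F]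
    [Algebra K F] {m : ℕ} (hm : finrank K F ≤ m) {A δ : ℝ} (hδ : 0 < δ)
    (h : ∑' v : HeightOneSpectrum (𝓞 K), wl δ v ≤ A / δ) {c : HeightOneSpectrum (𝓞 K) → ℝ}
    (hc : ∀ v, |c v| ≤ 2) {f : HeightOneSpectrum (𝓞 F) → ℂ} (hf : ∀ v, ‖f v‖ ≤ 1) (t : ℝ) :
    ‖WL δ (fun v : HeightOneSpectrum (𝓞 K) => (c v : ℂ) * (A1 K f v * ph t (nm v)))‖ ≤
      2 * m * A / δ := by
  have hs := (summable_wl (K := K) hδ).mul_right (2 * (m : ℝ))
  refine (tsum_of_norm_bounded hs.hasSum fun v => ?_).trans ?_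
  · rw [norm_mul, Complex.norm_real, Real.norm_eq_abs, abs_of_nonneg (wl_nonneg δ v), norm_mul,
      norm_mul, LT73.norm_ph, mul_one, Complex.norm_real]
    refine mul_le_mul_of_nonneg_left ?_ (wl_nonneg δ v)
    have h1 : ‖A1 K f v‖ ≤ m := by
      refine (norm_A1_le73 hf v).trans ?_
      rw [← IsFractionRing.finrank_eq (𝓞 K) K (𝓞 F) F]
      exact_mod_cast hm
    exact mul_le_mul (hc v) h1 (norm_nonneg _) (by norm_num)
  · rw [tsum_mul_right]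
    have e : 2 * m * A / δ = A / δ * (2 * (m : ℝ)) := by ring
    rw [e]
    exact mul_le_mul_of_nonneg_right h (by positivity)

/-- The sum of the constants. -/
lemma le_sum88 {A : ℕ → ℝ} (hA : ∀ k, 0 ≤ A k) {k D : ℕ} (hk : k ≤ D) :
    A k ≤ ∑ j ∈ Finset.range (D + 1), A j :=
  Finset.single_le_sum (f := A) (fun j _ => hA j) (Finset.mem_range.2 (by omega))

/-- **MONO, module MAINM.** -/
theorem stMAINM_of (n m : ℕ) (hBES : StBESM.{u} n m) (hBCU : ∀ k, StBCU.{u} k)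
    (hWL1 : ∀ k, StWL1U.{u} k) (hLOG : ∀ k, StLELOGU.{u} k) (hTW : ∀ k, StSCTWLU.{u} k)
    (hT1 : StT1U.{u} n) : StMAINM.{u} n m := by
  obtain ⟨G, hG, hbes⟩ := hBES
  obtain ⟨C₁, hC₁, hT1⟩ := hT1
  choose fb hfb hbcu using hBCU
  choose fB hfB hCX using hWL1
  choose f0 hf0 hlt0 using hLOG
  choose fR hfR htw using hTW
  set U : ℕ := n * m with hU
  set Ab : ℝ := ∑ j ∈ Finset.range (U + 1), fb j with hAb
  set B₁ : ℝ := ∑ j ∈ Finset.range (U + 1), fB j with hB₁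
  set R₀ : ℝ := ∑ j ∈ Finset.range (U + 1), f0 j with hR₀
  set R : ℝ := ∑ j ∈ Finset.range (U + 1), fR j with hR
  have hAb0 : 0 ≤ Ab := Finset.sum_nonneg fun j _ => hfb j
  have hfB0 : ∀ k, 0 ≤ fB k := fun k => by linarith [hfB k]
  have hB₁0 : 0 ≤ B₁ := Finset.sum_nonneg fun j _ => hfB0 j
  have hR₀0 : 0 ≤ R₀ := Finset.sum_nonneg fun j _ => hf0 j
  have hR0 : 0 ≤ R := Finset.sum_nonneg fun j _ => hfR j
  set M : ℕ := (2 * U + 2) + (U + 1) with hM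
  set D : ℝ := 2 * (M + 1) with hD
  have hD0 : 0 ≤ D := by positivity
  have hC₁0 : 0 ≤ C₁ := by linarith
  set Dd : ℝ := 2 * m * fB n + 2 * B₁ + R₀ with hDd
  set Bd : ℝ := R₀ + 2 * R + 2 * Ab with hBd
  have hBn := hfB0 n
  have hDd0 : 0 ≤ Dd := by positivity
  have hBd0 : 0 ≤ Bd := by positivity
  refine ⟨(G * D) * C₁ + 2 * Dd * Bd + Bd ^ 2 + Dd ^ 2, by positivity,
    fun K _ _ hK Q hQ hdQ E _ δ hδ hδ2 N F _ _ _ d 𝔪 a b ψ t hS hself hsep g hg => ?_⟩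
  replace hCXK := hCX n K hK
  replace hT1 := hT1 K hK
  have hrk : ∀ i, finrank ℚ (F i) ≤ U := by
    intro i
    have h1 : FiniteDimensional K (F i) := Module.Finite.of_restrictScalars_finite ℚ K (F i)
    rw [← Module.finrank_mul_finrank ℚ K (F i), hK]
    exact Nat.mul_le_mul_left n (hS i).1
  obtain ⟨hQ29, hl1, -⟩ := Q_facts hQ
  obtain ⟨hQ4, hQ5, -⟩ := lq_pow hQ M
  have hlQ := log_pow73 hQ M
  rw [← hD] at hlQ
  set Q' : ℝ := (4 * Q) ^ (M + 1) with hQ'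
  have hQ0 : 0 < Q := by linarith
  have hδ1 : δ ≤ 1 := by linarith
  have hc : ∀ v, |cc E v| ≤ 2 := fun v => abs_cc_le E v
  choose η hηr hη using fun i => exists_js88 (F i) (d i) (hS i).2.2.1
  have h4d : ∀ i, Ideal.span {((4 * d i : ℕ) : 𝓞 (F i))} ≠ ⊥ := by
    intro i
    rw [Ne, Ideal.span_singleton_eq_bot]
    have : (4 * d i : ℕ) ≠ 0 := by have := (hS i).2.2.1; omega
    exact_mod_cast this
  set Z : Fin N → ℕ := fun i => ⌈(Ideal.absNorm (𝔪 i) : ℝ) * sz (a i) (b i)⌉₊ *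
    (4 * d i) ^ finrank ℤ (𝓞 (F i)) with hZ
  have hHk : ∀ i, IsHk (𝔪 i * Ideal.span {((4 * d i : ℕ) : 𝓞 (F i))}) (Z i) (ψ i * η i) := by
    intro i
    obtain ⟨-, -, -, -, h3, h4, -⟩ := hS i
    refine isHk_mul ⟨h3, a i, b i, h4, Nat.le_ceil _⟩ ⟨h4d i, 0, 0, isHe_of_isRay (hηr i), ?_⟩
    rw [Ideal.absNorm_span_natCast]
    have : sz (0 : TA (F i)) (0 : TB (F i)) = 1 := by simp [sz]
    rw [this, mul_one]
  have hfη : ∀ i I, ‖(ψ i * η i) I‖ ≤ 1 := fun i I => isHk_norm_le (hHk i) I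
  have hf : ∀ i (v : HeightOneSpectrum (𝓞 (F i))), ‖ψ i v.asIdeal‖ ≤ 1 := by
    intro i v
    obtain ⟨-, -, -, -, h3, h4, -⟩ := hS i
    exact isHk_norm_le (Z := ⌈(Ideal.absNorm (𝔪 i) : ℝ) * sz (a i) (b i)⌉₊)
      ⟨h3, a i, b i, h4, Nat.le_ceil _⟩ _
  set X : Fin N → Mem K := fun i =>
    { F := F i, m := 𝔪 i * Ideal.span {((4 * d i : ℕ) : 𝓞 (F i))}, Z := Z i, ψ := ψ i * η i,
      t := t i } with hX
  have hok : ∀ i, (X i).Ok m Q' := by
    intro i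
    obtain ⟨h1, h2, h3, h4, h5, h6, h7, h8, h9, h10⟩ := hS i
    refine ⟨h1, h2.trans hQ5, hHk i, size_le88 (hrk i) hQ h4 h7 h8 h9, h10.trans hQ5,
      fun C hC => ?_⟩
    exact hself i C (agr_of_TR88 C (hη i) (hη i) (hfη i) (hfη i) hC)
  have h8 := hbes K hK Q' hQ4 (hdQ.trans hQ5) (fun v => cc E v) hc δ hδ hδ2 N X hok
    (fun i j hij hR => by
      obtain ⟨C, hC⟩ := hR
      refine le_trans ?_ (hsep i j hij ⟨C, agr_of_TR88 C (hη i) (hη j) (hfη i) (hfη j) hC⟩)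
      exact one_div_le_one_div_of_le (by linarith) (Real.log_le_log hQ0 hQ5)) g hg
  have hjs : ∀ i, (fun v : HeightOneSpectrum (𝓞 (F i)) =>
      ψ i v.asIdeal * (js (d i) (nm v) : ℂ)) = fun v => (ψ i * η i) v.asIdeal := by
    intro i
    funext v
    show _ = ψ i v.asIdeal * η i v.asIdeal
    rw [hη i]
    rfl
  set lQ : ℝ := Real.log Q with hlQd
  have hlQ1 : 1 ≤ lQ := by linarith
  -- the errors
  have hl20 : ∀ x : ℝ, 0 < x → x ≤ Q → Real.log (20 * x) ≤ 2 * lQ := by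
    intro x hx hxQ
    have h7 := Real.log_le_log (by positivity) (show 20 * x ≤ Q ^ 2 by
      rw [pow_two]; exact mul_le_mul hQ hxQ hx.le hQ0.le)
    rwa [Real.log_pow] at h7
  set S₁ : ℝ := ∑ i, g i with hS₁
  have hS₁0 : 0 ≤ S₁ := Finset.sum_nonneg fun i _ => hg i
  have hS₂0 : 0 ≤ ∑ i, g i ^ 2 := Finset.sum_nonneg fun i _ => sq_nonneg _
  set A : Fin N → ℂ := fun i => WL δ (fun v : HeightOneSpectrum (𝓞 K) => (cc E v : ℂ) *
    (A1 K (fun w : HeightOneSpectrum (𝓞 (F i)) => (ψ i * η i) w.asIdeal) v *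
      ph (t i) (nm v))) with hA
  set V : Fin N → ℂ := fun i => logDeriv (LE (qt (E.baseChange (F i)) (d i : F i))
    (fun w => ψ i w.asIdeal)) ((3 / 2 + δ : ℝ) + t i * Complex.I) with hV
  have hsumle : ∀ (H : Fin N → ℂ) (B : ℝ), (∀ i, ‖H i‖ ≤ B) →
      ‖∑ i, (g i : ℂ) * H i‖ ≤ B * S₁ := by
    intro H B hH
    refine (norm_sum_le _ _).trans ?_
    rw [hS₁, Finset.mul_sum]
    refine Finset.sum_le_sum fun i _ => ?_
    rw [norm_mul, Complex.norm_real, Real.norm_eq_abs, abs_of_nonneg (hg i), mul_comm]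
    exact mul_le_mul_of_nonneg_right (hH i) (hg i)
  have hXD : ‖∑ i, (g i : ℂ) * A i‖ ≤ Dd / δ * S₁ := by
    refine hsumle _ _ fun i => ?_
    refine (norm_WLA_le88 (hS i).1 hδ (hCXK δ hδ hδ1) hc (fun v => hfη i _) (t i)).trans ?_
    exact div_le_div_of_nonneg_right (by linarith) hδ.le
  have hYD : ‖∑ i, (g i : ℂ) * V i‖ ≤ Dd / δ * S₁ := by
    refine hsumle _ _ fun i => ?_
    have h1 := (hlt0 _ (F i) rfl (qt (E.baseChange (F i)) (d i : F i))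
      (fun v => ψ i v.asIdeal) (hf i) δ (t i) hδ).2.2
    have h2 := norm_CRL_le88 hδ (hCX _ (F i) rfl δ hδ hδ1)
      (c := fun v => cc (qt (E.baseChange (F i)) (d i : F i)) v)
      (fun v => abs_cc_le _ v) (f := fun v => ψ i v.asIdeal) (hf i) (t i)
    have h3 := norm_sub_norm_le (V i)
      (-CRL (fun v => cc (qt (E.baseChange (F i)) (d i : F i)) v)
        (fun v => ψ i v.asIdeal) δ (t i))
    rw [sub_neg_eq_add, norm_neg] at h3
    have h6 := h1.trans (le_sum88 hf0 (hrk i))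
    have h7 : 2 * fB (finrank ℚ (F i)) / δ ≤ 2 * B₁ / δ :=
      div_le_div_of_nonneg_right (by linarith [le_sum88 hfB0 (hrk i)]) hδ.le
    have h4 : R₀ ≤ R₀ / δ := le_div_self (by assumption) hδ hδ1
    have h5 : 0 ≤ 2 * m * fB n / δ := by positivity
    rw [hDd, add_div, add_div]
    linarith
  have hYX : ‖∑ i, (g i : ℂ) * V i‖ ≤ ‖∑ i, (g i : ℂ) * A i‖ + Bd * lQ * S₁ := by
    have h1 : ‖(∑ i, (g i : ℂ) * V i) + ∑ i, (g i : ℂ) * A i‖ ≤ Bd * lQ * S₁ := by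
      rw [← Finset.sum_add_distrib]
      simp only [← mul_add]
      refine hsumle (fun i => V i + A i) _ fun i => ?_
      have h1 := (hlt0 _ (F i) rfl (qt (E.baseChange (F i)) (d i : F i))
        (fun v => ψ i v.asIdeal) (hf i) δ (t i) hδ).2.2
      have h2 := htw _ (F i) rfl (E.baseChange (F i)) (d i) (hS i).2.2.1
        (fun v => ψ i v.asIdeal) (hf i) δ (t i) hδ
      have h3 := hbcu _ K (F i) rfl E (fun v => (ψ i * η i) v.asIdeal) (fun v => hfη i _) δ (t i) hδ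
      rw [hjs i] at h2
      have e : V i + A i =
          (V i + CRL (fun v => cc (qt (E.baseChange (F i)) (d i : F i)) v)
            (fun v => ψ i v.asIdeal) δ (t i)) -
          (CRL (fun v => cc (qt (E.baseChange (F i)) (d i : F i)) v)
            (fun v => ψ i v.asIdeal) δ (t i) -
            CRL (fun v => cc (E.baseChange (F i)) v) (fun v => (ψ i * η i) v.asIdeal) δ (t i)) -
          (CRL (fun v => cc (E.baseChange (F i)) v) (fun v => (ψ i * η i) v.asIdeal) δ (t i) -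
            A i) := by ring
      rw [e]
      have h1' := h1.trans (le_sum88 hf0 (hrk i))
      have hdp : (0 : ℝ) < d i := by exact_mod_cast (hS i).2.2.1
      have h2' := h2.trans (mul_le_mul (le_sum88 hfR (hrk i)) (hl20 _ hdp (hS i).2.2.2.1)
        (Real.log_nonneg (by
          have : (1 : ℝ) ≤ d i := by exact_mod_cast (hS i).2.2.1
          linarith)) hR0)
      have h3' := h3.trans (mul_le_mul (le_sum88 hfb (hrk i))
        (hl20 _ (by linarith [one_le_dK88 (F i)]) (hS i).2.1)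
        (Real.log_nonneg (by linarith [one_le_dK88 (F i)])) hAb0)
      refine (norm_sub_le _ _).trans (le_trans (add_le_add (norm_sub_le _ _) le_rfl) ?_)
      have h5 : R₀ ≤ R₀ * lQ := le_mul_of_one_le_right hR₀0 hlQ1
      rw [hBd]
      linarith
    have h2 := norm_sub_norm_le (∑ i, (g i : ℂ) * V i) (-∑ i, (g i : ℂ) * A i)
    rw [sub_neg_eq_add, norm_neg] at h2
    linarith
  have hT0 := T1_nonneg73 E hδ
  have hX2 : ‖∑ i, (g i : ℂ) * A i‖ ^ 2 ≤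
      T1 E δ * (1 / δ * ∑ i, g i ^ 2 + (G * D) * lQ * S₁ ^ 2) := by
    refine h8.trans (mul_le_mul (T1_facts73 E δ hδ).1 ?_ (by
      have : 0 ≤ Real.log Q' := Real.log_nonneg (by linarith)
      positivity) hT0)
    have h9 : G * Real.log Q' * S₁ ^ 2 ≤ G * (D * lQ) * S₁ ^ 2 := by
      refine mul_le_mul_of_nonneg_right ?_ (sq_nonneg _)
      exact mul_le_mul_of_nonneg_left hlQ hG
    linarith
  exact final_real88 (B := Bd) (D := Dd) hδ hlQ1 hT0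
    (hT1 E δ hδ hδ1).2.2 hC₁0 (by positivity : 0 ≤ G * D) hBd0 hDd0 hS₁0
    hS₂0 hX2 hXD hYX hYD (norm_nonneg _)

end Pool.Agent.Lib.MP_bf61d2_nt.Artin.Ray
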