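import Mathlib
import Pool.Agent.Lib.MP_bf61d2_nt.Trim.Artin.H.DefsH
import Pool.Agent.Lib.MP_bf61d2_nt.Trim.Artin.MO.StmtsM63
import Pool.Agent.Lib.MP_bf61d2_nt.Trim.Artin.R.DefsR
import Pool.Agent.Lib.MP_bf61d2_nt.Trim.Artin.T.DefsT84
import Pool.Agent.Lib.MP_bf61d2_nt.Trim.Artin.UK.StmtsU84
import Pool.Agent.Lib.MP_bf61d2_nt.Trim.Joint.Main

set_option autoImplicit false

/-!
MONO (MP_bf61d2_nt): the statement of the integrated form, for the twists by the Hecke characters of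
all the extensions of bounded degree.
-/

namespace NumberField
end NumberField

namespace Pool.Agent.Lib.MP_bf61d2_nt.Zeta
end Pool.Agent.Lib.MP_bf61d2_nt.Zeta

namespace Pool.Agent.Lib.MP_bf61d2_nt.Perm
end Pool.Agent.Lib.MP_bf61d2_nt.Perm

namespace Pool.Agent.Lib.MP_bf61d2_nt.Artin.Ray

open NumberField IsDedekindDomain Module

open Pool.Agent.Lib.MP_bf61d2_nt.Zeta Pool.Agent.Lib.MP_bf61d2_nt.Perm

open scoped Classical

universe u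

/-- INTM: the integrated form. -/
def StINTM (n m : ℕ) : Prop := ∃ C : ℝ, 0 ≤ C ∧
  ∀ (K : Type u) [Field K] [NumberField K], finrank ℚ K = n →
  ∀ Q : ℝ, 20 ≤ Q → dK K ≤ Q →
  ∀ (E : WeierstrassCurve K) [E.IsElliptic] (δ : ℝ), 0 < δ → δ ≤ 1 / Real.log Q →
  ∀ (N : ℕ) (F : Fin N → Type u) [∀ i, Field (F i)] [∀ i, NumberField (F i)]
    [∀ i, Algebra K (F i)] (d : Fin N → ℕ) (𝔪 : ∀ i, Ideal (𝓞 (F i))) (a : ∀ i, TA (F i))
    (b : ∀ i, TB (F i)) (ψ : ∀ i, Ideal (𝓞 (F i)) →*₀ ℂ) (t : Fin N → ℝ),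
    (∀ i, OkM K m Q (F i) (d i) (𝔪 i) (a i) (b i) (ψ i) (t i)) →
    (∀ i, ∀ C : Cmp K (F i) (F i), Agr C (d i) (d i) (𝔪 i) (𝔪 i) (ψ i) (ψ i) → C.α = C.β) →
    (∀ i j, i ≠ j → (∃ C : Cmp K (F i) (F j), Agr C (d i) (d j) (𝔪 i) (𝔪 j) (ψ i) (ψ j)) →
      1 / Real.log Q ≤ |t i - t j|) →
    ∀ g : Fin N → ℝ, (∀ i, 0 ≤ g i) →
    |∑ i, g i * Real.log ‖LE (qt (E.baseChange (F i)) (d i : F i)) (fun w => ψ i w.asIdeal)
        ((3 / 2 + δ : ℝ) + t i * Complex.I)‖| ≤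
      2 * (Real.log (1 / δ) - lq Q) * Real.sqrt (∑ i, g i ^ 2) +
        ∑ i, g i * (2 * lq Q +
          2 * (finrank ℚ (F i) - 1) * Real.log (Real.log (20 * dK (F i))) + C)

end Pool.Agent.Lib.MP_bf61d2_nt.Artin.Ray
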