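import Mathlib
import Pool.Agent.Lib.MP_bf61d2_nt.Trim.Artin.H.BASH36
import Pool.Agent.Lib.MP_bf61d2_nt.Trim.Artin.H.DefsH
import Pool.Agent.Lib.MP_bf61d2_nt.Trim.Artin.L.INTL3
import Pool.Agent.Lib.MP_bf61d2_nt.Trim.Artin.L.StmtsL63
import Pool.Agent.Lib.MP_bf61d2_nt.Trim.Artin.L.T1M73
import Pool.Agent.Lib.MP_bf61d2_nt.Trim.Artin.MO.MAINM88
import Pool.Agent.Lib.MP_bf61d2_nt.Trim.Artin.MO.StmtsI63
import Pool.Agent.Lib.MP_bf61d2_nt.Trim.Artin.MO.StmtsM63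
import Pool.Agent.Lib.MP_bf61d2_nt.Trim.Artin.R.DefsR
import Pool.Agent.Lib.MP_bf61d2_nt.Trim.Artin.T.DefsT84
import Pool.Agent.Lib.MP_bf61d2_nt.Trim.Artin.UK.INTLUD88
import Pool.Agent.Lib.MP_bf61d2_nt.Trim.Artin.UK.MAINLU88
import Pool.Agent.Lib.MP_bf61d2_nt.Trim.Artin.UK.StmtsU84
import Pool.Agent.Lib.MP_bf61d2_nt.Trim.Joint.Main
import Pool.Agent.Lib.MP_bf61d2_nt.Trim.Structure

set_option autoImplicit false

/-!
MONO (MP_bf61d2_nt), module INTM: the integrated form.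
-/

namespace NumberField
end NumberField

namespace Pool.Agent.Lib.MP_bf61d2_nt.Zeta
end Pool.Agent.Lib.MP_bf61d2_nt.Zeta

namespace Pool.Agent.Lib.MP_bf61d2_nt.Perm
end Pool.Agent.Lib.MP_bf61d2_nt.Perm

namespace Pool.Agent.Lib.MP_bf61d2_nt.Artin.Ray

open NumberField IsDedekindDomain Module

open Pool.Agent.Lib.MP_bf61d2_nt.Zeta Pool.Agent.Lib.MP_bf61d2_nt.Perm

open scoped Classical

universe u

/-- The integration, with different bounds of the functions at the first point. -/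
lemma intl_coreM88 {n : ℕ} {F : Fin n → ℂ → ℂ} {t g B : Fin n → ℝ} {Q C δ : ℝ} (hQ : 20 ≤ Q)
    (hC : 0 ≤ C) (hg : ∀ i, 0 ≤ g i) (hδ : 0 < δ) (hδ2 : δ ≤ 1 / Real.log Q)
    (hF : ∀ i, ∀ x : ℝ, 0 < x → F i ((3 / 2 + x : ℝ) + t i * Complex.I) ≠ 0 ∧
      DifferentiableAt ℂ (F i) ((3 / 2 + x : ℝ) + t i * Complex.I))
    (hM : ∀ x : ℝ, 0 < x → x ≤ 1 / 2 →
      ‖∑ i, (g i : ℂ) * logDeriv (F i) ((3 / 2 + x : ℝ) + t i * Complex.I)‖ ^ 2 ≤
        4 / x ^ 2 * ∑ i, g i ^ 2 + C * Real.log Q / x * (∑ i, g i) ^ 2)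
    (hB : ∀ i, |Real.log ‖F i ((3 / 2 + 1 / Real.log Q : ℝ) + t i * Complex.I)‖| ≤ B i) :
    |∑ i, g i * Real.log ‖F i ((3 / 2 + δ : ℝ) + t i * Complex.I)‖| ≤
      2 * (Real.log (1 / δ) - lq Q) * Real.sqrt (∑ i, g i ^ 2) +
        ∑ i, g i * (B i + 2 * Real.sqrt C) := by
  have hlQ : 2 ≤ Real.log Q := by
    have h1 : Real.log 20 ≤ Real.log Q := Real.log_le_log (by norm_num) hQ
    have h2 : (2 : ℝ) ≤ Real.log 20 := by
      rw [Real.le_log_iff_exp_le (by norm_num)]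
      have h3 : Real.exp 2 = Real.exp 1 * Real.exp 1 := by rw [← Real.exp_add]; norm_num
      rw [h3]
      have h4 := Real.exp_one_lt_d9
      have h5 := Real.exp_pos 1
      nlinarith
    linarith
  have hlQ0 : 0 < Real.log Q := by linarith
  set r₀ : ℝ := 1 / Real.log Q with hr₀
  have hr₀0 : 0 < r₀ := by positivity
  have hr₀2 : r₀ ≤ 1 / 2 := by
    rw [hr₀]
    exact one_div_le_one_div_of_le (by norm_num) hlQ
  set S₁ : ℝ := ∑ i, g i with hS₁
  set S₂ : ℝ := ∑ i, g i ^ 2 with hS₂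
  have hS₁0 : 0 ≤ S₁ := Finset.sum_nonneg fun i _ => hg i
  have hS₂0 : 0 ≤ S₂ := Finset.sum_nonneg fun i _ => by positivity
  set G : ℝ → ℝ := fun x => ∑ i, g i * Real.log ‖F i ((3 / 2 + x : ℝ) + t i * Complex.I)‖ with hG
  set G' : ℝ → ℝ := fun x => ∑ i, g i *
    (logDeriv (F i) ((3 / 2 + x : ℝ) + t i * Complex.I)).re with hG'
  have hder : ∀ x, δ ≤ x → x ≤ r₀ → HasDerivAt G (G' x) x := by
    intro x hx1 hx2
    have hx0 : 0 < x := by linarith
    rw [hG, hG']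
    refine HasDerivAt.fun_sum fun i _ => HasDerivAt.const_mul _ ?_
    obtain ⟨h1, h2⟩ := hF i x hx0
    exact hasDerivAt_log_norm3 h1 h2
  have hbd : ∀ x, δ ≤ x → x ≤ r₀ →
      |G' x| ≤ (2 * Real.sqrt S₂) / x + (Real.sqrt (C * Real.log Q) * S₁) / Real.sqrt x := by
    intro x hx1 hx2
    have hx0 : 0 < x := by linarith
    have h1 := hM x hx0 (by linarith)
    set Z : ℂ := ∑ i, (g i : ℂ) * logDeriv (F i) ((3 / 2 + x : ℝ) + t i * Complex.I) with hZ
    have h2 : G' x = Z.re := by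
      rw [hZ, Complex.re_sum, hG']
      exact Finset.sum_congr rfl fun i _ => (Complex.re_ofReal_mul _ _).symm
    have h3 : ‖Z‖ ≤ (2 * Real.sqrt S₂) / x + (Real.sqrt (C * Real.log Q) * S₁) / Real.sqrt x := by
      refine abs_le_of_sq_le_sq' ?_ (by positivity) |>.2
      refine h1.trans ?_
      have hsx : 0 < Real.sqrt x := Real.sqrt_pos.mpr hx0
      have e1 : ((2 * Real.sqrt S₂) / x) ^ 2 = 4 / x ^ 2 * S₂ := by
        rw [div_pow, mul_pow, Real.sq_sqrt hS₂0]; ring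
      have e2 : ((Real.sqrt (C * Real.log Q) * S₁) / Real.sqrt x) ^ 2 =
          C * Real.log Q / x * S₁ ^ 2 := by
        rw [div_pow, mul_pow, Real.sq_sqrt (by positivity), Real.sq_sqrt hx0.le]; ring
      have e3 : 0 ≤ ((2 * Real.sqrt S₂) / x) * ((Real.sqrt (C * Real.log Q) * S₁) / Real.sqrt x) :=
        by positivity
      nlinarith
    rw [h2]
    exact (Complex.abs_re_le_norm _).trans h3
  have hint := abs_le_of_deriv3 hδ hδ2 hder hbd
  have hlog0 : Real.log r₀ = -lq Q := by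
    rw [hr₀, one_div, Real.log_inv, lq]
  have hlogδ : Real.log (1 / δ) = -Real.log δ := by rw [one_div, Real.log_inv]
  have hsq : Real.sqrt (C * Real.log Q) * Real.sqrt r₀ = Real.sqrt C := by
    rw [← Real.sqrt_mul (by positivity), hr₀]
    congr 1
    field_simp
  have h1 : |G r₀| ≤ ∑ i, g i * B i := by
    rw [hG]
    refine (Finset.abs_sum_le_sum_abs _ _).trans (Finset.sum_le_sum fun i _ => ?_)
    rw [abs_mul, abs_of_nonneg (hg i)]
    exact mul_le_mul_of_nonneg_left (hB i) (hg i)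
  have h7 : |G δ| ≤ |G r₀| + |G r₀ - G δ| := by
    have := abs_sub_abs_le_abs_sub (G δ) (G r₀)
    rw [abs_sub_comm] at this
    linarith
  have h8 : 2 * (Real.sqrt (C * Real.log Q) * S₁) * (Real.sqrt r₀ - Real.sqrt δ) ≤
      2 * Real.sqrt C * S₁ := by
    have h9 : 0 ≤ Real.sqrt (C * Real.log Q) * S₁ * Real.sqrt δ := by positivity
    calc 2 * (Real.sqrt (C * Real.log Q) * S₁) * (Real.sqrt r₀ - Real.sqrt δ)
        = 2 * (Real.sqrt (C * Real.log Q) * Real.sqrt r₀) * S₁ -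
          2 * (Real.sqrt (C * Real.log Q) * S₁ * Real.sqrt δ) := by ring
      _ ≤ 2 * Real.sqrt C * S₁ := by rw [hsq]; linarith
  have h10 : ∑ i, g i * (B i + 2 * Real.sqrt C) = ∑ i, g i * B i + 2 * Real.sqrt C * S₁ := by
    rw [hS₁, Finset.mul_sum, ← Finset.sum_add_distrib]
    exact Finset.sum_congr rfl fun i _ => by ring
  change |G δ| ≤ _
  rw [hlog0] at hint
  rw [hlogδ, h10]
  nlinarith [h1, h7, h8, hint]

/-- **MONO, module INTM.** -/
theorem stINTM_of (n m : ℕ) (hM : StMAINM.{u} n m) (hT1 : StT1U.{u} n)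
    (hED : ∀ k, StEDU.{u} k) (hLE : ∀ k, StLELOGU.{u} k) : StINTM.{u} n m := by
  obtain ⟨C, hC, hM⟩ := hM
  obtain ⟨C₁, hC₁, hT1⟩ := hT1
  choose fe hfe hED using hED
  choose fa hfa hLE using hLE
  set U : ℕ := n * m with hU
  set B : ℝ := ∑ j ∈ Finset.range (U + 1), fe j with hBdef
  have hB : 0 ≤ B := Finset.sum_nonneg fun j _ => hfe j
  have hC₁0 : 0 ≤ C₁ := by linarith
  refine ⟨B + 2 * Real.sqrt (C + 2 * C₁), by positivity,
    fun K _ _ hK Q hQ hdQ E _ δ hδ hδ2 N F _ _ _ d 𝔪 a b ψ t hfam hself hsep g hg => ?_⟩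
  replace hT1 := hT1 K hK
  have hrk : ∀ i, finrank ℚ (F i) ≤ U := by
    intro i
    have h1 : FiniteDimensional K (F i) := Module.Finite.of_restrictScalars_finite ℚ K (F i)
    rw [← Module.finrank_mul_finrank ℚ K (F i), hK]
    exact Nat.mul_le_mul_left n (hfam i).1
  have hlQ : 2 ≤ Real.log Q := by
    have h1 : Real.log 20 ≤ Real.log Q := Real.log_le_log (by norm_num) hQ
    have h2 : (2 : ℝ) ≤ Real.log 20 := by
      rw [Real.le_log_iff_exp_le (by norm_num)]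
      have h3 : Real.exp 2 = Real.exp 1 * Real.exp 1 := by rw [← Real.exp_add]; norm_num
      rw [h3]
      have h4 := Real.exp_one_lt_d9
      have h5 := Real.exp_pos 1
      nlinarith
    linarith
  have hψ : ∀ i (v : HeightOneSpectrum (𝓞 (F i))), ‖ψ i v.asIdeal‖ ≤ 1 := fun i v =>
    normH_le36 (hfam i).2.2.2.2.1 (hfam i).2.2.2.2.2.1 _
  have hr₀0 : 0 < 1 / Real.log Q := by positivity
  have hS : ∑ i, g i ^ 2 ≤ (∑ i, g i) ^ 2 := Finset.sum_sq_le_sq_sum_of_nonneg fun i _ => hg i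
  have hS₂0 : 0 ≤ ∑ i, g i ^ 2 := Finset.sum_nonneg fun i _ => by positivity
  have hl20 : ∀ x : ℝ, 1 ≤ x → x ≤ Q → Real.log (20 * x) ≤ 2 * Real.log Q := by
    intro x hx hxQ
    have h7 := Real.log_le_log (by positivity) (show (20 : ℝ) * x ≤ Q ^ 2 by nlinarith)
    rwa [Real.log_pow] at h7
  have key := intl_coreM88 (F := fun i => LE (qt (E.baseChange (F i)) (d i : F i))
    (fun v => ψ i v.asIdeal)) (t := t) (g := g) (Q := Q) (C := C + 2 * C₁)
    (B := fun i => 2 * lq Q + 2 * (finrank ℚ (F i) - 1) * Real.log (Real.log (20 * dK (F i))) + B)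
    hQ (by positivity) hg hδ hδ2 (fun i x hx => ?_) (fun x hx hx2 => ?_) (fun i => ?_)
  · refine key.trans (le_of_eq ?_)
    congr 1
    exact Finset.sum_congr rfl fun i _ => by ring
  · obtain ⟨h1, h2, -⟩ := hLE _ (F i) rfl (qt (E.baseChange (F i)) (d i : F i))
      (fun v => ψ i v.asIdeal) (hψ i) x (t i) hx
    exact ⟨h1, h2⟩
  · refine (hM K hK Q hQ hdQ E x hx hx2 N F d 𝔪 a b ψ t hfam hself hsep g hg).trans ?_
    have hld := hl20 _ (one_le_dK88 K) hdQ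
    have h1 : T1 E x / x * ∑ i, g i ^ 2 ≤
        (4 / x + C₁ * (2 * Real.log Q)) / x * ∑ i, g i ^ 2 := by
      refine mul_le_mul_of_nonneg_right (div_le_div_of_nonneg_right ?_ hx.le) hS₂0
      have := (hT1 E x hx (by linarith)).2.1
      have h2 := mul_le_mul_of_nonneg_left hld hC₁0
      linarith
    have h2 : C₁ * (2 * Real.log Q) / x * ∑ i, g i ^ 2 ≤
        C₁ * (2 * Real.log Q) / x * (∑ i, g i) ^ 2 :=
      mul_le_mul_of_nonneg_left hS (by positivity)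
    have e : (4 / x + C₁ * (2 * Real.log Q)) / x * ∑ i, g i ^ 2 =
        4 / x ^ 2 * ∑ i, g i ^ 2 + C₁ * (2 * Real.log Q) / x * ∑ i, g i ^ 2 := by
      field_simp
    have e2 : (C + 2 * C₁) * Real.log Q / x * (∑ i, g i) ^ 2 =
        C₁ * (2 * Real.log Q) / x * (∑ i, g i) ^ 2 +
        C * Real.log Q / x * (∑ i, g i) ^ 2 := by ring
    rw [e2]
    rw [e] at h1
    linarith
  · have hd1 := one_le_dK88 (F i)
    have hld := hl20 _ hd1 (hfam i).2.1
    have hld0 : 0 < Real.log (20 * dK (F i)) := Real.log_pos (by linarith)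
    have h1 := hED _ (F i) rfl (qt (E.baseChange (F i)) (d i : F i)) (fun v => ψ i v.asIdeal)
      (hψ i) (1 / Real.log Q) (t i) hr₀0 (by
        rw [div_le_div_iff₀ (by positivity) hld0]
        linarith)
    have h4 : Real.log (1 / (1 / Real.log Q)) = lq Q := by rw [one_div_one_div, lq]
    rw [h4] at h1
    have h5 := le_sum88 hfe (hrk i)
    exact h1.trans (by linarith)

end Pool.Agent.Lib.MP_bf61d2_nt.Artin.Ray
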