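import Mathlib
import Pool.Agent.Lib.MP_bf61d2_nt.Trim.Artin.Defs63
import Pool.Agent.Lib.MP_bf61d2_nt.Trim.Artin.H.BASH36
import Pool.Agent.Lib.MP_bf61d2_nt.Trim.Artin.H.CLOH36
import Pool.Agent.Lib.MP_bf61d2_nt.Trim.Artin.H.DefsH
import Pool.Agent.Lib.MP_bf61d2_nt.Trim.Artin.L.FINL73
import Pool.Agent.Lib.MP_bf61d2_nt.Trim.Artin.L.StmtsL63
import Pool.Agent.Lib.MP_bf61d2_nt.Trim.Artin.L.T1M73
import Pool.Agent.Lib.MP_bf61d2_nt.Trim.Artin.MO.AGR88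
import Pool.Agent.Lib.MP_bf61d2_nt.Trim.Artin.MO.MAINM88
import Pool.Agent.Lib.MP_bf61d2_nt.Trim.Artin.MO.StmtsG63
import Pool.Agent.Lib.MP_bf61d2_nt.Trim.Artin.MO.StmtsM63
import Pool.Agent.Lib.MP_bf61d2_nt.Trim.Artin.R.DefsR
import Pool.Agent.Lib.MP_bf61d2_nt.Trim.Artin.R.MAINRD84
import Pool.Agent.Lib.MP_bf61d2_nt.Trim.Artin.T.DefsT84
import Pool.Agent.Lib.MP_bf61d2_nt.Trim.Artin.T.PAGE84
import Pool.Agent.Lib.MP_bf61d2_nt.Trim.Artin.UK.MAINLU88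
import Pool.Agent.Lib.MP_bf61d2_nt.Trim.Artin.UK.StmtsU84
import Pool.Agent.Lib.MP_bf61d2_nt.Trim.Joint.Main
import Pool.Agent.Lib.MP_bf61d2_nt.Trim.Places
import Pool.Agent.Lib.MP_bf61d2_nt.Trim.PrimeSum
import Pool.Agent.Lib.MP_bf61d2_nt.Trim.Structure

set_option autoImplicit false

/-!
MONO (MP_bf61d2_nt), module MAINMG: the main theorem with the dimensions of the spaces of
intertwining operators.
-/

namespace NumberField
end NumberField

namespace Pool.Agent.Lib.MP_bf61d2_nt.Zeta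
end Pool.Agent.Lib.MP_bf61d2_nt.Zeta

namespace Pool.Agent.Lib.MP_bf61d2_nt.Perm
end Pool.Agent.Lib.MP_bf61d2_nt.Perm

namespace Pool.Agent.Lib.MP_bf61d2_nt.Artin.Ray

open NumberField IsDedekindDomain Module

open Pool.Agent.Lib.MP_bf61d2_nt.Zeta Pool.Agent.Lib.MP_bf61d2_nt.Perm

open scoped Classical

universe u

/-- A smaller property has fewer composita. -/
lemma homLE_mono88 {K F₁ F₂ : Type u} [Field K] [Field F₁] [Field F₂] [Algebra K F₁]
    [Algebra K F₂] {P P' : Cmp K F₁ F₂ → Prop} (h : ∀ C, P C → P' C) {μ : ℕ}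
    (hP : HomLE P' μ) : HomLE P μ :=
  fun C hC => hP C fun i => h _ (hC i)

/-- **MONO, module MAINMG.** -/
theorem stMAINMG_of (n m : ℕ) (hBES : StBESMG.{u} n m) (hBCU : ∀ k, StBCU.{u} k)
    (hWL1 : ∀ k, StWL1U.{u} k) (hLOG : ∀ k, StLELOGU.{u} k) (hTW : ∀ k, StSCTWLU.{u} k)
    (hT1 : StT1U.{u} n) : StMAINMG.{u} n m := by
  obtain ⟨G, hG, hbes⟩ := hBES
  obtain ⟨C₁, hC₁, hT1⟩ := hT1
  choose fb hfb hbcu using hBCU
  choose fB hfB hCX using hWL1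
  choose f0 hf0 hlt0 using hLOG
  choose fR hfR htw using hTW
  set U : ℕ := n * m with hU
  set Ab : ℝ := ∑ j ∈ Finset.range (U + 1), fb j with hAb
  set B₁ : ℝ := ∑ j ∈ Finset.range (U + 1), fB j with hB₁
  set R₀ : ℝ := ∑ j ∈ Finset.range (U + 1), f0 j with hR₀
  set R : ℝ := ∑ j ∈ Finset.range (U + 1), fR j with hR
  have hAb0 : 0 ≤ Ab := Finset.sum_nonneg fun j _ => hfb j
  have hfB0 : ∀ k, 0 ≤ fB k := fun k => by linarith [hfB k]
  have hB₁0 : 0 ≤ B₁ := Finset.sum_nonneg fun j _ => hfB0 j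
  have hR₀0 : 0 ≤ R₀ := Finset.sum_nonneg fun j _ => hf0 j
  have hR0 : 0 ≤ R := Finset.sum_nonneg fun j _ => hfR j
  set M : ℕ := (2 * U + 2) + (U + 1) with hM
  set D : ℝ := 2 * (M + 1) with hD
  have hD0 : 0 ≤ D := by positivity
  have hC₁0 : 0 ≤ C₁ := by linarith
  set Dd : ℝ := 2 * m * fB n + 2 * B₁ + R₀ with hDd
  set Bd : ℝ := R₀ + 2 * R + 2 * Ab with hBd
  have hBn := hfB0 n
  have hDd0 : 0 ≤ Dd := by positivity
  have hBd0 : 0 ≤ Bd := by positivity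
  refine ⟨(G * D) * C₁ + 2 * Dd * Bd + Bd ^ 2 + Dd ^ 2, by positivity,
    fun K _ _ hK Q hQ hdQ E _ δ hδ hδ2 N F _ _ _ d 𝔪 a b ψ t hS μ hμ g hg => ?_⟩
  replace hCXK := hCX n K hK
  replace hT1 := hT1 K hK
  have hrk : ∀ i, finrank ℚ (F i) ≤ U := by
    intro i
    have h1 : FiniteDimensional K (F i) := Module.Finite.of_restrictScalars_finite ℚ K (F i)
    rw [← Module.finrank_mul_finrank ℚ K (F i), hK]
    exact Nat.mul_le_mul_left n (hS i).1
  obtain ⟨hQ29, hl1, -⟩ := Q_facts hQ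
  obtain ⟨hQ4, hQ5, -⟩ := lq_pow hQ M
  have hlQ := log_pow73 hQ M
  rw [← hD] at hlQ
  set Q' : ℝ := (4 * Q) ^ (M + 1) with hQ'
  have hQ0 : 0 < Q := by linarith
  have hδ1 : δ ≤ 1 := by linarith
  have hc : ∀ v, |cc E v| ≤ 2 := fun v => abs_cc_le E v
  choose η hηr hη using fun i => exists_js88 (F i) (d i) (hS i).2.2.1
  have h4d : ∀ i, Ideal.span {((4 * d i : ℕ) : 𝓞 (F i))} ≠ ⊥ := by
    intro i
    rw [Ne, Ideal.span_singleton_eq_bot]
    have : (4 * d i : ℕ) ≠ 0 := by have := (hS i).2.2.1; omega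
    exact_mod_cast this
  set Z : Fin N → ℕ := fun i => ⌈(Ideal.absNorm (𝔪 i) : ℝ) * sz (a i) (b i)⌉₊ *
    (4 * d i) ^ finrank ℤ (𝓞 (F i)) with hZ
  have hHk : ∀ i, IsHk (𝔪 i * Ideal.span {((4 * d i : ℕ) : 𝓞 (F i))}) (Z i) (ψ i * η i) := by
    intro i
    obtain ⟨-, -, -, -, h3, h4, -⟩ := hS i
    refine isHk_mul ⟨h3, a i, b i, h4, Nat.le_ceil _⟩ ⟨h4d i, 0, 0, isHe_of_isRay (hηr i), ?_⟩
    rw [Ideal.absNorm_span_natCast]
    have : sz (0 : TA (F i)) (0 : TB (F i)) = 1 := by simp [sz]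
    rw [this, mul_one]
  have hfη : ∀ i I, ‖(ψ i * η i) I‖ ≤ 1 := fun i I => isHk_norm_le (hHk i) I
  have hf : ∀ i (v : HeightOneSpectrum (𝓞 (F i))), ‖ψ i v.asIdeal‖ ≤ 1 := by
    intro i v
    obtain ⟨-, -, -, -, h3, h4, -⟩ := hS i
    exact isHk_norm_le (Z := ⌈(Ideal.absNorm (𝔪 i) : ℝ) * sz (a i) (b i)⌉₊)
      ⟨h3, a i, b i, h4, Nat.le_ceil _⟩ _
  set X : Fin N → Mem K := fun i =>
    { F := F i, m := 𝔪 i * Ideal.span {((4 * d i : ℕ) : 𝓞 (F i))}, Z := Z i, ψ := ψ i * η i,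
      t := t i } with hX
  have hok : ∀ i, finrank K (X i).F ≤ m ∧ dK (X i).F ≤ Q' ∧ IsHk (X i).m (X i).Z (X i).ψ ∧
      ((X i).Z : ℝ) ≤ Q' ∧ |(X i).t| ≤ Q' := by
    intro i
    obtain ⟨h1, h2, h3, h4, h5, h6, h7, h8, h9, h10⟩ := hS i
    exact ⟨h1, h2.trans hQ5, hHk i, size_le88 (hrk i) hQ h4 h7 h8 h9, h10.trans hQ5⟩
  have h8 := hbes K hK Q' hQ4 (hdQ.trans hQ5) (fun v => cc E v) hc δ hδ hδ2 N X hok μ
    (fun i j => homLE_mono88
      (fun C hC => agr_of_TR88 C (hη i) (hη j) (hfη i) (hfη j) hC) (hμ i j)) g hg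
  set S₃ : ℝ := ∑ i, ∑ j, g i * g j * (μ i j * (δ ^ 2 / (δ ^ 2 + (t i - t j) ^ 2))) with hS₃
  have hjs : ∀ i, (fun v : HeightOneSpectrum (𝓞 (F i)) =>
      ψ i v.asIdeal * (js (d i) (nm v) : ℂ)) = fun v => (ψ i * η i) v.asIdeal := by
    intro i
    funext v
    show _ = ψ i v.asIdeal * η i v.asIdeal
    rw [hη i]
    rfl
  set lQ : ℝ := Real.log Q with hlQd
  have hlQ1 : 1 ≤ lQ := by linarith
  -- the errors
  have hl20 : ∀ x : ℝ, 0 < x → x ≤ Q → Real.log (20 * x) ≤ 2 * lQ := by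
    intro x hx hxQ
    have h7 := Real.log_le_log (by positivity) (show 20 * x ≤ Q ^ 2 by
      rw [pow_two]; exact mul_le_mul hQ hxQ hx.le hQ0.le)
    rwa [Real.log_pow] at h7
  set S₁ : ℝ := ∑ i, g i with hS₁
  have hS₁0 : 0 ≤ S₁ := Finset.sum_nonneg fun i _ => hg i
  have hS₂0 : 0 ≤ S₃ := Finset.sum_nonneg fun i _ => Finset.sum_nonneg fun j _ =>
    mul_nonneg (mul_nonneg (hg i) (hg j)) (by positivity)
  have e3 : ∑ i, ∑ j, g i * g j * (μ i j * (δ / (δ ^ 2 + (t i - t j) ^ 2))) = 1 / δ * S₃ := by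
    rw [hS₃, Finset.mul_sum]
    refine Finset.sum_congr rfl fun i _ => ?_
    rw [Finset.mul_sum]
    refine Finset.sum_congr rfl fun j _ => ?_
    field_simp
  set A : Fin N → ℂ := fun i => WL δ (fun v : HeightOneSpectrum (𝓞 K) => (cc E v : ℂ) *
    (A1 K (fun w : HeightOneSpectrum (𝓞 (F i)) => (ψ i * η i) w.asIdeal) v *
      ph (t i) (nm v))) with hA
  set V : Fin N → ℂ := fun i => logDeriv (LE (qt (E.baseChange (F i)) (d i : F i))
    (fun w => ψ i w.asIdeal)) ((3 / 2 + δ : ℝ) + t i * Complex.I) with hV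
  have hsumle : ∀ (H : Fin N → ℂ) (B : ℝ), (∀ i, ‖H i‖ ≤ B) →
      ‖∑ i, (g i : ℂ) * H i‖ ≤ B * S₁ := by
    intro H B hH
    refine (norm_sum_le _ _).trans ?_
    rw [hS₁, Finset.mul_sum]
    refine Finset.sum_le_sum fun i _ => ?_
    rw [norm_mul, Complex.norm_real, Real.norm_eq_abs, abs_of_nonneg (hg i), mul_comm]
    exact mul_le_mul_of_nonneg_right (hH i) (hg i)
  have hXD : ‖∑ i, (g i : ℂ) * A i‖ ≤ Dd / δ * S₁ := by
    refine hsumle _ _ fun i => ?_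
    refine (norm_WLA_le88 (hS i).1 hδ (hCXK δ hδ hδ1) hc (fun v => hfη i _) (t i)).trans ?_
    exact div_le_div_of_nonneg_right (by linarith) hδ.le
  have hYD : ‖∑ i, (g i : ℂ) * V i‖ ≤ Dd / δ * S₁ := by
    refine hsumle _ _ fun i => ?_
    have h1 := (hlt0 _ (F i) rfl (qt (E.baseChange (F i)) (d i : F i))
      (fun v => ψ i v.asIdeal) (hf i) δ (t i) hδ).2.2
    have h2 := norm_CRL_le88 hδ (hCX _ (F i) rfl δ hδ hδ1)
      (c := fun v => cc (qt (E.baseChange (F i)) (d i : F i)) v)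
      (fun v => abs_cc_le _ v) (f := fun v => ψ i v.asIdeal) (hf i) (t i)
    have h3 := norm_sub_norm_le (V i)
      (-CRL (fun v => cc (qt (E.baseChange (F i)) (d i : F i)) v)
        (fun v => ψ i v.asIdeal) δ (t i))
    rw [sub_neg_eq_add, norm_neg] at h3
    have h6 := h1.trans (le_sum88 hf0 (hrk i))
    have h7 : 2 * fB (finrank ℚ (F i)) / δ ≤ 2 * B₁ / δ :=
      div_le_div_of_nonneg_right (by linarith [le_sum88 hfB0 (hrk i)]) hδ.le
    have h4 : R₀ ≤ R₀ / δ := le_div_self (by assumption) hδ hδ1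
    have h5 : 0 ≤ 2 * m * fB n / δ := by positivity
    rw [hDd, add_div, add_div]
    linarith
  have hYX : ‖∑ i, (g i : ℂ) * V i‖ ≤ ‖∑ i, (g i : ℂ) * A i‖ + Bd * lQ * S₁ := by
    have h1 : ‖(∑ i, (g i : ℂ) * V i) + ∑ i, (g i : ℂ) * A i‖ ≤ Bd * lQ * S₁ := by
      rw [← Finset.sum_add_distrib]
      simp only [← mul_add]
      refine hsumle (fun i => V i + A i) _ fun i => ?_
      have h1 := (hlt0 _ (F i) rfl (qt (E.baseChange (F i)) (d i : F i))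
        (fun v => ψ i v.asIdeal) (hf i) δ (t i) hδ).2.2
      have h2 := htw _ (F i) rfl (E.baseChange (F i)) (d i) (hS i).2.2.1
        (fun v => ψ i v.asIdeal) (hf i) δ (t i) hδ
      have h3 := hbcu _ K (F i) rfl E (fun v => (ψ i * η i) v.asIdeal) (fun v => hfη i _) δ (t i) hδ
      rw [hjs i] at h2
      have e : V i + A i =
          (V i + CRL (fun v => cc (qt (E.baseChange (F i)) (d i : F i)) v)
            (fun v => ψ i v.asIdeal) δ (t i)) -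
          (CRL (fun v => cc (qt (E.baseChange (F i)) (d i : F i)) v)
            (fun v => ψ i v.asIdeal) δ (t i) -
            CRL (fun v => cc (E.baseChange (F i)) v) (fun v => (ψ i * η i) v.asIdeal) δ (t i)) -
          (CRL (fun v => cc (E.baseChange (F i)) v) (fun v => (ψ i * η i) v.asIdeal) δ (t i) -
            A i) := by ring
      rw [e]
      have h1' := h1.trans (le_sum88 hf0 (hrk i))
      have hdp : (0 : ℝ) < d i := by exact_mod_cast (hS i).2.2.1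
      have h2' := h2.trans (mul_le_mul (le_sum88 hfR (hrk i)) (hl20 _ hdp (hS i).2.2.2.1)
        (Real.log_nonneg (by
          have : (1 : ℝ) ≤ d i := by exact_mod_cast (hS i).2.2.1
          linarith)) hR0)
      have h3' := h3.trans (mul_le_mul (le_sum88 hfb (hrk i))
        (hl20 _ (by linarith [one_le_dK88 (F i)]) (hS i).2.1)
        (Real.log_nonneg (by linarith [one_le_dK88 (F i)])) hAb0)
      refine (norm_sub_le _ _).trans (le_trans (add_le_add (norm_sub_le _ _) le_rfl) ?_)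
      have h5 : R₀ ≤ R₀ * lQ := le_mul_of_one_le_right hR₀0 hlQ1
      rw [hBd]
      linarith
    have h2 := norm_sub_norm_le (∑ i, (g i : ℂ) * V i) (-∑ i, (g i : ℂ) * A i)
    rw [sub_neg_eq_add, norm_neg] at h2
    linarith
  have hT0 := T1_nonneg73 E hδ
  have hX2 : ‖∑ i, (g i : ℂ) * A i‖ ^ 2 ≤
      T1 E δ * (1 / δ * S₃ + (G * D) * lQ * S₁ ^ 2) := by
    have hlQ0 : 0 ≤ Real.log Q' := Real.log_nonneg (by linarith)
    have h9 : G * Real.log Q' * S₁ ^ 2 ≤ G * (D * lQ) * S₁ ^ 2 := by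
      refine mul_le_mul_of_nonneg_right ?_ (sq_nonneg _)
      exact mul_le_mul_of_nonneg_left hlQ hG
    refine h8.trans (mul_le_mul (T1_facts73 E δ hδ).1 ?_ ?_ hT0)
    · rw [← e3]
      linarith
    · show 0 ≤ (∑ i, ∑ j, g i * g j * (μ i j * (δ / (δ ^ 2 + (t i - t j) ^ 2)))) +
        G * Real.log Q' * S₁ ^ 2
      rw [e3]
      positivity
  exact final_real88 (B := Bd) (D := Dd) hδ hlQ1 hT0
    (hT1 E δ hδ hδ1).2.2 hC₁0 (by positivity : 0 ≤ G * D) hBd0 hDd0 hS₁0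
    hS₂0 hX2 hXD hYX hYD (norm_nonneg _)

end Pool.Agent.Lib.MP_bf61d2_nt.Artin.Ray
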