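import Mathlib
import Pool.Agent.Lib.MP_bf61d2_nt.Trim.Artin.H.DefsH

set_option autoImplicit false

/-!
MONO, module M1: the composition of a unitary Hecke character with the relative norm is a unitary
Hecke character (MP_bf61d2_nt) (helper84).
-/

namespace NumberField
end NumberField

namespace Pool.Agent.Lib.MP_bf61d2_nt.Artin.Ray
end Pool.Agent.Lib.MP_bf61d2_nt.Artin.Ray

namespace Pool.Agent.Lib.MP_bf61d2_nt.Artin.MO

open NumberField NumberField.mixedEmbedding IsDedekindDomain Module

open scoped Classical ComplexConjugate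

open Pool.Agent.Lib.MP_bf61d2_nt.Artin.Ray

section Congr

theorem norm_sub_one_mem_of_free {R S : Type*} [CommRing R] [CommRing S] [Algebra R S]
    [Module.Free R S] [Module.Finite R S] (I : Ideal R) {x : S}
    (hx : x - 1 ∈ I.map (algebraMap R S)) : Algebra.norm R x - 1 ∈ I := by
  let b := Module.Free.chooseBasis R S
  let f : S →+* Matrix (Module.Free.ChooseBasisIndex R S) (Module.Free.ChooseBasisIndex R S)
      (R ⧸ I) :=
    (Ideal.Quotient.mk I).mapMatrix.comp (Algebra.leftMulMatrix b).toRingHom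
  have hf : ∀ y, f y = (Algebra.leftMulMatrix b y).map (Ideal.Quotient.mk I) := fun y => rfl
  have h1 : I.map (algebraMap R S) ≤ RingHom.ker f := by
    rw [Ideal.map_le_iff_le_comap]
    intro r hr
    rw [Ideal.mem_comap, RingHom.mem_ker, hf]
    rw [AlgHom.commutes]
    ext i j
    rw [Matrix.map_apply, Matrix.algebraMap_matrix_apply]
    split_ifs with h
    · simpa using (Ideal.Quotient.eq_zero_iff_mem.2 hr)
    · simp
  have h2 : f x = 1 := by
    have := h1 hx
    rwa [RingHom.mem_ker, map_sub, map_one, sub_eq_zero] at this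
  rw [← Ideal.Quotient.eq_zero_iff_mem, map_sub, map_one, Algebra.norm_eq_matrix_det b,
    RingHom.map_det, sub_eq_zero]
  have h3 : (Ideal.Quotient.mk I).mapMatrix (Algebra.leftMulMatrix b x) = 1 := h2
  rw [h3, Matrix.det_one]

theorem intNorm_sub_one_mem {R S : Type*} [CommRing R] [IsDomain R] [CommRing S] [IsDomain S]
    [Algebra R S] [Module.Finite R S] [IsTorsionFree R S] [IsDedekindDomain R]
    [IsDedekindDomain S] (hR : ¬ IsField R) (I : Ideal R) {x : S}
    (hx : x - 1 ∈ I.map (algebraMap R S)) : Algebra.intNorm R S x - 1 ∈ I := by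
  refine Ideal.mem_of_localization_maximal fun P hP => ?_
  have hP0 : P ≠ ⊥ := Ring.ne_bot_of_isMaximal_of_not_isField hP hR
  have : NeZero P := ⟨hP0⟩
  let P' := Algebra.algebraMapSubmonoid S P.primeCompl
  rw [map_sub, map_one, Algebra.intNorm_eq_of_isLocalization P.primeCompl
    (Bₘ := Localization P'), Algebra.intNorm_eq_norm]
  apply norm_sub_one_mem_of_free
  have h1 : algebraMap S (Localization P') (x - 1) ∈
      (I.map (algebraMap R S)).map (algebraMap S (Localization P')) :=
    Ideal.mem_map_of_mem _ hx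
  rw [map_sub, map_one, Ideal.map_map, ← IsScalarTower.algebraMap_eq,
    IsScalarTower.algebraMap_eq R (Localization.AtPrime P) (Localization P'),
    ← Ideal.map_map] at h1
  exact h1

end Congr

section Emb

variable {F L : Type*} [Field F] [NumberField F] [Field L] [NumberField L] [Algebra F L]

/-- The complex embeddings of `L` over the embedding `φ` of `F`. -/
noncomputable def PE (L : Type*) [Field L] [NumberField L] [Algebra F L] (φ : F →+* ℂ) :
    Finset (L →+* ℂ) :=
  Finset.univ.filter fun σ => σ.comp (algebraMap F L) = φ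

lemma mem_PE {φ : F →+* ℂ} {σ : L →+* ℂ} : σ ∈ PE L φ ↔ σ.comp (algebraMap F L) = φ := by
  simp [PE]

lemma norm_eq_PE (φ : F →+* ℂ) (x : L) : φ (Algebra.norm F x) = ∏ σ ∈ PE L φ, σ x := by
  let _ := φ.toAlgebra
  have h := Algebra.norm_eq_prod_embeddings F ℂ x
  rw [RingHom.algebraMap_toAlgebra] at h
  rw [h]
  refine Finset.prod_bij' (fun (σ : L →ₐ[F] ℂ) _ => (σ : L →+* ℂ))
    (fun σ hσ => ({ σ with commutes' := fun r => RingHom.congr_fun (mem_PE.1 hσ) r } :
      L →ₐ[F] ℂ)) (fun σ _ => mem_PE.2 (RingHom.ext fun r => σ.commutes r))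
    (fun σ hσ => Finset.mem_univ _) (fun σ _ => ?_) (fun σ hσ => ?_) (fun σ _ => rfl)
  · ext; rfl
  · ext; rfl

lemma card_PE (φ : F →+* ℂ) : (PE L φ).card = finrank F L := by
  let _ := φ.toAlgebra
  have h := AlgHom.card F L ℂ
  rw [← h, ← Finset.card_univ]
  refine (Finset.card_bij' (fun (σ : L →ₐ[F] ℂ) _ => (σ : L →+* ℂ))
    (fun σ hσ => ({ σ with commutes' := fun r => RingHom.congr_fun (mem_PE.1 hσ) r } :
      L →ₐ[F] ℂ)) (fun σ _ => mem_PE.2 (RingHom.ext fun r => σ.commutes r))
    (fun σ hσ => Finset.mem_univ _) (fun σ _ => ?_) (fun σ hσ => ?_)).symm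
  · ext; rfl
  · ext; rfl

lemma place_norm (w : InfinitePlace F) (x : L) :
    w (Algebra.norm F x) = ∏ σ ∈ PE L w.embedding, InfinitePlace.mk σ x := by
  rw [← InfinitePlace.norm_embedding_eq, norm_eq_PE, norm_prod]
  rfl

lemma isComplex_of_mem_PE {w : InfinitePlace F} (hw : w.IsComplex) {σ : L →+* ℂ}
    (hσ : σ ∈ PE L w.embedding) : (InfinitePlace.mk σ).IsComplex := by
  rw [InfinitePlace.isComplex_mk_iff]
  intro h
  rw [InfinitePlace.isComplex_iff] at hw
  apply hw
  rw [← mem_PE.1 hσ]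
  exact h.comp _

/-- Positivity of the norm at a real place. -/
lemma norm_pos_of_real (φ : F →+* ℝ) {x : L} (hx : x ≠ 0) (hpos : ∀ θ : L →+* ℝ, 0 < θ x) :
    0 < φ (Algebra.norm F x) := by
  let φ' : F →+* ℂ := (Complex.ofRealHom).comp φ
  have hφ : ∀ y, φ' y = (φ y : ℂ) := fun y => rfl
  have hne : ∀ σ : L →+* ℂ, σ x ≠ 0 := fun σ h => hx (by simpa using h)
  have hconj : ∀ σ ∈ PE L φ', ComplexEmbedding.conjugate σ ∈ PE L φ' := by
    intro σ hσ
    rw [mem_PE] at hσ ⊢
    ext y
    have h5 : σ (algebraMap F L y) = φ' y := RingHom.congr_fun hσ y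
    change conj (σ (algebraMap F L y)) = φ' y
    rw [h5, hφ, Complex.conj_ofReal]
  have h1 : ∏ σ ∈ PE L φ', σ x / (‖σ x‖ : ℂ) = 1 := by
    refine Finset.prod_involution (fun σ _ => ComplexEmbedding.conjugate σ) ?_ ?_ ?_ ?_
    · intro σ _
      rw [ComplexEmbedding.conjugate_coe_eq, RCLike.norm_conj, div_mul_div_comm, Complex.mul_conj,
        Complex.normSq_eq_norm_sq]
      have h0 : (‖σ x‖ : ℂ) ≠ 0 := by
        rw [Ne, Complex.ofReal_eq_zero, norm_eq_zero]
        exact hne σ
      push_cast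
      rw [sq, div_self (mul_ne_zero h0 h0)]
    · intro σ _ hσ1 h
      apply hσ1
      have hr : ComplexEmbedding.IsReal σ := ComplexEmbedding.isReal_iff.2 h
      have h2 := hr.coe_embedding_apply x
      rw [← h2]
      have h3 := hpos hr.embedding
      rw [Complex.norm_real, Real.norm_eq_abs, abs_of_pos h3, div_self]
      exact_mod_cast h3.ne'
    · intro σ hσ
      exact hconj σ hσ
    · intro σ _
      exact ComplexEmbedding.involutive_conjugate _ σ
  have h2 : φ' (Algebra.norm F x) = ((∏ σ ∈ PE L φ', ‖σ x‖ : ℝ) : ℂ) := by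
    rw [norm_eq_PE]
    rw [Finset.prod_div_distrib] at h1
    have h0 : ∏ σ ∈ PE L φ', (‖σ x‖ : ℂ) ≠ 0 := by
      rw [Finset.prod_ne_zero_iff]
      intro σ _
      rw [Ne, Complex.ofReal_eq_zero, norm_eq_zero]
      exact hne σ
    rw [div_eq_one_iff_eq h0] at h1
    rw [h1]
    push_cast
    rfl
  rw [hφ] at h2
  have h3 : φ (Algebra.norm F x) = ∏ σ ∈ PE L φ', ‖σ x‖ := by exact_mod_cast h2
  rw [h3]
  exact Finset.prod_pos fun σ _ => norm_pos_iff.2 (hne σ)

lemma zpow_sum₀ {ι : Type*} (s : Finset ι) {u : ℂ} (hu : u ≠ 0) (f : ι → ℤ) :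
    u ^ (∑ i ∈ s, f i) = ∏ i ∈ s, u ^ f i := by
  induction s using Finset.induction_on with
  | empty => simp
  | insert i s hi ih => rw [Finset.sum_insert hi, Finset.prod_insert hi, zpow_add₀ hu, ih]

/-- The sign which compares an embedding with the chosen embedding of its place. -/
noncomputable def eps (σ : L →+* ℂ) : ℤ := if σ = (InfinitePlace.mk σ).embedding then 1 else -1

lemma unit_pow_eps (σ : L →+* ℂ) {x : L} (hx : x ≠ 0) :
    ((InfinitePlace.mk σ).embedding x / (‖(InfinitePlace.mk σ).embedding x‖ : ℂ)) ^ (eps σ) =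
      σ x / (‖σ x‖ : ℂ) := by
  rw [eps]
  split_ifs with h
  · rw [zpow_one, ← h]
  · have h1 : (InfinitePlace.mk σ).embedding = ComplexEmbedding.conjugate σ := by
      rcases InfinitePlace.embedding_mk_eq σ with h2 | h2
      · exact absurd h2.symm h
      · exact h2
    have h0 : (‖σ x‖ : ℂ) ≠ 0 := by
      rw [Ne, Complex.ofReal_eq_zero, norm_eq_zero]
      exact fun h => hx (by simpa using h)
    have h00 : conj (σ x) ≠ 0 := by
      rw [Ne, map_eq_zero]
      exact fun h => hx (by simpa using h)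
    rw [h1, ComplexEmbedding.conjugate_coe_eq, RCLike.norm_conj, zpow_neg, zpow_one, inv_div,
      div_eq_div_iff h00 h0, Complex.mul_conj, Complex.normSq_eq_norm_sq]
    push_cast
    ring

/-- The exponents at the complex places, for the character composed with the norm. -/
noncomputable def aN (L : Type*) [Field L] [NumberField L] [Algebra F L] (a : TA F) : TA L :=
  fun W => ∑ w : {w : InfinitePlace F // w.IsComplex}, a w *
    ∑ σ ∈ PE L w.1.embedding, if InfinitePlace.mk σ = W.1 then eps σ else 0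

/-- The exponents at the infinite places, for the character composed with the norm. -/
noncomputable def bN (L : Type*) [Field L] [NumberField L] [Algebra F L] (b : TB F) : TB L :=
  fun W => ∑ w : InfinitePlace F, b w *
    (((PE L w.embedding).filter fun σ => InfinitePlace.mk σ = W).card : ℝ)

lemma sum_bN_mul (b : TB F) (f : InfinitePlace L → ℝ) :
    ∑ W, bN L b W * f W = ∑ w, b w * ∑ σ ∈ PE L w.embedding, f (InfinitePlace.mk σ) := by
  simp only [bN, Finset.sum_mul]
  rw [Finset.sum_comm]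
  refine Finset.sum_congr rfl fun w _ => ?_
  rw [← Finset.sum_fiberwise' (PE L w.embedding) InfinitePlace.mk f, Finset.mul_sum]
  refine Finset.sum_congr rfl fun W _ => ?_
  rw [Finset.sum_const, nsmul_eq_mul, mul_assoc]

lemma sum_bN (b : TB F) : ∑ W, bN L b W = (finrank F L : ℝ) * ∑ w, b w := by
  have h := sum_bN_mul (L := L) b fun _ => 1
  simp only [mul_one, Finset.sum_const, card_PE, nsmul_eq_mul] at h
  rw [h, Finset.mul_sum]
  exact Finset.sum_congr rfl fun w _ => mul_comm _ _

lemma sum_abs_bN (b : TB F) : ∑ W, |bN L b W| ≤ (finrank F L : ℝ) * ∑ w, |b w| := by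
  have h := sum_bN (L := L) fun w => |b w|
  rw [← h]
  refine Finset.sum_le_sum fun W _ => ?_
  rw [bN, bN]
  refine (Finset.abs_sum_le_sum_abs _ _).trans (Finset.sum_le_sum fun w _ => ?_)
  rw [abs_mul, Nat.abs_cast]

lemma sum_abs_aN (a : TA F) : ∑ W, |(aN L a W : ℝ)| ≤ (finrank F L : ℝ) * ∑ w, |(a w : ℝ)| := by
  have h1 : ∀ W : {W : InfinitePlace L // W.IsComplex}, |(aN L a W : ℝ)| ≤
      ∑ w : {w : InfinitePlace F // w.IsComplex}, |(a w : ℝ)| *
        ∑ σ ∈ PE L w.1.embedding, if InfinitePlace.mk σ = W.1 then 1 else 0 := by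
    intro W
    rw [aN]
    push_cast
    refine (Finset.abs_sum_le_sum_abs _ _).trans (Finset.sum_le_sum fun w _ => ?_)
    rw [abs_mul]
    refine mul_le_mul_of_nonneg_left ((Finset.abs_sum_le_sum_abs _ _).trans
      (Finset.sum_le_sum fun σ _ => ?_)) (abs_nonneg _)
    split_ifs with h
    · rw [eps]
      split_ifs <;> simp
    · simp
  refine (Finset.sum_le_sum fun W _ => h1 W).trans ?_
  rw [Finset.sum_comm, Finset.mul_sum]
  refine Finset.sum_le_sum fun w _ => ?_
  rw [← Finset.mul_sum, mul_comm]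
  refine mul_le_mul_of_nonneg_right ?_ (abs_nonneg _)
  rw [Finset.sum_comm, ← card_PE (L := L) w.1.embedding]
  calc ∑ σ ∈ PE L w.1.embedding, ∑ W : {W : InfinitePlace L // W.IsComplex},
        (if InfinitePlace.mk σ = W.1 then (1 : ℝ) else 0)
      ≤ ∑ σ ∈ PE L w.1.embedding, 1 := Finset.sum_le_sum fun σ hσ => by
        rw [Finset.sum_eq_single (⟨InfinitePlace.mk σ, isComplex_of_mem_PE w.2 hσ⟩ :
          {W : InfinitePlace L // W.IsComplex})]
        · simp
        · intro W _ hW
          rw [if_neg]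
          intro h
          exact hW (Subtype.ext h.symm)
        · simp
    _ = _ := by simp

lemma sz_N (a : TA F) (b : TB F) : sz (aN L a) (bN L b) ≤ (finrank F L : ℝ) * sz a b := by
  rw [sz, sz]
  have h1 := sum_abs_aN (L := L) a
  have h2 := sum_abs_bN (L := L) b
  have h3 : (1 : ℝ) ≤ finrank F L := by exact_mod_cast finrank_pos
  linarith

lemma norm_mE_ne_zero (W : {W : InfinitePlace L // W.IsComplex}) {x : L} (hx : x ≠ 0) :
    (mixedEmbedding L x).2 W / (‖(mixedEmbedding L x).2 W‖ : ℂ) ≠ 0 := by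
  rw [mixedEmbedding_apply_isComplex]
  have h : W.1.embedding x ≠ 0 := fun h => hx (by simpa using h)
  refine div_ne_zero h ?_
  rw [Ne, Complex.ofReal_eq_zero, norm_eq_zero]
  exact h

lemma lamX_norm (a : TA F) (b : TB F) {x : L} (hx : x ≠ 0) :
    lamX a b (mixedEmbedding F (Algebra.norm F x)) =
      lamX (aN L a) (bN L b) (mixedEmbedding L x) := by
  rw [lamX, lamX]
  congr 1
  · symm
    calc ∏ W : {W : InfinitePlace L // W.IsComplex},
          ((mixedEmbedding L x).2 W / (‖(mixedEmbedding L x).2 W‖ : ℂ)) ^ (aN L a W)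
        = ∏ W : {W : InfinitePlace L // W.IsComplex}, ∏ w : {w : InfinitePlace F // w.IsComplex},
          (∏ σ ∈ PE L w.1.embedding,
            ((mixedEmbedding L x).2 W / (‖(mixedEmbedding L x).2 W‖ : ℂ)) ^
              (if InfinitePlace.mk σ = W.1 then eps σ else 0)) ^ (a w) := by
          refine Finset.prod_congr rfl fun W _ => ?_
          rw [aN, zpow_sum₀ _ (norm_mE_ne_zero W hx)]
          refine Finset.prod_congr rfl fun w _ => ?_
          rw [mul_comm, zpow_mul, zpow_sum₀ _ (norm_mE_ne_zero W hx)]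
      _ = ∏ w : {w : InfinitePlace F // w.IsComplex}, (∏ σ ∈ PE L w.1.embedding,
            ∏ W : {W : InfinitePlace L // W.IsComplex},
            ((mixedEmbedding L x).2 W / (‖(mixedEmbedding L x).2 W‖ : ℂ)) ^
              (if InfinitePlace.mk σ = W.1 then eps σ else 0)) ^ (a w) := by
          rw [Finset.prod_comm]
          refine Finset.prod_congr rfl fun w _ => ?_
          rw [Finset.prod_zpow, Finset.prod_comm]
      _ = _ := by
          refine Finset.prod_congr rfl fun w _ => ?_
          congr 1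
          rw [mixedEmbedding_apply_isComplex, norm_eq_PE, norm_prod]
          push_cast
          rw [← Finset.prod_div_distrib]
          refine Finset.prod_congr rfl fun σ hσ => ?_
          rw [Finset.prod_eq_single (⟨InfinitePlace.mk σ, isComplex_of_mem_PE w.2 hσ⟩ :
            {W : InfinitePlace L // W.IsComplex})]
          · rw [if_pos rfl, mixedEmbedding_apply_isComplex, unit_pow_eps σ hx]
          · intro W _ hW
            rw [if_neg, zpow_zero]
            intro h
            exact hW (Subtype.ext h.symm)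
          · simp
  · congr 3
    simp only [normAtPlace_apply]
    rw [sum_bN_mul (L := L) b fun W => Real.log (W x)]
    refine Finset.sum_congr rfl fun w _ => ?_
    rw [place_norm, Real.log_prod]
    intro σ _
    exact (InfinitePlace.pos_iff.2 hx).ne'

/-- Composition of a Hecke character with the relative norm. -/
theorem isHe_norm {𝔪 : Ideal (𝓞 F)} {a : TA F} {b : TB F} {ψ : Ideal (𝓞 F) →*₀ ℂ}
    (h : IsHe 𝔪 a b ψ) :
    IsHe (𝔪.map (algebraMap (𝓞 F) (𝓞 L))) (aN L a) (bN L b)
      (ψ.comp (Ideal.relNorm (𝓞 F))) := by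
  obtain ⟨h1, h2, h3⟩ := h
  refine ⟨by rw [sum_bN, h1, mul_zero], ?_, ?_⟩
  · intro γ hγ hγm hγp
    have hγ' : (γ : L) ≠ 0 := by exact_mod_cast hγ
    have hN : ((Algebra.intNorm (𝓞 F) (𝓞 L) γ : 𝓞 F) : F) = Algebra.norm F (γ : L) :=
      Algebra.algebraMap_intNorm (K := F) (L := L) γ
    have h4 := h2 (Algebra.intNorm (𝓞 F) (𝓞 L) γ) ?_ ?_ ?_
    · rw [hN, lamX_norm a b hγ'] at h4
      rw [← h4]
      change ψ (Ideal.relNorm (𝓞 F) (Ideal.span {γ})) = _
      rw [Ideal.relNorm_singleton]
    · rw [Algebra.intNorm_ne_zero]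
      exact hγ
    · exact intNorm_sub_one_mem (RingOfIntegers.not_isField F) 𝔪 hγm
    · intro φ
      rw [hN]
      exact norm_pos_of_real φ hγ' hγp
  · intro v
    have hv := v.isMaximal
    let p := v.asIdeal.under (𝓞 F)
    have hp : p.IsMaximal := inferInstance
    have hp0 : p ≠ ⊥ := Ring.ne_bot_of_isMaximal_of_not_isField hp (RingOfIntegers.not_isField F)
    have h4 := h3 ⟨p, hp.isPrime, hp0⟩
    change ψ (Ideal.relNorm (𝓞 F) v.asIdeal) = 0 ↔ _
    rw [Ideal.relNorm_eq_pow_of_isMaximal v.asIdeal p, map_pow, pow_eq_zero_iff, h4,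
      Ideal.map_le_iff_le_comap]
    exact (Ideal.inertiaDeg_pos v.asIdeal (𝓞 F)).ne'

/-- Composition of a Hecke character of bounded modulus and size with the relative norm. -/
theorem isHk_norm {𝔪 : Ideal (𝓞 F)} {Z : ℕ} {ψ : Ideal (𝓞 F) →*₀ ℂ} (h : IsHk 𝔪 Z ψ) :
    IsHk (𝔪.map (algebraMap (𝓞 F) (𝓞 L))) (finrank F L * Z ^ finrank F L)
      (ψ.comp (Ideal.relNorm (𝓞 F))) := by
  obtain ⟨h0, a, b, h1, h2⟩ := h
  have hn : finrank (𝓞 F) (𝓞 L) = finrank F L := by
    exact (IsFractionRing.finrank_eq (𝓞 F) F (𝓞 L) L).symm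
  refine ⟨?_, aN L a, bN L b, isHe_norm h1, ?_⟩
  · intro h3
    apply h0
    rw [Ideal.map_eq_bot_iff_of_injective] at h3
    · exact h3
    · exact FaithfulSMul.algebraMap_injective _ _
  · rw [Ideal.absNorm_algebraMap, hn]
    have h3 := sz_N (L := L) a b
    have h4 : (1 : ℝ) ≤ sz a b := by
      rw [sz]
      have h5 : 0 ≤ ∑ w : {w : InfinitePlace F // w.IsComplex}, |(a w : ℝ)| :=
        Finset.sum_nonneg fun w _ => abs_nonneg _
      have h6 : 0 ≤ ∑ w : InfinitePlace F, |b w| := Finset.sum_nonneg fun w _ => abs_nonneg _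
      linarith
    have h5 : (0 : ℝ) ≤ Ideal.absNorm 𝔪 := Nat.cast_nonneg _
    have h7 : (1 : ℕ) ≤ finrank F L := finrank_pos
    push_cast
    calc ((Ideal.absNorm 𝔪 : ℝ) ^ finrank F L) * sz (aN L a) (bN L b)
        ≤ ((Ideal.absNorm 𝔪 : ℝ) ^ finrank F L) * ((finrank F L : ℝ) * sz a b) :=
          mul_le_mul_of_nonneg_left h3 (by positivity)
      _ ≤ ((Ideal.absNorm 𝔪 : ℝ) ^ finrank F L) * ((finrank F L : ℝ) * sz a b ^ finrank F L) := by
          refine mul_le_mul_of_nonneg_left (mul_le_mul_of_nonneg_left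
            (le_self_pow₀ h4 (by omega)) (Nat.cast_nonneg _)) (by positivity)
      _ = (finrank F L : ℝ) * ((Ideal.absNorm 𝔪 : ℝ) * sz a b) ^ finrank F L := by
          rw [mul_pow]; ring
      _ ≤ (finrank F L : ℝ) * (Z : ℝ) ^ finrank F L := by
          refine mul_le_mul_of_nonneg_left (pow_le_pow_left₀ (by positivity) h2 _)
            (Nat.cast_nonneg _)

end Emb

end Pool.Agent.Lib.MP_bf61d2_nt.Artin.MO
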