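import Mathlib
import Pool.Agent.Lib.MP_bf61d2_nt.Trim.Artin.H.DefsH
import Pool.Agent.Lib.MP_bf61d2_nt.Trim.Artin.MO.NORMH84
import Pool.Agent.Lib.MP_bf61d2_nt.Trim.Artin.MO.StmtsM63

set_option autoImplicit false

/-!
MONO (MP_bf61d2_nt): the modules NRA and NRM (helper84).
-/

namespace NumberField
end NumberField

namespace Pool.Agent.Lib.MP_bf61d2_nt.Artin.Ray

open NumberField IsDedekindDomain Module

open scoped Classical

universe u

/-- NRM: the pull back of a Hecke character by the norm. -/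
theorem stNRM : StNRM.{u} := by
  intro F L _ _ _ _ α 𝔪 Z ψ h D hD
  let _ : Algebra F L := α.toAlgebra
  have h1 := MO.isHk_norm (L := L) h
  have hn : 1 ≤ finrank F L := finrank_pos
  have hnD : finrank F L ≤ D := by
    have h2 := finrank_mul_finrank ℚ F L
    have h3 : 0 < finrank ℚ F := finrank_pos
    nlinarith
  have hZ : 1 ≤ Z := by
    obtain ⟨h0, a, b, h2, h3⟩ := h
    by_contra hZ
    have hZ0 : Z = 0 := by omega
    rw [hZ0, Nat.cast_zero] at h3
    have h4 : (1 : ℝ) ≤ Ideal.absNorm 𝔪 := by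
      have : Ideal.absNorm 𝔪 ≠ 0 := by
        rw [Ne, Ideal.absNorm_eq_zero_iff]
        exact h0
      exact_mod_cast Nat.one_le_iff_ne_zero.2 this
    have h5 : (1 : ℝ) ≤ sz a b := by
      rw [sz]
      have h6 : 0 ≤ ∑ w : {w : InfinitePlace F // w.IsComplex}, |(a w : ℝ)| :=
        Finset.sum_nonneg fun w _ => abs_nonneg _
      have h7 : 0 ≤ ∑ w : InfinitePlace F, |b w| := Finset.sum_nonneg fun w _ => abs_nonneg _
      linarith
    nlinarith
  have h2 : finrank F L * Z ^ finrank F L ≤ (D * Z) ^ D := by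
    rw [mul_pow]
    refine Nat.mul_le_mul ?_ (Nat.pow_le_pow_right hZ hnD)
    exact hnD.trans (Nat.le_self_pow (by omega) D)
  obtain ⟨h3, a, b, h4, h5⟩ := h1
  exact ⟨h3, a, b, h4, h5.trans (by exact_mod_cast h2)⟩

end Pool.Agent.Lib.MP_bf61d2_nt.Artin.Ray
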