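import Mathlib
import Pool.Agent.Lib.MP_bf61d2_nt.Trim.Artin.MO.DISC33
import Pool.Agent.Lib.MP_bf61d2_nt.Trim.Artin.MO.StmtsM63
import Pool.Agent.Lib.MP_bf61d2_nt.Trim.Artin.U2.SHORT33
import Pool.Agent.Lib.MP_bf61d2_nt.Trim.Artin.UK.StmtsU84

set_option autoImplicit false

/-!
MONO (MP_bf61d2_nt): modules THE and DSC.
-/

namespace NumberField
end NumberField

namespace Pool.Agent.Lib.MP_bf61d2_nt.Artin.Ray

open NumberField IsDedekindDomain Module

open scoped IntermediateField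

universe u

lemma one_le_dK33 (F : Type u) [Field F] [NumberField F] : 1 ≤ dK F := by
  have h : (1 : ℤ) ≤ |discr F| := Int.one_le_abs (discr_ne_zero F)
  rw [dK]
  exact_mod_cast h

/-- Module THE. -/
theorem stTHE (n : ℕ) : StTHE.{u} n := by
  obtain ⟨C, hC, h⟩ := hermite33.{u} n
  refine ⟨C, 1, hC, fun F _ _ hn => ?_⟩
  obtain ⟨θ, hθ, hw⟩ := h F hn
  refine ⟨θ, hθ, fun w => (hw w).trans ?_⟩
  have h1 : Real.sqrt |((discr F : ℤ) : ℝ)| ≤ dK F := by
    have h2 := one_le_dK33 F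
    rw [← dK, Real.sqrt_le_left (by linarith)]
    nlinarith
  rw [pow_one]
  gcongr

/-- The products of the elements of the two subfields span a compositum. -/
lemma span_of_gen33 {K F₁ F₂ : Type u} [Field K] [NumberField K] [Field F₁] [NumberField F₁]
    [Field F₂] [NumberField F₂] [Algebra K F₁] [Algebra K F₂] (C : Cmp K F₁ F₂) :
    Submodule.span ℚ (Set.range fun p : F₁ × F₂ =>
      (C.α : F₁ →+* C.L) p.1 * (C.β : F₂ →+* C.L) p.2) = ⊤ := by
  have h1 : C.α.fieldRange.toSubalgebra ⊔ C.β.fieldRange.toSubalgebra =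
      (⊤ : Subalgebra K C.L) := by
    rw [← IntermediateField.sup_toSubalgebra_of_isAlgebraic_right, C.gen,
      IntermediateField.top_toSubalgebra]
  have h2 := Subalgebra.mul_toSubmodule C.α.fieldRange.toSubalgebra
    C.β.fieldRange.toSubalgebra
  rw [h1, Algebra.top_toSubmodule] at h2
  rw [eq_top_iff]
  intro z _
  have hz : z ∈ Subalgebra.toSubmodule C.α.fieldRange.toSubalgebra *
      Subalgebra.toSubmodule C.β.fieldRange.toSubalgebra := by
    rw [h2]
    trivial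
  refine Submodule.mul_induction_on hz ?_ fun x y hx hy => Submodule.add_mem _ hx hy
  rintro _ ⟨u, rfl⟩ _ ⟨v, rfl⟩
  exact Submodule.subset_span ⟨(u, v), rfl⟩

/-- Module DSC. -/
theorem stDSC (n : ℕ) : StDSC.{u} n := by
  obtain ⟨C, hC, k, h⟩ := disc33.{u} n
  exact ⟨C, k, hC, fun K F₁ F₂ _ _ _ _ _ _ _ _ X hn₁ hn₂ =>
    h F₁ F₂ X.L (X.α : F₁ →+* X.L) (X.β : F₂ →+* X.L) hn₁ hn₂ (span_of_gen33 X)⟩

end Pool.Agent.Lib.MP_bf61d2_nt.Artin.Ray
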