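import Mathlib
import Pool.Agent.Lib.MP_bf61d2_nt.Trim.Artin.H.StmtsH
import Pool.Agent.Lib.MP_bf61d2_nt.Trim.Artin.L.LOCAL73
import Pool.Agent.Lib.MP_bf61d2_nt.Trim.Artin.L.StmtsL63
import Pool.Agent.Lib.MP_bf61d2_nt.Trim.Artin.MO.BESM73
import Pool.Agent.Lib.MP_bf61d2_nt.Trim.Artin.MO.BIJ42
import Pool.Agent.Lib.MP_bf61d2_nt.Trim.Artin.MO.CPL93
import Pool.Agent.Lib.MP_bf61d2_nt.Trim.Artin.MO.DEG36
import Pool.Agent.Lib.MP_bf61d2_nt.Trim.Artin.MO.GRM63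
import Pool.Agent.Lib.MP_bf61d2_nt.Trim.Artin.MO.NRM84
import Pool.Agent.Lib.MP_bf61d2_nt.Trim.Artin.MO.StmtsM63
import Pool.Agent.Lib.MP_bf61d2_nt.Trim.Artin.MO.THE33
import Pool.Agent.Lib.MP_bf61d2_nt.Trim.Artin.UK.UFIN84

set_option autoImplicit false

/-!
MONO (MP_bf61d2_nt): assembly of the one sided inequality of Bessel.
-/

namespace NumberField
end NumberField

namespace Pool.Agent.Lib.MP_bf61d2_nt.Artin.Ray

open NumberField IsDedekindDomain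

open scoped Classical

universe u

/-- The bounds of the entries of the matrix of Gram. -/
theorem stGRM_84 (n : ℕ) (hCLO : StCLO.{u}) (hBAD : ∀ k, StBAD.{u} k) (hNRP : StNRP.{u}) :
    StGRM.{u} n :=
  stGRM_of n (stCPL_of n stBIJ hCLO hBAD) (stDSC n) stNRM hNRP stDEG stONELU
    fun L _ _ => (onel_facts73 L).2.1

/-- The one sided inequality of Bessel for the monomial twists. -/
theorem stBESM_84 (n m : ℕ) (hCLO : StCLO.{u}) (hBAD : ∀ k, StBAD.{u} k) (hNRP : StNRP.{u}) :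
    StBESM.{u} n m :=
  stBESM_of n m (stGRM_84 (n * m) hCLO hBAD hNRP)

end Pool.Agent.Lib.MP_bf61d2_nt.Artin.Ray
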