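import Mathlib
import Pool.Agent.Lib.MP_bf61d2_nt.Trim.Artin.MO.StmtsM63
import Pool.Agent.Lib.MP_bf61d2_nt.Trim.Perm.Frob
import Pool.Agent.Lib.MP_bf61d2_nt.Trim.Places
import Pool.Agent.Lib.MP_bf61d2_nt.Trim.Quad

set_option autoImplicit false

/-!
MONO (MP_bf61d2_nt): the module NRP, the norm of a place of degree one.
-/

namespace NumberField
end NumberField

namespace Pool.Agent.Lib.MP_bf61d2_nt.Zeta
end Pool.Agent.Lib.MP_bf61d2_nt.Zeta

namespace Pool.Agent.Lib.MP_bf61d2_nt.Perm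
end Pool.Agent.Lib.MP_bf61d2_nt.Perm

namespace Pool.Agent.Lib.MP_bf61d2_nt.Artin.Ray

open NumberField IsDedekindDomain Module

open Pool.Agent.Lib.MP_bf61d2_nt.Zeta Pool.Agent.Lib.MP_bf61d2_nt.Perm

open scoped Classical

universe u

/-- NRP: the norm of a place of degree one. -/
theorem stNRP : StNRP.{u} := by
  intro K F L _ _ _ _ _ _ _ _ α w hw
  let _ : Algebra F L := (α : F →+* L).toAlgebra
  have hpl : pl α w = dn (K := F) w := rfl
  have h1 : nm (dn (K := F) w) = nm w := by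
    refine le_antisymm (nm_dn_le (K := F) w) ?_
    have h2 : dn (K := K) (pl α w) = dn (K := K) w := dn_pl α w
    rw [hw, ← h2, hpl]
    exact nm_dn_le (K := K) (dn (K := F) w)
  have hwm : w.asIdeal.IsMaximal := w.isMaximal
  have hpm : (dn (K := F) w).asIdeal.IsMaximal := (dn (K := F) w).isMaximal
  have h3 : Ideal.relNorm (𝓞 F) w.asIdeal =
      (dn (K := F) w).asIdeal ^ w.asIdeal.inertiaDeg (𝓞 F) :=
    Ideal.relNorm_eq_pow_of_isMaximal w.asIdeal (dn (K := F) w).asIdeal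
  have h4 : nm (dn (K := F) w) ^ w.asIdeal.inertiaDeg (𝓞 F) = nm (dn (K := F) w) ^ 1 := by
    rw [pow_one, nm, ← map_pow, ← h3, Ideal.absNorm_relNorm]
    exact h1.symm
  have h5 : w.asIdeal.inertiaDeg (𝓞 F) = 1 :=
    Nat.pow_right_injective (one_lt_nm (dn (K := F) w)) h4
  change Ideal.relNorm (𝓞 F) w.asIdeal = (pl α w).asIdeal
  rw [h3, h5, pow_one, hpl]

end Pool.Agent.Lib.MP_bf61d2_nt.Artin.Ray
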