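import Mathlib
import Pool.Agent.Lib.MP_bf61d2_nt.Trim.Artin.MO.BAD72
import Pool.Agent.Lib.MP_bf61d2_nt.Trim.Artin.MO.BCU77
import Pool.Agent.Lib.MP_bf61d2_nt.Trim.Artin.MO.CLO63
import Pool.Agent.Lib.MP_bf61d2_nt.Trim.Artin.MO.MAINM88
import Pool.Agent.Lib.MP_bf61d2_nt.Trim.Artin.MO.MBES84
import Pool.Agent.Lib.MP_bf61d2_nt.Trim.Artin.MO.NRP63
import Pool.Agent.Lib.MP_bf61d2_nt.Trim.Artin.MO.StmtsM63
import Pool.Agent.Lib.MP_bf61d2_nt.Trim.Artin.MO.THE33
import Pool.Agent.Lib.MP_bf61d2_nt.Trim.Artin.UK.CST36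
import Pool.Agent.Lib.MP_bf61d2_nt.Trim.Artin.UK.T1U25
import Pool.Agent.Lib.MP_bf61d2_nt.Trim.Artin.UK.UFIN84
import Pool.Agent.Lib.MP_bf61d2_nt.Trim.Artin.UK.WL1U36

set_option autoImplicit false

/-!
MONO (MP_bf61d2_nt): the unconditional theorems.
-/

namespace NumberField
end NumberField

namespace Pool.Agent.Lib.MP_bf61d2_nt.Artin.Ray

open NumberField IsDedekindDomain

open scoped Classical

universe u

/-- The places at which the embeddings are not separated. -/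
theorem stBAD_84 (n : ℕ) : StBAD.{u} n := stBAD (stTHE n)

/-- The one sided inequality of Bessel for the monomial twists. -/
theorem stBESM (n m : ℕ) : StBESM.{u} n m := stBESM_84 n m stCLO stBAD_84 stNRP

/-- The main theorem for the monomial twists. -/
theorem stMAINM (n m : ℕ) : StMAINM.{u} n m :=
  stMAINM_of n m (stBESM n m) stBCU stWL1U stLELOGU stSCTWLU (stT1U25 n (stDLU n) (stWL1U n))

end Pool.Agent.Lib.MP_bf61d2_nt.Artin.Ray
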