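import Mathlib
import Pool.Agent.Lib.MP_bf61d2_nt.Trim.Artin.H.StmtsH
import Pool.Agent.Lib.MP_bf61d2_nt.Trim.Artin.L.LOCAL73
import Pool.Agent.Lib.MP_bf61d2_nt.Trim.Artin.L.StmtsL63
import Pool.Agent.Lib.MP_bf61d2_nt.Trim.Artin.MO.BCU77
import Pool.Agent.Lib.MP_bf61d2_nt.Trim.Artin.MO.BESMG63
import Pool.Agent.Lib.MP_bf61d2_nt.Trim.Artin.MO.BIJ42
import Pool.Agent.Lib.MP_bf61d2_nt.Trim.Artin.MO.CLO63
import Pool.Agent.Lib.MP_bf61d2_nt.Trim.Artin.MO.CPLG63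
import Pool.Agent.Lib.MP_bf61d2_nt.Trim.Artin.MO.DEG36
import Pool.Agent.Lib.MP_bf61d2_nt.Trim.Artin.MO.GRMG63
import Pool.Agent.Lib.MP_bf61d2_nt.Trim.Artin.MO.MAINMG88
import Pool.Agent.Lib.MP_bf61d2_nt.Trim.Artin.MO.MFIN84
import Pool.Agent.Lib.MP_bf61d2_nt.Trim.Artin.MO.NRM84
import Pool.Agent.Lib.MP_bf61d2_nt.Trim.Artin.MO.NRP63
import Pool.Agent.Lib.MP_bf61d2_nt.Trim.Artin.MO.StmtsG63
import Pool.Agent.Lib.MP_bf61d2_nt.Trim.Artin.MO.THE33
import Pool.Agent.Lib.MP_bf61d2_nt.Trim.Artin.UK.CST36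
import Pool.Agent.Lib.MP_bf61d2_nt.Trim.Artin.UK.T1U25
import Pool.Agent.Lib.MP_bf61d2_nt.Trim.Artin.UK.UFIN84
import Pool.Agent.Lib.MP_bf61d2_nt.Trim.Artin.UK.WL1U36

set_option autoImplicit false

/-!
MONO (MP_bf61d2_nt), Gram form: the unconditional theorems.
-/

namespace NumberField
end NumberField

namespace Pool.Agent.Lib.MP_bf61d2_nt.Artin.Ray

open NumberField IsDedekindDomain

open scoped Classical

universe u

/-- The bounds of the entries of the matrix of Gram. -/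
theorem stGRMG (n : ℕ) : StGRMG.{u} n :=
  stGRMG_of n (stCPLG_of n stBIJ stCLO stBAD_84) (stDSC n) stNRM stNRP stDEG stONELU
    fun L _ _ => (onel_facts73 L).2.1

/-- The one sided inequality of Bessel for the monomial twists. -/
theorem stBESMG (n m : ℕ) : StBESMG.{u} n m := stBESMG_of n m (stGRMG (n * m))

/-- The main theorem for the monomial twists. -/
theorem stMAINMG (n m : ℕ) : StMAINMG.{u} n m :=
  stMAINMG_of n m (stBESMG n m) stBCU stWL1U stLELOGU stSCTWLU (stT1U25 n (stDLU n) (stWL1U n))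

end Pool.Agent.Lib.MP_bf61d2_nt.Artin.Ray
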